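import Mathlib

/-!
Almost every graph has the extension property for three vertices.
-/

open Finset Filter Topology

namespace Pool.Agent.R451.Ext3

variable {n : ℕ}

/-- `y` is joined to `u, v, w` according to the pattern `b` -/
def Pat (G : SimpleGraph (Fin n)) (u v w : Fin n) (b : Bool × Bool × Bool) (y : Fin n) : Prop :=
  (G.Adj u y ↔ b.1 = true) ∧ (G.Adj v y ↔ b.2.1 = true) ∧ (G.Adj w y ↔ b.2.2 = true)

/-- the extension property -/
def Good (G : SimpleGraph (Fin n)) : Prop :=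
  ∀ u v w : Fin n, u ≠ v → u ≠ w → v ≠ w → ∀ b, ∃ y, y ≠ u ∧ y ≠ v ∧ y ≠ w ∧ Pat G u v w b y

/-- value prescribed for the edge `s(a,c)` -/
def modAdj (G : SimpleGraph (Fin n)) (u v w : Fin n) (b : Bool × Bool × Bool) (y a c : Fin n) : Prop :=
  if (a = u ∧ c = y) ∨ (a = y ∧ c = u) then b.1 = true
  else if (a = v ∧ c = y) ∨ (a = y ∧ c = v) then b.2.1 = true
  else if (a = w ∧ c = y) ∨ (a = y ∧ c = w) then b.2.2 = true
  else G.Adj a c

lemma swap_or {p q r s : Prop} : ((p ∧ q) ∨ (r ∧ s)) ↔ ((s ∧ r) ∨ (q ∧ p)) :=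
  ⟨fun h => h.elim (fun h => Or.inr ⟨h.2, h.1⟩) (fun h => Or.inl ⟨h.2, h.1⟩),
    fun h => h.elim (fun h => Or.inr ⟨h.2, h.1⟩) (fun h => Or.inl ⟨h.2, h.1⟩)⟩

lemma modAdj_symm {G : SimpleGraph (Fin n)} {u v w : Fin n} {b : Bool × Bool × Bool}
    {y a c : Fin n} (h : modAdj G u v w b y a c) : modAdj G u v w b y c a := by
  unfold modAdj at *
  have e1 : ((c = u ∧ a = y) ∨ (c = y ∧ a = u)) ↔ ((a = u ∧ c = y) ∨ (a = y ∧ c = u)) := swap_or
  have e2 : ((c = v ∧ a = y) ∨ (c = y ∧ a = v)) ↔ ((a = v ∧ c = y) ∨ (a = y ∧ c = v)) := swap_or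
  have e3 : ((c = w ∧ a = y) ∨ (c = y ∧ a = w)) ↔ ((a = w ∧ c = y) ∨ (a = y ∧ c = w)) := swap_or
  by_cases c1 : (a = u ∧ c = y) ∨ (a = y ∧ c = u)
  · rw [if_pos c1] at h
    rw [if_pos (e1.mpr c1)]
    exact h
  · rw [if_neg c1] at h
    rw [if_neg fun h => c1 (e1.mp h)]
    by_cases c2 : (a = v ∧ c = y) ∨ (a = y ∧ c = v)
    · rw [if_pos c2] at h
      rw [if_pos (e2.mpr c2)]
      exact h
    · rw [if_neg c2] at h
      rw [if_neg fun h => c2 (e2.mp h)]
      by_cases c3 : (a = w ∧ c = y) ∨ (a = y ∧ c = w)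
      · rw [if_pos c3] at h
        rw [if_pos (e3.mpr c3)]
        exact h
      · rw [if_neg c3] at h
        rw [if_neg fun h => c3 (e3.mp h)]
        exact h.symm

/-- the graph modified at `y` -/
def modG (G : SimpleGraph (Fin n)) (u v w : Fin n) (b : Bool × Bool × Bool) (y : Fin n)
    (h : y ≠ u ∧ y ≠ v ∧ y ≠ w) : SimpleGraph (Fin n) where
  Adj a c := modAdj G u v w b y a c
  symm := ⟨fun _ _ h => modAdj_symm h⟩
  loopless := ⟨fun a ha => by
    unfold modAdj at ha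
    rw [if_neg, if_neg, if_neg] at ha
    · exact G.irrefl ha
    · rintro (⟨rfl, h1⟩ | ⟨rfl, h1⟩)
      · exact h.2.2 h1.symm
      · exact h.2.2 h1
    · rintro (⟨rfl, h1⟩ | ⟨rfl, h1⟩)
      · exact h.2.1 h1.symm
      · exact h.2.1 h1
    · rintro (⟨rfl, h1⟩ | ⟨rfl, h1⟩)
      · exact h.1 h1.symm
      · exact h.1 h1⟩

/-- graphs with no `y ∈ Y` of the pattern -/
def BadSet (u v w : Fin n) (b : Bool × Bool × Bool) (Y : Finset (Fin n)) :
    Set (SimpleGraph (Fin n)) :=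
  {G | ∀ y ∈ Y, ¬ Pat G u v w b y}

lemma modG_adj_u {G : SimpleGraph (Fin n)} {u v w : Fin n} {b : Bool × Bool × Bool} {y : Fin n}
    (h : y ≠ u ∧ y ≠ v ∧ y ≠ w) : (modG G u v w b y h).Adj u y ↔ b.1 = true := by
  show modAdj G u v w b y u y ↔ _
  unfold modAdj
  rw [if_pos (Or.inl ⟨rfl, rfl⟩)]

lemma modG_adj_v {G : SimpleGraph (Fin n)} {u v w : Fin n} {b : Bool × Bool × Bool} {y : Fin n}
    (huv : u ≠ v) (h : y ≠ u ∧ y ≠ v ∧ y ≠ w) :
    (modG G u v w b y h).Adj v y ↔ b.2.1 = true := by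
  show modAdj G u v w b y v y ↔ _
  unfold modAdj
  rw [if_neg, if_pos (Or.inl ⟨rfl, rfl⟩)]
  rintro (⟨h1, _⟩ | ⟨_, h1⟩)
  · exact huv h1.symm
  · exact h.1 h1

lemma modG_adj_w {G : SimpleGraph (Fin n)} {u v w : Fin n} {b : Bool × Bool × Bool} {y : Fin n}
    (huw : u ≠ w) (hvw : v ≠ w) (h : y ≠ u ∧ y ≠ v ∧ y ≠ w) :
    (modG G u v w b y h).Adj w y ↔ b.2.2 = true := by
  show modAdj G u v w b y w y ↔ _
  unfold modAdj
  rw [if_neg, if_neg, if_pos (Or.inl ⟨rfl, rfl⟩)]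
  · rintro (⟨h1, _⟩ | ⟨_, h1⟩)
    · exact hvw h1.symm
    · exact h.2.1 h1
  · rintro (⟨h1, _⟩ | ⟨_, h1⟩)
    · exact huw h1.symm
    · exact h.1 h1

lemma modG_pat {G : SimpleGraph (Fin n)} {u v w : Fin n} {b : Bool × Bool × Bool} {y : Fin n}
    (huv : u ≠ v) (huw : u ≠ w) (hvw : v ≠ w) (h : y ≠ u ∧ y ≠ v ∧ y ≠ w) :
    Pat (modG G u v w b y h) u v w b y :=
  ⟨modG_adj_u h, modG_adj_v huv h, modG_adj_w huw hvw h⟩

/-- other vertices are unaffected -/
lemma modG_pat_other {G : SimpleGraph (Fin n)} {u v w : Fin n} {b b' : Bool × Bool × Bool}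
    {y z : Fin n} (h : y ≠ u ∧ y ≠ v ∧ y ≠ w) (hz : z ≠ y) :
    Pat (modG G u v w b y h) u v w b' z ↔ Pat G u v w b' z := by
  have key : ∀ x, x = u ∨ x = v ∨ x = w → ((modG G u v w b y h).Adj x z ↔ G.Adj x z) := by
    intro x hx
    have hxy : x ≠ y := by
      rcases hx with rfl | rfl | rfl
      · exact h.1.symm
      · exact h.2.1.symm
      · exact h.2.2.symm
    show modAdj G u v w b y x z ↔ _
    unfold modAdj
    rw [if_neg, if_neg, if_neg]
    · rintro (⟨_, h1⟩ | ⟨h1, _⟩)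
      · exact hz h1
      · exact hxy h1
    · rintro (⟨_, h1⟩ | ⟨h1, _⟩)
      · exact hz h1
      · exact hxy h1
    · rintro (⟨_, h1⟩ | ⟨h1, _⟩)
      · exact hz h1
      · exact hxy h1
  unfold Pat
  rw [key u (Or.inl rfl), key v (Or.inr (Or.inl rfl)), key w (Or.inr (Or.inr rfl))]

open Classical in
/-- the three bits at `y` -/
noncomputable def bits (G : SimpleGraph (Fin n)) (u v w y : Fin n) : Bool × Bool × Bool :=
  (decide (G.Adj u y), decide (G.Adj v y), decide (G.Adj w y))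

lemma modG_inj {G G' : SimpleGraph (Fin n)} {u v w : Fin n} {b : Bool × Bool × Bool} {y : Fin n}
    (h : y ≠ u ∧ y ≠ v ∧ y ≠ w) (h1 : modG G u v w b y h = modG G' u v w b y h)
    (h2 : bits G u v w y = bits G' u v w y) : G = G' := by
  classical
  unfold bits at h2
  simp only [Prod.mk.injEq, decide_eq_decide] at h2
  obtain ⟨hu, hv, hw⟩ := h2
  ext a c
  by_cases c1 : (a = u ∧ c = y) ∨ (a = y ∧ c = u)
  · rcases c1 with ⟨rfl, rfl⟩ | ⟨rfl, rfl⟩
    · exact hu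
    · rw [G.adj_comm, G'.adj_comm]
      exact hu
  by_cases c2 : (a = v ∧ c = y) ∨ (a = y ∧ c = v)
  · rcases c2 with ⟨rfl, rfl⟩ | ⟨rfl, rfl⟩
    · exact hv
    · rw [G.adj_comm, G'.adj_comm]
      exact hv
  by_cases c3 : (a = w ∧ c = y) ∨ (a = y ∧ c = w)
  · rcases c3 with ⟨rfl, rfl⟩ | ⟨rfl, rfl⟩
    · exact hw
    · rw [G.adj_comm, G'.adj_comm]
      exact hw
  have h3 : (modG G u v w b y h).Adj a c ↔ (modG G' u v w b y h).Adj a c := by rw [h1]
  have h4 : modAdj G u v w b y a c ↔ modAdj G' u v w b y a c := h3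
  unfold modAdj at h4
  rwa [if_neg c1, if_neg c2, if_neg c3, if_neg c1, if_neg c2, if_neg c3] at h4

/-- one step: `8 |Bad (insert y Y)| ≤ 7 |Bad Y|` -/
lemma bad_step {u v w : Fin n} (huv : u ≠ v) (huw : u ≠ w) (hvw : v ≠ w)
    (b : Bool × Bool × Bool) (Y : Finset (Fin n)) (y : Fin n) (hy : y ∉ Y)
    (h : y ≠ u ∧ y ≠ v ∧ y ≠ w) :
    8 * (BadSet u v w b (insert y Y)).ncard ≤ 7 * (BadSet u v w b Y).ncard := by
  classical
  -- the graphs in `Bad Y` with the pattern at `y`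
  set P : Set (SimpleGraph (Fin n)) := {G ∈ BadSet u v w b Y | Pat G u v w b y} with hP
  have hsplit : (BadSet u v w b Y).ncard = (BadSet u v w b (insert y Y)).ncard + P.ncard := by
    have hunion : BadSet u v w b Y = BadSet u v w b (insert y Y) ∪ P := by
      ext G
      simp only [BadSet, hP, Set.mem_union, Set.mem_ofPred_eq, Finset.mem_insert,
        forall_eq_or_imp]
      tauto
    rw [hunion, Set.ncard_union_eq]
    rw [Set.disjoint_left]
    intro G h1 h2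
    exact h1 y (Finset.mem_insert_self _ _) h2.2
  have hle : (BadSet u v w b Y).ncard ≤ P.ncard * 8 := by
    have h8 : (Set.univ : Set (Bool × Bool × Bool)).ncard = 8 := by
      rw [Set.ncard_univ, Nat.card_eq_fintype_card]
      rfl
    rw [← h8, ← Set.ncard_prod]
    refine Set.ncard_le_ncard_of_injOn (fun G => (modG G u v w b y h, bits G u v w y)) ?_ ?_
      (Set.toFinite _)
    · intro G hG
      refine ⟨⟨?_, modG_pat huv huw hvw h⟩, Set.mem_univ _⟩
      intro z hz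
      have hzy : z ≠ y := by
        rintro rfl
        exact hy hz
      rw [modG_pat_other h hzy]
      exact hG z hz
    · intro G _ G' _ hGG
      simp only [Prod.mk.injEq] at hGG
      exact modG_inj h hGG.1 hGG.2
  omega

lemma bad_pow {u v w : Fin n} (huv : u ≠ v) (huw : u ≠ w) (hvw : v ≠ w)
    (b : Bool × Bool × Bool) (Y : Finset (Fin n)) (hY : ∀ y ∈ Y, y ≠ u ∧ y ≠ v ∧ y ≠ w) :
    8 ^ Y.card * (BadSet u v w b Y).ncard ≤ 7 ^ Y.card * Nat.card (SimpleGraph (Fin n)) := by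
  classical
  induction Y using Finset.induction_on with
  | empty =>
    simp only [Finset.card_empty, pow_zero, one_mul]
    rw [← Set.ncard_univ]
    exact Set.ncard_le_ncard (Set.subset_univ _) (Set.toFinite _)
  | insert y Y hy ih =>
    rw [Finset.card_insert_of_notMem hy]
    have h1 := ih fun z hz => hY z (Finset.mem_insert_of_mem hz)
    have h2 := bad_step huv huw hvw b Y y hy (hY y (Finset.mem_insert_self _ _))
    calc 8 ^ (Y.card + 1) * (BadSet u v w b (insert y Y)).ncard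
        = 8 ^ Y.card * (8 * (BadSet u v w b (insert y Y)).ncard) := by ring
      _ ≤ 8 ^ Y.card * (7 * (BadSet u v w b Y).ncard) := Nat.mul_le_mul_left _ h2
      _ = 7 * (8 ^ Y.card * (BadSet u v w b Y).ncard) := by ring
      _ ≤ 7 * (7 ^ Y.card * Nat.card (SimpleGraph (Fin n))) := Nat.mul_le_mul_left _ h1
      _ = 7 ^ (Y.card + 1) * Nat.card (SimpleGraph (Fin n)) := by ring

/-- a bound for the number of graphs without the extension property -/
lemma not_good_le (hn : 3 ≤ n) : 8 ^ (n - 3) * {G : SimpleGraph (Fin n) | ¬ Good G}.ncard ≤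
    n ^ 3 * 8 * 7 ^ (n - 3) * Nat.card (SimpleGraph (Fin n)) := by
  classical
  let Y : Fin n → Fin n → Fin n → Finset (Fin n) := fun u v w =>
    ((Finset.univ.erase u).erase v).erase w
  let I : Finset (Fin n × Fin n × Fin n × (Bool × Bool × Bool)) := Finset.univ.filter fun i =>
    i.1 ≠ i.2.1 ∧ i.1 ≠ i.2.2.1 ∧ i.2.1 ≠ i.2.2.1
  have hsub : {G : SimpleGraph (Fin n) | ¬ Good G} ⊆ ⋃ i ∈ I,
      BadSet i.1 i.2.1 i.2.2.1 i.2.2.2 (Y i.1 i.2.1 i.2.2.1) := by
    intro G hG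
    have hG' : ¬ Good G := hG
    unfold Good at hG'
    push Not at hG'
    obtain ⟨u, v, w, huv, huw, hvw, b, hb⟩ := hG'
    rw [Set.mem_iUnion₂]
    refine ⟨(u, v, w, b), by simp [I, huv, huw, hvw], ?_⟩
    intro y hy
    simp only [Y, Finset.mem_erase, Finset.mem_univ, and_true] at hy
    exact hb y hy.2.2 hy.2.1 hy.1
  have hcard : ∀ i ∈ I, 8 ^ (n - 3) *
      (BadSet i.1 i.2.1 i.2.2.1 i.2.2.2 (Y i.1 i.2.1 i.2.2.1)).ncard ≤
      7 ^ (n - 3) * Nat.card (SimpleGraph (Fin n)) := by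
    intro i hi
    simp only [I, Finset.mem_filter, Finset.mem_univ, true_and] at hi
    have hYc : (Y i.1 i.2.1 i.2.2.1).card = n - 3 := by
      simp only [Y]
      rw [Finset.card_erase_of_mem, Finset.card_erase_of_mem, Finset.card_erase_of_mem]
      · rw [Finset.card_univ, Fintype.card_fin]
        omega
      · exact Finset.mem_univ _
      · simp [hi.1.symm]
      · simp [hi.2.1.symm, hi.2.2.symm]
    have := bad_pow hi.1 hi.2.1 hi.2.2 i.2.2.2 (Y i.1 i.2.1 i.2.2.1) (by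
      intro y hy
      simp only [Y, Finset.mem_erase, Finset.mem_univ, and_true] at hy
      exact ⟨hy.2.2, hy.2.1, hy.1⟩)
    rwa [hYc] at this
  have h1 : {G : SimpleGraph (Fin n) | ¬ Good G}.ncard ≤ ∑ i ∈ I,
      (BadSet i.1 i.2.1 i.2.2.1 i.2.2.2 (Y i.1 i.2.1 i.2.2.1)).ncard :=
    (Set.ncard_le_ncard hsub (Set.toFinite _)).trans (Finset.set_ncard_biUnion_le _ _)
  have hI : I.card ≤ n ^ 3 * 8 := by
    refine (Finset.card_filter_le _ _).trans ?_
    rw [Finset.card_univ]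
    simp only [Fintype.card_prod, Fintype.card_fin, Fintype.card_bool]
    apply le_of_eq
    ring
  calc 8 ^ (n - 3) * {G : SimpleGraph (Fin n) | ¬ Good G}.ncard
      ≤ 8 ^ (n - 3) * ∑ i ∈ I, (BadSet i.1 i.2.1 i.2.2.1 i.2.2.2 (Y i.1 i.2.1 i.2.2.1)).ncard :=
        Nat.mul_le_mul_left _ h1
    _ = ∑ i ∈ I, 8 ^ (n - 3) * (BadSet i.1 i.2.1 i.2.2.1 i.2.2.2 (Y i.1 i.2.1 i.2.2.1)).ncard := by
        rw [Finset.mul_sum]
    _ ≤ ∑ i ∈ I, 7 ^ (n - 3) * Nat.card (SimpleGraph (Fin n)) := Finset.sum_le_sum hcard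
    _ = I.card * (7 ^ (n - 3) * Nat.card (SimpleGraph (Fin n))) := by
        rw [Finset.sum_const, smul_eq_mul]
    _ ≤ n ^ 3 * 8 * (7 ^ (n - 3) * Nat.card (SimpleGraph (Fin n))) := Nat.mul_le_mul_right _ hI
    _ = n ^ 3 * 8 * 7 ^ (n - 3) * Nat.card (SimpleGraph (Fin n)) := by ring

/-- `P` holds for almost every graph. -/
def AlmostEvery (P : (n : ℕ) → SimpleGraph (Fin n) → Prop) : Prop :=
  Tendsto (fun n : ℕ => ({G : SimpleGraph (Fin n) | P n G}.ncard : ℝ) /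
    (Nat.card (SimpleGraph (Fin n)) : ℝ)) atTop (𝓝 1)

/-- a property implied by the extension property for large `n` holds for almost every graph -/
theorem almostEvery_of_good (P : (n : ℕ) → SimpleGraph (Fin n) → Prop)
    (hP : ∀ n, 3 ≤ n → ∀ G : SimpleGraph (Fin n), Good G → P n G) : AlmostEvery P := by
  have hlim : Tendsto (fun n : ℕ => 1 - (n : ℝ) ^ 3 * 8 * (7 / 8 : ℝ) ^ (n - 3)) atTop (𝓝 1) := by
    have h1 : Tendsto (fun n : ℕ => (n : ℝ) ^ 3 * (7 / 8 : ℝ) ^ n) atTop (𝓝 0) :=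
      tendsto_pow_const_mul_const_pow_of_abs_lt_one 3 (by norm_num [abs_of_pos])
    have h2 : Tendsto (fun n : ℕ => 1 - (8 * (8 / 7 : ℝ) ^ 3) * ((n : ℝ) ^ 3 * (7 / 8 : ℝ) ^ n))
        atTop (𝓝 (1 - (8 * (8 / 7 : ℝ) ^ 3) * 0)) :=
      tendsto_const_nhds.sub (h1.const_mul _)
    rw [mul_zero, sub_zero] at h2
    refine h2.congr' ?_
    filter_upwards [eventually_ge_atTop 3] with n hn
    obtain ⟨m, rfl⟩ : ∃ m, n = m + 3 := ⟨n - 3, by omega⟩
    rw [Nat.add_sub_cancel, pow_add]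
    ring
  refine tendsto_of_tendsto_of_tendsto_of_le_of_le' hlim tendsto_const_nhds ?_ ?_
  · filter_upwards [eventually_ge_atTop 3] with n hn
    have hN : 0 < Nat.card (SimpleGraph (Fin n)) := Nat.card_pos
    have hNr : (0 : ℝ) < (Nat.card (SimpleGraph (Fin n)) : ℝ) := by exact_mod_cast hN
    rw [le_div_iff₀ hNr]
    have h1 : {G : SimpleGraph (Fin n) | ¬ Good G}.ncard + {G : SimpleGraph (Fin n) | P n G}.ncard ≥
        Nat.card (SimpleGraph (Fin n)) := by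
      rw [← Set.ncard_univ, ge_iff_le]
      refine (Set.ncard_le_ncard (fun G _ => ?_) (Set.toFinite _)).trans (Set.ncard_union_le _ _)
      by_cases hG : Good G
      · exact Or.inr (hP n hn G hG)
      · exact Or.inl hG
    have h2 := not_good_le hn
    have h1r : (Nat.card (SimpleGraph (Fin n)) : ℝ) ≤ ({G : SimpleGraph (Fin n) | ¬ Good G}.ncard : ℝ) +
        ({G : SimpleGraph (Fin n) | P n G}.ncard : ℝ) := by exact_mod_cast h1
    have h2r : (8 : ℝ) ^ (n - 3) * ({G : SimpleGraph (Fin n) | ¬ Good G}.ncard : ℝ) ≤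
        (n : ℝ) ^ 3 * 8 * 7 ^ (n - 3) * (Nat.card (SimpleGraph (Fin n)) : ℝ) := by exact_mod_cast h2
    have h3 : ({G : SimpleGraph (Fin n) | ¬ Good G}.ncard : ℝ) ≤
        (n : ℝ) ^ 3 * 8 * (7 / 8 : ℝ) ^ (n - 3) * (Nat.card (SimpleGraph (Fin n)) : ℝ) := by
      have h8 : (0 : ℝ) < 8 ^ (n - 3) := by positivity
      have : (8 : ℝ) ^ (n - 3) * ({G : SimpleGraph (Fin n) | ¬ Good G}.ncard : ℝ) ≤ 8 ^ (n - 3) *
          ((n : ℝ) ^ 3 * 8 * (7 / 8 : ℝ) ^ (n - 3) * (Nat.card (SimpleGraph (Fin n)) : ℝ)) := by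
        refine h2r.trans (le_of_eq ?_)
        rw [div_pow]
        field_simp
      exact le_of_mul_le_mul_left this h8
    nlinarith
  · filter_upwards with n
    have hN : 0 < Nat.card (SimpleGraph (Fin n)) := Nat.card_pos
    have hNr : (0 : ℝ) < (Nat.card (SimpleGraph (Fin n)) : ℝ) := by exact_mod_cast hN
    rw [div_le_one hNr]
    have : {G : SimpleGraph (Fin n) | P n G}.ncard ≤ Nat.card (SimpleGraph (Fin n)) := by
      rw [← Set.ncard_univ]
      exact Set.ncard_le_ncard (Set.subset_univ _) (Set.toFinite _)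
    exact_mod_cast this

end Pool.Agent.R451.Ext3
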