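import Mathlib

/-!
Hermite's inequality for positive definite rational quadratic forms, with a unimodular matrix
realising the short vector as its first column.
-/

open Matrix Finset

namespace Pool.Agent.R451.Hermite

variable {n : ℕ}

/-- the quadratic form of a matrix -/
def q (G : Matrix (Fin n) (Fin n) ℚ) (x : Fin n → ℚ) : ℚ := x ⬝ᵥ G *ᵥ x

/-- integer vector as rational vector -/
def cst (x : Fin n → ℤ) : Fin n → ℚ := fun i => (x i : ℚ)

/-- positive definite symmetric -/
def PD (G : Matrix (Fin n) (Fin n) ℚ) : Prop := G.IsSymm ∧ ∀ x : Fin n → ℚ, x ≠ 0 → 0 < q G x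

/-- Schur complement of the first entry -/
def schur (G : Matrix (Fin (n + 1)) (Fin (n + 1)) ℚ) : Matrix (Fin n) (Fin n) ℚ :=
  Matrix.of fun i j => G i.succ j.succ - G 0 i.succ * G 0 j.succ / G 0 0

lemma q_eq (G : Matrix (Fin n) (Fin n) ℚ) (x : Fin n → ℚ) :
    q G x = ∑ i, ∑ j, x i * G i j * x j := by
  unfold q dotProduct mulVec dotProduct
  refine sum_congr rfl fun i _ => ?_
  rw [mul_sum]
  exact sum_congr rfl fun j _ => by ring

lemma q_single (G : Matrix (Fin (n + 1)) (Fin (n + 1)) ℚ) : q G (Pi.single 0 1) = G 0 0 := by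
  unfold q
  simp

lemma q_cons {G : Matrix (Fin (n + 1)) (Fin (n + 1)) ℚ} (hs : G.IsSymm) (ha : G 0 0 ≠ 0)
    (t : ℚ) (y : Fin n → ℚ) :
    q G (Fin.cons t y : Fin (n + 1) → ℚ) =
      q (schur G) y + (G 0 0 * t + ∑ j, G 0 j.succ * y j) ^ 2 / G 0 0 := by
  have hsym : ∀ i : Fin n, G i.succ 0 = G 0 i.succ := fun i => hs.apply 0 i.succ
  have h1 : q G (Fin.cons t y : Fin (n + 1) → ℚ) =
      G 0 0 * t ^ 2 + 2 * t * (∑ j, G 0 j.succ * y j) +
        ∑ i, ∑ j, y i * G i.succ j.succ * y j := by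
    rw [q_eq, Fin.sum_univ_succ]
    simp only [Fin.sum_univ_succ, Fin.cons_zero, Fin.cons_succ, hsym]
    rw [sum_add_distrib]
    have e1 : ∑ j : Fin n, t * G 0 j.succ * y j = t * ∑ j, G 0 j.succ * y j := by
      rw [mul_sum]; exact sum_congr rfl fun j _ => by ring
    have e2 : ∑ j : Fin n, y j * G 0 j.succ * t = t * ∑ j, G 0 j.succ * y j := by
      rw [mul_sum]; exact sum_congr rfl fun j _ => by ring
    rw [e1, e2]
    ring
  have h2 : q (schur G) y = (∑ i, ∑ j, y i * G i.succ j.succ * y j) -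
      (∑ j, G 0 j.succ * y j) ^ 2 / G 0 0 := by
    rw [q_eq]
    have e3 : (∑ j, G 0 j.succ * y j) ^ 2 / G 0 0 =
        ∑ i, ∑ j, y i * (G 0 i.succ * G 0 j.succ / G 0 0) * y j := by
      rw [pow_two, sum_mul_sum, sum_div]
      refine sum_congr rfl fun i _ => ?_
      rw [sum_div]
      exact sum_congr rfl fun j _ => by ring
    rw [e3, ← sum_sub_distrib]
    refine sum_congr rfl fun i _ => ?_
    rw [← sum_sub_distrib]
    refine sum_congr rfl fun j _ => ?_
    simp only [schur, Matrix.of_apply]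
    ring
  rw [h1, h2]
  field_simp
  ring

lemma PD.pos {G : Matrix (Fin (n + 1)) (Fin (n + 1)) ℚ} (h : PD G) : 0 < G 0 0 := by
  rw [← q_single G]
  apply h.2
  intro h0
  have := congrFun h0 0
  simp at this

lemma schur_det {G : Matrix (Fin (n + 1)) (Fin (n + 1)) ℚ} (h : PD G) :
    G.det = G 0 0 * (schur G).det := by
  have ha := h.pos.ne'
  set A : Matrix (Fin (n + 1)) (Fin (n + 1)) ℚ := Matrix.of fun i j =>
    G i j + (if i = 0 then 0 else -(G i 0) / G 0 0) * G 0 j with hA
  have h1 : A.det = G.det :=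
    Matrix.det_eq_of_forall_row_eq_smul_add_const (fun i => if i = 0 then 0 else -(G i 0) / G 0 0)
      0 (by simp) (fun i j => by simp [hA])
  rw [← h1, Matrix.det_succ_column_zero, Fin.sum_univ_succ]
  have h2 : ∀ i : Fin n, A i.succ 0 = 0 := by
    intro i
    simp only [hA, Matrix.of_apply, Fin.succ_ne_zero, if_false]
    field_simp
    ring
  have h3 : A 0 0 = G 0 0 := by simp [hA]
  have h4 : A.submatrix (Fin.succAbove 0) Fin.succ = schur G := by
    ext i j
    simp only [Matrix.submatrix_apply, hA, Matrix.of_apply, schur, Fin.zero_succAbove,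
      Fin.succ_ne_zero, if_false]
    rw [h.1.apply 0 i.succ]
    ring
  rw [sum_eq_zero (fun i _ => by rw [h2]; ring), h3, h4]
  simp

lemma schur_PD {G : Matrix (Fin (n + 1)) (Fin (n + 1)) ℚ} (h : PD G) : PD (schur G) := by
  refine ⟨?_, ?_⟩
  · ext i j
    simp only [schur, Matrix.transpose_apply, Matrix.of_apply]
    rw [h.1.apply i.succ j.succ]
    ring
  · intro y hy
    have ha := h.pos
    have h1 := q_cons h.1 ha.ne' (-(∑ j, G 0 j.succ * y j) / G 0 0) y
    have h2 : G 0 0 * (-(∑ j, G 0 j.succ * y j) / G 0 0) + ∑ j, G 0 j.succ * y j = 0 := by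
      field_simp
      ring
    rw [h2] at h1
    have h3 : (0 : ℚ) < q G (Fin.cons (-(∑ j, G 0 j.succ * y j) / G 0 0) y : Fin (n + 1) → ℚ) := by
      apply h.2
      intro h0
      apply hy
      funext j
      have := congrFun h0 j.succ
      simpa using this
    rw [h1] at h3
    simpa using h3

/-- change of basis -/
def bc (U : Matrix (Fin n) (Fin n) ℤ) (G : Matrix (Fin n) (Fin n) ℚ) :
    Matrix (Fin n) (Fin n) ℚ :=
  (U.map (Int.cast : ℤ → ℚ))ᵀ * G * U.map (Int.cast : ℤ → ℚ)

lemma q_bc (U : Matrix (Fin n) (Fin n) ℤ) (G : Matrix (Fin n) (Fin n) ℚ) (x : Fin n → ℚ) :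
    q (bc U G) x = q G (U.map (Int.cast : ℤ → ℚ) *ᵥ x) := by
  unfold q bc
  rw [← Matrix.mulVec_mulVec, ← Matrix.mulVec_mulVec, Matrix.dotProduct_mulVec,
    Matrix.vecMul_transpose]

lemma cst_mulVec (U : Matrix (Fin n) (Fin n) ℤ) (x : Fin n → ℤ) :
    cst (U *ᵥ x) = U.map (Int.cast : ℤ → ℚ) *ᵥ cst x := by
  funext i
  simp [cst, mulVec, dotProduct]

lemma det_cast (U : Matrix (Fin n) (Fin n) ℤ) :
    (U.map (Int.cast : ℤ → ℚ)).det = (U.det : ℚ) := by
  have := (Int.castRingHom ℚ).map_det U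
  simpa using this.symm

lemma det_bc {U : Matrix (Fin n) (Fin n) ℤ} (hU : IsUnit U.det) (G : Matrix (Fin n) (Fin n) ℚ) :
    (bc U G).det = G.det := by
  unfold bc
  rw [Matrix.det_mul, Matrix.det_mul, Matrix.det_transpose, det_cast]
  have h : ((U.det : ℤ) : ℚ) * (U.det : ℚ) = 1 := by
    rcases Int.isUnit_iff.mp hU with h | h <;> rw [h] <;> norm_num
  calc (U.det : ℚ) * G.det * (U.det : ℚ) = ((U.det : ℚ) * (U.det : ℚ)) * G.det := by ring
    _ = G.det := by rw [h, one_mul]

lemma PD_bc {U : Matrix (Fin n) (Fin n) ℤ} (hU : IsUnit U.det) {G : Matrix (Fin n) (Fin n) ℚ}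
    (h : PD G) : PD (bc U G) := by
  refine ⟨?_, ?_⟩
  · unfold bc
    unfold Matrix.IsSymm
    rw [Matrix.transpose_mul, Matrix.transpose_mul, Matrix.transpose_transpose, h.1.eq,
      Matrix.mul_assoc]
  · intro x hx
    rw [q_bc]
    apply h.2
    intro h0
    apply hx
    have hdet : (U.map (Int.cast : ℤ → ℚ)).det ≠ 0 := by
      rw [det_cast]
      exact_mod_cast hU.ne_zero
    exact Matrix.eq_zero_of_mulVec_eq_zero hdet h0

/-- extension of a matrix by `1` in the upper left corner -/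
def ext1 (V : Matrix (Fin n) (Fin n) ℤ) : Matrix (Fin (n + 1)) (Fin (n + 1)) ℤ :=
  Matrix.of (Fin.cons (Fin.cons 1 0) fun i => Fin.cons 0 (V i))

lemma ext1_det (V : Matrix (Fin n) (Fin n) ℤ) : (ext1 V).det = V.det := by
  rw [Matrix.det_succ_column_zero, Fin.sum_univ_succ]
  have h2 : ∀ i : Fin n, ext1 V i.succ 0 = 0 := fun i => by simp [ext1]
  have h3 : ext1 V 0 0 = 1 := by simp [ext1]
  have h4 : (ext1 V).submatrix (Fin.succAbove 0) Fin.succ = V := by
    ext i j
    simp [ext1]
  rw [sum_eq_zero (fun i _ => by rw [h2]; ring), h3, h4]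
  simp

lemma ext1_mulVec (V : Matrix (Fin n) (Fin n) ℤ) (t : ℤ) (y : Fin n → ℤ) :
    ext1 V *ᵥ (Fin.cons t y : Fin (n + 1) → ℤ) = Fin.cons t (V *ᵥ y) := by
  funext i
  refine Fin.cases ?_ (fun i => ?_) i
  · simp [ext1, mulVec, dotProduct, Fin.sum_univ_succ]
  · simp [ext1, mulVec, dotProduct, Fin.sum_univ_succ]

/-- a vector `(t, V e_0)` with `V` unimodular is the first column of a unimodular matrix -/
lemma exists_col (V : Matrix (Fin (n + 1)) (Fin (n + 1)) ℤ) (hV : IsUnit V.det) (t : ℤ) :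
    ∃ W : Matrix (Fin (n + 2)) (Fin (n + 2)) ℤ, IsUnit W.det ∧
      W *ᵥ Pi.single 0 1 = Fin.cons t (V *ᵥ Pi.single 0 1) := by
  refine ⟨ext1 V * (Matrix.transvection 0 1 t * (Equiv.swap (0 : Fin (n + 2)) 1).toPEquiv.toMatrix),
    ?_, ?_⟩
  · rw [Matrix.det_mul, Matrix.det_mul, ext1_det, Matrix.det_transvection_of_ne _ _ (by simp),
      Matrix.det_permutation, Equiv.Perm.sign_swap (by simp)]
    simpa using hV
  · rw [← Matrix.mulVec_mulVec, ← Matrix.mulVec_mulVec]
    have h1 : ((Equiv.swap (0 : Fin (n + 2)) 1).toPEquiv.toMatrix : Matrix _ _ ℤ) *ᵥ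
        Pi.single 0 1 = Pi.single 1 1 := by
      funext i
      rw [Matrix.mulVec_single_one]
      simp only [Matrix.col_apply, PEquiv.toMatrix_apply, Equiv.toPEquiv_apply, Option.mem_def,
        Option.some.injEq, Pi.single_apply]
      congr 1
      rw [eq_iff_iff, Equiv.swap_apply_eq_iff]
      simp
    have h2 : Matrix.transvection (0 : Fin (n + 2)) 1 t *ᵥ Pi.single 1 1 =
        (Fin.cons t (Pi.single 0 1) : Fin (n + 2) → ℤ) := by
      funext i
      rw [Matrix.mulVec_single_one]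
      simp only [Matrix.col_apply, Matrix.transvection, Matrix.add_apply, Matrix.one_apply,
        Matrix.single_apply]
      refine Fin.cases ?_ (fun i => ?_) i
      · simp
      · simp only [Fin.cons_succ, Pi.single_apply]
        by_cases hi : i = 0
        · subst hi
          simp
        · have : i.succ ≠ 1 := by
            intro h
            exact hi (Fin.succ_injective _ h)
          simp [this, hi, (Fin.succ_ne_zero i).symm]
    rw [h1, h2, ext1_mulVec]

lemma exists_denom (G : Matrix (Fin n) (Fin n) ℚ) :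
    ∃ D : ℕ, 0 < D ∧ ∀ x : Fin n → ℤ, ∃ z : ℤ, (D : ℚ) * q G (cst x) = z := by
  refine ⟨∏ i, ∏ j, (G i j).den, ?_, ?_⟩
  · exact Finset.prod_pos fun i _ => Finset.prod_pos fun j _ => (G i j).den_pos
  · intro x
    have h1 : ∀ i j, ∃ z : ℤ, ((∏ i, ∏ j, (G i j).den : ℕ) : ℚ) * G i j = z := by
      intro i j
      obtain ⟨m, hm⟩ : (G i j).den ∣ ∏ i, ∏ j, (G i j).den :=
        (Finset.dvd_prod_of_mem (fun j => (G i j).den) (mem_univ j)).trans
          (Finset.dvd_prod_of_mem (fun i => ∏ j, (G i j).den) (mem_univ i))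
      refine ⟨m * (G i j).num, ?_⟩
      rw [hm]
      push_cast
      have h2 : (G i j : ℚ) * (G i j).den = (G i j).num := Rat.mul_den_eq_num _
      calc ((G i j).den : ℚ) * m * G i j = m * (G i j * (G i j).den) := by ring
        _ = m * (G i j).num := by rw [h2]
    choose z hz using h1
    refine ⟨∑ i, ∑ j, x i * z i j * x j, ?_⟩
    rw [q_eq, mul_sum]
    push_cast
    refine sum_congr rfl fun i _ => ?_
    rw [mul_sum]
    refine sum_congr rfl fun j _ => ?_
    rw [← hz i j]
    simp only [cst]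
    push_cast
    ring

/-- **Hermite's inequality.** -/
theorem hermite (n : ℕ) : ∀ G : Matrix (Fin (n + 1)) (Fin (n + 1)) ℚ, PD G →
    ∃ U : Matrix (Fin (n + 1)) (Fin (n + 1)) ℤ, IsUnit U.det ∧
      (q G (cst (U *ᵥ Pi.single 0 1))) ^ (n + 1) ≤ (4 / 3) ^ (n * (n + 1) / 2) * G.det := by
  induction n with
  | zero =>
    intro G hG
    refine ⟨1, by simp, ?_⟩
    have h1 : cst ((1 : Matrix (Fin (0 + 1)) (Fin (0 + 1)) ℤ) *ᵥ Pi.single 0 1) =
        (Pi.single 0 1 : Fin (0 + 1) → ℚ) := by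
      funext i
      have hi : i = 0 := Fin.fin_one_eq_zero i
      subst hi
      simp [cst]
    rw [h1, q_single]
    simp
  | succ n ih =>
    intro G hG
    obtain ⟨D, hD, hz⟩ := exists_denom G
    choose z hz using hz
    -- minimal unimodular matrix
    obtain ⟨⟨U, hU⟩, -, hmin⟩ := WellFounded.has_min
      (measure fun U : {U : Matrix (Fin (n + 2)) (Fin (n + 2)) ℤ // IsUnit U.det} =>
        (z (U.1 *ᵥ Pi.single 0 1)).toNat).wf Set.univ ⟨⟨1, by simp⟩, trivial⟩
    have hDq : (0 : ℚ) < D := by exact_mod_cast hD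
    have hcol : ∀ W : Matrix (Fin (n + 2)) (Fin (n + 2)) ℤ, IsUnit W.det →
        0 < q G (cst (W *ᵥ Pi.single 0 1)) := by
      intro W hW
      apply hG.2
      rw [cst_mulVec]
      intro h0
      have hdet : (W.map (Int.cast : ℤ → ℚ)).det ≠ 0 := by
        rw [det_cast]
        exact_mod_cast hW.ne_zero
      have := congrFun (Matrix.eq_zero_of_mulVec_eq_zero hdet h0) 0
      simp [cst] at this
    have hmin' : ∀ W : Matrix (Fin (n + 2)) (Fin (n + 2)) ℤ, IsUnit W.det →
        q G (cst (U *ᵥ Pi.single 0 1)) ≤ q G (cst (W *ᵥ Pi.single 0 1)) := by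
      intro W hW
      have h1 := hmin ⟨W, hW⟩ trivial
      have h2 : ¬ (z (W *ᵥ Pi.single 0 1)).toNat < (z (U *ᵥ Pi.single 0 1)).toNat := h1
      rw [not_lt] at h2
      have h3 : z (U *ᵥ Pi.single 0 1) ≤ z (W *ᵥ Pi.single 0 1) := by
        have h4 : 0 < z (U *ᵥ Pi.single 0 1) := by
          have : (0 : ℚ) < z (U *ᵥ Pi.single 0 1) := by
            rw [← hz]
            exact mul_pos hDq (hcol U hU)
          exact_mod_cast this
        omega
      have h5 : (D : ℚ) * q G (cst (U *ᵥ Pi.single 0 1)) ≤ D * q G (cst (W *ᵥ Pi.single 0 1)) := by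
        rw [hz, hz]
        exact_mod_cast h3
      exact le_of_mul_le_mul_left h5 hDq
    set a := q G (cst (U *ᵥ Pi.single 0 1)) with ha
    have hapos : 0 < a := hcol U hU
    refine ⟨U, hU, ?_⟩
    set G' := bc U G with hG'
    have hPD' : PD G' := PD_bc hU hG
    have h00 : G' 0 0 = a := by
      rw [← q_single G', hG', q_bc, ha, cst_mulVec]
      congr 2
      funext i
      by_cases hi : i = 0
      · subst hi
        simp [cst]
      · simp [cst, hi]
    obtain ⟨V, hV, hs⟩ := ih (schur G') (schur_PD hPD')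
    set v := V *ᵥ (Pi.single 0 1 : Fin (n + 1) → ℤ) with hv
    set s := q (schur G') (cst v) with hs'
    set L := ∑ j, G' 0 j.succ * cst v j with hL
    set t : ℤ := round (-L / a) with ht
    obtain ⟨W, hW, hWc⟩ := exists_col V hV t
    have h6 : a ≤ s + a / 4 := by
      have h7 := hmin' (U * W) (by rw [Matrix.det_mul]; exact hU.mul hW)
      rw [← Matrix.mulVec_mulVec, hWc, cst_mulVec, ← q_bc, ← hG', ← hv] at h7
      have h8 : cst (Fin.cons t v : Fin (n + 2) → ℤ) = Fin.cons (t : ℚ) (cst v) := by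
        funext i
        refine Fin.cases ?_ (fun i => ?_) i <;> simp [cst]
      rw [h8, q_cons hPD'.1 hPD'.pos.ne', h00, ← hs', ← hL] at h7
      have h9 : (a * t + L) ^ 2 / a ≤ a / 4 := by
        rw [div_le_iff₀ hapos]
        have h10 := abs_sub_round (-L / a)
        rw [← ht] at h10
        have h11 : |a * t + L| ≤ a / 2 := by
          have e : a * t + L = -(a * (-L / a - t)) := by
            field_simp
            ring
          rw [e, abs_neg, abs_mul, abs_of_pos hapos]
          calc a * |-L / a - t| ≤ a * (1 / 2) := mul_le_mul_of_nonneg_left h10 hapos.le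
            _ = a / 2 := by ring
        have h12 := sq_le_sq' (by linarith [(abs_le.mp h11).1]) (abs_le.mp h11).2
        calc (a * t + L) ^ 2 ≤ (a / 2) ^ 2 := h12
          _ = a / 4 * a := by ring
      linarith
    have h13 : 3 * a / 4 ≤ s := by linarith
    have h14 : G.det = a * (schur G').det := by
      rw [← det_bc hU G, ← hG', schur_det hPD', h00]
    have h15 : (3 * a / 4) ^ (n + 1) ≤ (4 / 3) ^ (n * (n + 1) / 2) * (schur G').det :=
      (pow_le_pow_left₀ (by positivity) h13 _).trans hs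
    have h16 : (n + 1) * (n + 1 + 1) / 2 = n * (n + 1) / 2 + (n + 1) := by
      have e : (n + 1) * (n + 1 + 1) = n * (n + 1) + (n + 1) * 2 := by ring
      rw [e, Nat.add_mul_div_right _ _ (by norm_num)]
    rw [h16, h14, pow_add (4 / 3 : ℚ)]
    have h17 : a ^ (n + 1 + 1) = a * ((4 / 3) ^ (n + 1) * (3 * a / 4) ^ (n + 1)) := by
      rw [← mul_pow]
      have : (4 / 3 : ℚ) * (3 * a / 4) = a := by ring
      rw [this, pow_succ]
      ring
    rw [h17]
    calc a * ((4 / 3) ^ (n + 1) * (3 * a / 4) ^ (n + 1))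
        ≤ a * ((4 / 3) ^ (n + 1) * ((4 / 3) ^ (n * (n + 1) / 2) * (schur G').det)) := by
          apply mul_le_mul_of_nonneg_left _ hapos.le
          exact mul_le_mul_of_nonneg_left h15 (by positivity)
      _ = (4 / 3) ^ (n * (n + 1) / 2) * (4 / 3) ^ (n + 1) * (a * (schur G').det) := by ring

end Pool.Agent.R451.Hermite
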