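import Pool.Agent.R451.NormOne

/-!
Extension of an orthogonal family of equal-norm integer vectors by one vector.
-/

open Matrix Finset

namespace Pool.Agent.R451.Lat

/-- Householder reflection -/
def refl {n : ℕ} (w x : Fin n → ℚ) : Fin n → ℚ := x - (2 * (x ⬝ᵥ w) / (w ⬝ᵥ w)) • w

lemma refl_dot {n : ℕ} (w x y : Fin n → ℚ) (hw : w ⬝ᵥ w ≠ 0) :
    refl w x ⬝ᵥ refl w y = x ⬝ᵥ y := by
  unfold refl
  rw [sub_dotProduct, dotProduct_sub, dotProduct_sub, smul_dotProduct, smul_dotProduct,
    dotProduct_smul, dotProduct_smul, smul_eq_mul, smul_eq_mul, smul_eq_mul, smul_eq_mul,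
    dotProduct_comm w y]
  field_simp
  ring

/-- Rational extension (Witt) of a `k`-icube to an `n`-icube. -/
lemma rational_ext {n : ℕ} (lam : ℚ) (T₀ : Fin n → Fin n → ℚ)
    (hT₀ : ∀ i j, T₀ i ⬝ᵥ T₀ j = if i = j then lam else 0) :
    ∀ (k : ℕ) (hk : k ≤ n) (A : Fin k → Fin n → ℚ)
      (_ : ∀ i j, A i ⬝ᵥ A j = if i = j then lam else 0),
      ∃ T : Fin n → Fin n → ℚ, (∀ i j, T i ⬝ᵥ T j = if i = j then lam else 0) ∧
        ∀ i : Fin k, T (Fin.castLE hk i) = A i := by
  intro k
  induction k with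
  | zero => intro hk A _; exact ⟨T₀, hT₀, fun i => i.elim0⟩
  | succ k ih =>
    intro hk A hA
    obtain ⟨T, hT, hTA⟩ := ih (by omega) (fun i => A (Fin.castSucc i)) (by
      intro i j
      rw [hA]
      simp)
    set a : Fin n := ⟨k, by omega⟩ with ha
    by_cases hw : T a - A (Fin.last k) = 0
    · refine ⟨T, hT, ?_⟩
      intro i
      refine Fin.lastCases ?_ ?_ i
      · exact sub_eq_zero.mp hw
      · intro i
        exact hTA i
    · set w := T a - A (Fin.last k) with hwdef
      have hww : w ⬝ᵥ w ≠ 0 := fun h => hw (dotProduct_self_eq_zero.mp h)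
      refine ⟨fun i => refl w (T i), ?_, ?_⟩
      · intro i j
        rw [refl_dot w _ _ hww, hT]
      · intro i
        refine Fin.lastCases ?_ ?_ i
        · show refl w (T a) = A (Fin.last k)
          have h1 : T a ⬝ᵥ w = lam - T a ⬝ᵥ A (Fin.last k) := by
            rw [hwdef, dotProduct_sub, hT]
            simp
          have h2 : w ⬝ᵥ w = 2 * (T a ⬝ᵥ w) := by
            rw [h1]
            rw [hwdef, dotProduct_sub, sub_dotProduct, sub_dotProduct, hT, hA,
              dotProduct_comm (A (Fin.last k)) (T a)]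
            simp
            ring
          unfold refl
          rw [← h2, div_self hww, one_smul, hwdef]
          abel
        · intro i
          show refl w (T (Fin.castLE _ (Fin.castSucc i))) = A (Fin.castSucc i)
          have h0 : T (Fin.castLE hk (Fin.castSucc i)) = A (Fin.castSucc i) := hTA i
          have h1 : T (Fin.castLE hk (Fin.castSucc i)) ⬝ᵥ w = 0 := by
            rw [hwdef, dotProduct_sub, hT]
            rw [h0, hA]
            have h2 : Fin.castLE hk (Fin.castSucc i) ≠ a := by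
              intro h
              have := congrArg Fin.val h
              simp [ha] at this
              omega
            have h3 : Fin.castSucc i ≠ Fin.last k := Fin.castSucc_ne_last i
            rw [if_neg h2, if_neg h3]
            ring
          unfold refl
          rw [h1, mul_zero, zero_div, zero_smul, sub_zero]
          exact h0

/-- One-step extension, general form. -/
lemma step_gen {n k r : ℕ} (hn : k + r = n) (hr1 : 1 ≤ r) (hr6 : r ≤ 6) (lam : ℤ) (hlam : 0 < lam)
    (T₀ : Fin n → Fin n → ℚ) (hT₀ : ∀ i j, T₀ i ⬝ᵥ T₀ j = if i = j then (lam : ℚ) else 0)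
    (v : Fin k → Fin n → ℤ) (hv : ∀ i j, v i ⬝ᵥ v j = if i = j then lam else 0) :
    ∃ u : Fin n → ℤ, u ⬝ᵥ u = lam ∧ ∀ i, u ⬝ᵥ v i = 0 := by
  classical
  subst hn
  have hlamq : (lam : ℚ) ≠ 0 := by exact_mod_cast hlam.ne'
  have castdot : ∀ x y : Fin (k + r) → ℤ,
      (fun j => (x j : ℚ)) ⬝ᵥ (fun j => (y j : ℚ)) = ((x ⬝ᵥ y : ℤ) : ℚ) := by
    intro x y
    simp [dotProduct]
  obtain ⟨T, hT, hTA⟩ := rational_ext (lam : ℚ) T₀ hT₀ k (by omega)
    (fun i j => (v i j : ℚ)) (by
      intro i j
      rw [castdot, hv]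
      split_ifs <;> simp)
  have hTA' : ∀ i : Fin k, T (Fin.castAdd r i) = fun j => (v i j : ℚ) := fun i => hTA i
  -- columns are orthogonal too
  have hcol : ∀ i j, ∑ m, T m i * T m j = if i = j then (lam : ℚ) else 0 := by
    have h1 : (Matrix.of T) * ((lam : ℚ)⁻¹ • (Matrix.of T)ᵀ) = 1 := by
      ext i j
      rw [Matrix.mul_smul, Matrix.smul_apply, Matrix.mul_apply]
      have h2 : ∑ m, (Matrix.of T) i m * (Matrix.of T)ᵀ m j = T i ⬝ᵥ T j := rfl
      rw [h2, hT, Matrix.one_apply]
      split_ifs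
      · rw [smul_eq_mul]
        exact inv_mul_cancel₀ hlamq
      · simp
    have h3 := mul_eq_one_comm.mp h1
    intro i j
    have h4 := congrFun (congrFun h3 i) j
    rw [Matrix.smul_mul, Matrix.smul_apply, Matrix.mul_apply, Matrix.one_apply] at h4
    have h5 : ∑ m, (Matrix.of T)ᵀ i m * (Matrix.of T) m j = ∑ m, T m i * T m j := rfl
    rw [h5, smul_eq_mul] at h4
    have h6 : ∑ m, T m i * T m j = (lam : ℚ) * (if i = j then 1 else 0) := by
      rw [← h4, ← mul_assoc, mul_inv_cancel₀ hlamq, one_mul]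
    rw [h6]
    split_ifs <;> simp
  let C : Fin r → Fin (k + r) → ℚ := fun l => T (Fin.natAdd k l)
  let ρ : Fin (k + r) → Fin r → ℚ := fun j l => C l j
  have hρ : ∀ i j, IsZ (ρ i ⬝ᵥ ρ j) := by
    intro i j
    have h1 := hcol i j
    rw [Fin.sum_univ_add] at h1
    have h2 : ρ i ⬝ᵥ ρ j = (if i = j then (lam : ℚ) else 0) -
        ∑ m : Fin k, ((v m i : ℚ) * (v m j : ℚ)) := by
      have h3 : ∑ m : Fin k, T (Fin.castAdd r m) i * T (Fin.castAdd r m) j =
          ∑ m : Fin k, ((v m i : ℚ) * (v m j : ℚ)) := by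
        refine sum_congr rfl fun m _ => ?_
        rw [hTA' m]
      rw [← h1, h3]
      simp only [dotProduct]
      ring
    rw [h2]
    refine IsZ.sub ?_ (IsZ.sum _ _ fun m _ => (IsZ.int _).mul (IsZ.int _))
    split_ifs
    · exact IsZ.int _
    · exact IsZ.zero
  let M : Submodule ℤ (Fin r → ℚ) := Submodule.span ℤ (Set.range ρ)
  have hρM : ∀ j, ρ j ∈ M := fun j => Submodule.subset_span ⟨j, rfl⟩
  have hMI : Integral M := by
    have h1 : ∀ j, ∀ x ∈ M, IsZ (x ⬝ᵥ ρ j) := by
      intro j x hx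
      refine Submodule.span_induction ?_ ?_ ?_ ?_ hx
      · rintro _ ⟨i, rfl⟩
        exact hρ i j
      · rw [zero_dotProduct]
        exact IsZ.zero
      · intro a b _ _ ha hb
        rw [add_dotProduct]
        exact ha.add hb
      · intro c a _ ha
        rw [zsmul_dot]
        exact (IsZ.int c).mul ha
    intro x hx y hy
    refine Submodule.span_induction (p := fun y _ => IsZ (x ⬝ᵥ y)) ?_ ?_ ?_ ?_ hy
    · rintro _ ⟨i, rfl⟩
      exact h1 i x hx
    · rw [dotProduct_zero]
      exact IsZ.zero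
    · intro a b _ _ ha hb
      rw [dotProduct_add]
      exact ha.add hb
    · intro c a _ ha
      rw [dot_zsmul]
      exact (IsZ.int c).mul ha
  have hMF : Full M := by
    intro x
    -- rational coefficients
    let c : Fin (k + r) → ℚ := fun j => (lam : ℚ)⁻¹ * ∑ l, x l * C l j
    have hx : x = ∑ j, c j • ρ j := by
      funext l'
      rw [Finset.sum_apply]
      have h1 : ∀ l, ∑ j, C l j * C l' j = if l = l' then (lam : ℚ) else 0 := by
        intro l
        have h2 := hT (Fin.natAdd k l) (Fin.natAdd k l')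
        have h3 : (Fin.natAdd k l = Fin.natAdd k l') ↔ l = l' := by
          constructor
          · intro h
            exact (Fin.natAdd_injective r k) h
          · rintro rfl
            rfl
        simp only [h3] at h2
        exact h2
      calc x l' = (lam : ℚ)⁻¹ * (x l' * lam) := by field_simp
        _ = (lam : ℚ)⁻¹ * ∑ l, x l * (∑ j, C l j * C l' j) := by
            congr 1
            simp_rw [h1]
            simp
        _ = ∑ j, c j * C l' j := by
            simp only [c, Finset.mul_sum, Finset.sum_mul]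
            rw [Finset.sum_comm]
            refine sum_congr rfl fun j _ => sum_congr rfl fun l _ => ?_
            ring
        _ = ∑ j, (c j • ρ j) l' := rfl
    refine ⟨∏ j, (c j).den, Finset.prod_pos fun j _ => (c j).pos, ?_⟩
    rw [hx, Finset.smul_sum]
    refine Submodule.sum_mem _ fun j _ => ?_
    obtain ⟨d, hd⟩ := Finset.dvd_prod_of_mem (fun j => (c j).den) (mem_univ j)
    have h1 : (((∏ j, (c j).den : ℕ) : ℤ)) • (c j • ρ j) = ((d : ℤ) * (c j).num) • ρ j := by
      rw [← Int.cast_smul_eq_zsmul ℚ, ← Int.cast_smul_eq_zsmul ℚ, smul_smul]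
      congr 1
      rw [hd]
      push_cast
      have h2 : ((c j).den : ℚ) * c j = (c j).num := Rat.den_mul_eq_num (c j)
      calc ((c j).den : ℚ) * (d : ℚ) * c j = (d : ℚ) * (((c j).den : ℚ) * c j) := by ring
        _ = (d : ℚ) * (c j).num := by rw [h2]
    rw [h1]
    exact M.smul_mem _ (hρM j)
  obtain ⟨N, hMN, hNI, hNF, hND⟩ := exists_unimodular M hMI hMF
  obtain ⟨f, hfN, hff⟩ := norm_one hr1 hr6 N hNI hNF hND
  choose u hu using fun j => hNI f hfN (ρ j) (hMN (hρM j))
  have huC : (fun j => (u j : ℚ)) = ∑ l, f l • C l := by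
    funext j
    rw [hu j, Finset.sum_apply]
    rfl
  refine ⟨u, ?_, ?_⟩
  · have h1 : ((u ⬝ᵥ u : ℤ) : ℚ) = lam := by
      rw [← castdot, huC, sum_dotProduct]
      simp_rw [dotProduct_sum, smul_dotProduct, dotProduct_smul]
      have h2 : ∀ l l', C l ⬝ᵥ C l' = if l = l' then (lam : ℚ) else 0 := by
        intro l l'
        have h2 := hT (Fin.natAdd k l) (Fin.natAdd k l')
        have h3 : (Fin.natAdd k l = Fin.natAdd k l') ↔ l = l' := by
          constructor
          · intro h
            exact (Fin.natAdd_injective r k) h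
          · rintro rfl
            rfl
        simp only [h3] at h2
        exact h2
      simp_rw [h2]
      simp only [smul_eq_mul, mul_ite, mul_zero, Finset.sum_ite_eq, Finset.mem_univ, if_true]
      have h3 : ∑ l, f l * (f l * (lam : ℚ)) = (f ⬝ᵥ f) * lam := by
        rw [dotProduct, Finset.sum_mul]
        refine sum_congr rfl fun l _ => ?_
        ring
      rw [h3, hff, one_mul]
    exact_mod_cast h1
  · intro i
    have h1 : ((u ⬝ᵥ v i : ℤ) : ℚ) = 0 := by
      rw [← castdot, huC, sum_dotProduct]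
      refine Finset.sum_eq_zero fun l _ => ?_
      rw [smul_dotProduct, ← hTA' i]
      have h2 : C l ⬝ᵥ T (Fin.castAdd r i) = 0 := by
        show T (Fin.natAdd k l) ⬝ᵥ T (Fin.castAdd r i) = 0
        rw [hT, if_neg]
        intro h
        have := congrArg Fin.val h
        simp at this
        omega
      rw [h2, smul_zero]
    exact_mod_cast h1

/-- A rational (in fact integral) `8`-icube of every positive integer norm. -/
lemma exists_T0 (lam : ℤ) (hlam : 0 < lam) :
    ∃ T₀ : Fin 8 → Fin 8 → ℚ, ∀ i j, T₀ i ⬝ᵥ T₀ j = if i = j then (lam : ℚ) else 0 := by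
  obtain ⟨a, b, c, d, h⟩ := Nat.sum_four_squares lam.toNat
  have h' : (a : ℚ) ^ 2 + (b : ℚ) ^ 2 + (c : ℚ) ^ 2 + (d : ℚ) ^ 2 = lam := by
    have h1 : ((lam.toNat : ℤ) : ℚ) = lam := by rw [Int.toNat_of_nonneg hlam.le]
    rw [← h1, ← h]
    push_cast
    ring
  refine ⟨![![a, b, c, d, 0, 0, 0, 0], ![-b, a, -d, c, 0, 0, 0, 0], ![-c, d, a, -b, 0, 0, 0, 0],
    ![-d, -c, b, a, 0, 0, 0, 0], ![0, 0, 0, 0, a, b, c, d], ![0, 0, 0, 0, -b, a, -d, c],
    ![0, 0, 0, 0, -c, d, a, -b], ![0, 0, 0, 0, -d, -c, b, a]], ?_⟩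
  intro i j
  rw [← h']
  fin_cases i <;> fin_cases j <;> simp [dotProduct, Fin.sum_univ_eight] <;> ring

end Pool.Agent.R451.Lat
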