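import Pool.Agent.R451.MadKey

/-!
The maximum average degree: the graph part.
-/

open Finset

namespace Pool.Agent.R451.Mad

/-- `Mad(G)`: the maximum average degree `2 |E(H)| / |V(H)|` of a subgraph `H` of `G` with at least
one vertex. -/
noncomputable def mad {V : Type} (G : SimpleGraph V) : ℝ :=
  sSup {d : ℝ | ∃ H : G.Subgraph, H.verts.Nonempty ∧
    d = 2 * (H.edgeSet.ncard : ℝ) / (H.verts.ncard : ℝ)}

/-- The clique-type graph `G_{n,x}`: a clique on `x` vertices and `n - x` isolated vertices. -/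
def cliqueType (n x : ℕ) : SimpleGraph (Fin n) where
  Adj i j := i ≠ j ∧ i.val < x ∧ j.val < x
  symm := ⟨fun _ _ h => ⟨h.1.symm, h.2.2, h.2.1⟩⟩
  loopless := ⟨fun _ h => h.1 rfl⟩

open Classical in
/-- the pairs of distinct elements of `S` -/
noncomputable def prs {n : ℕ} (S : Finset (Fin n)) : Finset (Sym2 (Fin n)) :=
  S.offDiag.image fun p => s(p.1, p.2)

/-- the edges of `G` inside `S` -/
noncomputable def eds {n : ℕ} (G : SimpleGraph (Fin n)) (S : Finset (Fin n)) :
    Finset (Sym2 (Fin n)) :=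
  @Finset.filter _ (fun e => e ∈ G.edgeSet) (Classical.decPred _) (prs S)

variable {n : ℕ}

lemma mem_prs {S : Finset (Fin n)} {u v : Fin n} : s(u, v) ∈ prs S ↔ u ∈ S ∧ v ∈ S ∧ u ≠ v := by
  classical
  unfold prs
  rw [mem_image]
  constructor
  · rintro ⟨⟨a, b⟩, hab, h⟩
    rw [mem_offDiag] at hab
    have h' : s(a, b) = s(u, v) := h
    rw [Sym2.eq_iff] at h'
    rcases h' with ⟨rfl, rfl⟩ | ⟨rfl, rfl⟩
    · exact hab
    · exact ⟨hab.2.1, hab.1, hab.2.2.symm⟩
  · intro h
    exact ⟨(u, v), mem_offDiag.mpr h, rfl⟩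

lemma mem_eds {G : SimpleGraph (Fin n)} {S : Finset (Fin n)} {u v : Fin n} :
    s(u, v) ∈ eds G S ↔ (u ∈ S ∧ v ∈ S ∧ u ≠ v) ∧ G.Adj u v := by
  classical
  unfold eds
  rw [@Finset.mem_filter _ _ (Classical.decPred _), mem_prs, SimpleGraph.mem_edgeSet]

lemma eds_subset {G : SimpleGraph (Fin n)} {S : Finset (Fin n)} : eds G S ⊆ prs S := by
  unfold eds
  exact @Finset.filter_subset _ _ (Classical.decPred _) _

lemma two_card_prs (S : Finset (Fin n)) : 2 * (prs S).card = S.card * (S.card - 1) := by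
  classical
  have h : prs S = S.offDiag.image Sym2.mk.uncurry := rfl
  rw [h, Sym2.card_image_offDiag, Nat.choose_two_right, Nat.mul_div_cancel']
  exact (Nat.even_mul_pred_self _).two_dvd

lemma exists_attain (hn : 1 ≤ n) (G : SimpleGraph (Fin n)) : ∃ S : Finset (Fin n), S.Nonempty ∧
    mad G ≤ 2 * ((eds G S).card : ℝ) / (S.card : ℝ) := by
  classical
  set X := {d : ℝ | ∃ H : G.Subgraph, H.verts.Nonempty ∧
    d = 2 * (H.edgeSet.ncard : ℝ) / (H.verts.ncard : ℝ)} with hX
  have hfin : X.Finite := by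
    have : X ⊆ Set.range fun H : G.Subgraph => 2 * (H.edgeSet.ncard : ℝ) / (H.verts.ncard : ℝ) := by
      rintro d ⟨H, _, rfl⟩
      exact ⟨H, rfl⟩
    exact (Set.finite_range _).subset this
  have hne : X.Nonempty := ⟨_, ⊤, ⟨⟨0, by omega⟩, trivial⟩, rfl⟩
  obtain ⟨H, hH, hd⟩ := hne.csSup_mem hfin
  refine ⟨H.verts.toFinset, ?_, ?_⟩
  · obtain ⟨v, hv⟩ := hH
    exact ⟨v, by rw [Set.mem_toFinset]; exact hv⟩
  · show sSup X ≤ _
    rw [hd]
    have h1 : H.verts.ncard = H.verts.toFinset.card := by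
      rw [Set.ncard_eq_toFinset_card']
    have h2 : H.edgeSet.ncard ≤ (eds G H.verts.toFinset).card := by
      rw [← Set.ncard_coe_finset]
      refine Set.ncard_le_ncard ?_ (Finset.finite_toSet _)
      intro e he
      induction e with
      | _ u v =>
        rw [SimpleGraph.Subgraph.mem_edgeSet] at he
        rw [Finset.mem_coe, mem_eds, Set.mem_toFinset, Set.mem_toFinset]
        exact ⟨⟨he.fst_mem, he.snd_mem, he.adj_sub.ne⟩, he.adj_sub⟩
    rw [h1]
    have h2' : (H.edgeSet.ncard : ℝ) ≤ ((eds G H.verts.toFinset).card : ℝ) := by exact_mod_cast h2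
    gcongr

lemma le_Mad (G : SimpleGraph (Fin n)) (S : Finset (Fin n)) (hS : S.Nonempty) :
    2 * ((eds G S).card : ℝ) / (S.card : ℝ) ≤ mad G := by
  classical
  set X := {d : ℝ | ∃ H : G.Subgraph, H.verts.Nonempty ∧
    d = 2 * (H.edgeSet.ncard : ℝ) / (H.verts.ncard : ℝ)} with hX
  have hfin : X.Finite := by
    have : X ⊆ Set.range fun H : G.Subgraph => 2 * (H.edgeSet.ncard : ℝ) / (H.verts.ncard : ℝ) := by
      rintro d ⟨H, _, rfl⟩
      exact ⟨H, rfl⟩
    exact (Set.finite_range _).subset this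
  refine le_csSup hfin.bddAbove ⟨(⊤ : G.Subgraph).induce S, hS, ?_⟩
  have h1 : ((⊤ : G.Subgraph).induce (S : Set (Fin n))).verts.ncard = S.card := by
    rw [SimpleGraph.Subgraph.induce_verts, Set.ncard_coe_finset]
  have h2 : ((⊤ : G.Subgraph).induce (S : Set (Fin n))).edgeSet = (eds G S : Set (Sym2 (Fin n))) := by
    ext e
    induction e with
    | _ u v =>
      rw [SimpleGraph.Subgraph.mem_edgeSet, SimpleGraph.Subgraph.induce_adj]
      simp only [Finset.mem_coe, SimpleGraph.Subgraph.top_adj, mem_eds]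
      constructor
      · rintro ⟨h1, h2, h3⟩
        exact ⟨⟨h1, h2, h3.ne⟩, h3⟩
      · rintro ⟨⟨h1, h2, _⟩, h3⟩
        exact ⟨h1, h2, h3⟩
  rw [h1, h2, Set.ncard_coe_finset]

/-- the edges of `G` in `A` and those of the complement in `B` -/
lemma count (G : SimpleGraph (Fin n)) (A B : Finset (Fin n)) :
    2 * ((eds G A).card + (eds Gᶜ B).card) + (A ∩ B).card * ((A ∩ B).card - 1) ≤
      A.card * (A.card - 1) + B.card * (B.card - 1) := by
  classical
  rw [← two_card_prs, ← two_card_prs, ← two_card_prs]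
  have h1 : Disjoint (eds G A) (eds Gᶜ B) := by
    rw [Finset.disjoint_left]
    intro e he he'
    induction e with
    | _ u v =>
      rw [mem_eds] at he he'
      exact he'.2.2 he.2
  have h2 : eds G A ∪ eds Gᶜ B ⊆ prs A ∪ prs B :=
    Finset.union_subset_union eds_subset eds_subset
  have h3 := Finset.card_le_card h2
  rw [Finset.card_union_of_disjoint h1] at h3
  have h4 : prs A ∩ prs B = prs (A ∩ B) := by
    ext e
    induction e with
    | _ u v =>
      rw [mem_inter, mem_prs, mem_prs, mem_prs, mem_inter, mem_inter]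
      tauto
  have h5 := Finset.card_union_add_card_inter (prs A) (prs B)
  rw [h4] at h5
  omega

lemma count' (G : SimpleGraph (Fin n)) (A B : Finset (Fin n)) (h : n ≤ A.card + B.card) :
    2 * ((eds G A).card + (eds Gᶜ B).card) + 2 * ((n - A.card) * (n - B.card)) ≤ n * (n - 1) := by
  have h1 := count G A B
  have hA : A.card ≤ n := by simpa using Finset.card_le_univ A
  have hB : B.card ≤ n := by simpa using Finset.card_le_univ B
  have hU : (A ∪ B).card ≤ n := by simpa using Finset.card_le_univ (A ∪ B)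
  have hUI := Finset.card_union_add_card_inter A B
  have hc : A.card + B.card ≤ n + (A ∩ B).card := by omega
  revert h1 hA hB hc h
  generalize (eds G A).card + (eds Gᶜ B).card = E
  generalize A.card = a
  generalize B.card = b
  generalize (A ∩ B).card = c
  intro h h1 hA hB hc
  obtain ⟨u, rfl⟩ := Nat.exists_eq_add_of_le hA
  obtain ⟨v, hv⟩ := Nat.exists_eq_add_of_le hB
  -- `n = a + u = b + v`
  have e1 : a + u - a = u := by omega
  have e2 : a + u - b = v := by omega
  rw [e1, e2]
  obtain ⟨c0, hc0⟩ : ∃ c0, a + b = (a + u) + c0 := Nat.exists_eq_add_of_le h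
  have hcc : c0 ≤ c := by omega
  obtain ⟨d, rfl⟩ := Nat.exists_eq_add_of_le hcc
  have hb : b = c0 + u := by omega
  have ha : a = c0 + v := by omega
  subst hb
  subst ha
  -- cast to integers
  have f : ∀ m : ℕ, ((m * (m - 1) : ℕ) : ℤ) = (m : ℤ) * ((m : ℤ) - 1) := by
    intro m
    rcases m with _ | m
    · simp
    · push_cast
      simp
  have h1' : ((2 * E + (c0 + d) * (c0 + d - 1) : ℕ) : ℤ) ≤
      (((c0 + v) * (c0 + v - 1) + (c0 + u) * (c0 + u - 1) : ℕ) : ℤ) := by exact_mod_cast h1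
  rw [Nat.cast_add, Nat.cast_add, f, f, f] at h1'
  have goal : ((2 * E + 2 * (u * v) : ℕ) : ℤ) ≤ (((c0 + v + u) * (c0 + v + u - 1) : ℕ) : ℤ) := by
    rw [f]
    push_cast at h1' ⊢
    have hd : 0 ≤ (d : ℤ) * (2 * c0 + d - 1) := by
      rcases Nat.eq_zero_or_pos d with h | h
      · subst h
        simp
      · apply mul_nonneg (by positivity)
        have : (1 : ℤ) ≤ d := by exact_mod_cast h
        have : (0 : ℤ) ≤ c0 := by positivity
        linarith
    nlinarith
  exact_mod_cast goal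

/-- **Upper bound.** -/
theorem mad_mul_le (hn : 1 ≤ n) (G : SimpleGraph (Fin n)) : mad G * mad Gᶜ ≤ g n (xs n) := by
  obtain ⟨A, hA, hA'⟩ := exists_attain hn G
  obtain ⟨B, hB, hB'⟩ := exists_attain hn Gᶜ
  have hMad : ∀ G : SimpleGraph (Fin n), 0 ≤ mad G := fun G => by
    refine le_trans ?_ (le_Mad G univ ⟨⟨0, by omega⟩, mem_univ _⟩)
    positivity
  have h1 : mad G * mad Gᶜ ≤ (2 * ((eds G A).card : ℝ) / (A.card : ℝ)) *
      (2 * ((eds Gᶜ B).card : ℝ) / (B.card : ℝ)) :=
    mul_le_mul hA' hB' (hMad _) (by positivity)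
  refine h1.trans ?_
  have hAn : A.card ≤ n := by simpa using Finset.card_le_univ A
  have hBn : B.card ≤ n := by simpa using Finset.card_le_univ B
  have hA1 : 1 ≤ A.card := hA.card_pos
  have hB1 : 1 ≤ B.card := hB.card_pos
  have hP : 2 * (eds G A).card ≤ A.card * (A.card - 1) := by
    rw [← two_card_prs]
    exact Nat.mul_le_mul_left _ (Finset.card_le_card eds_subset)
  have hQ : 2 * (eds Gᶜ B).card ≤ B.card * (B.card - 1) := by
    rw [← two_card_prs]
    exact Nat.mul_le_mul_left _ (Finset.card_le_card eds_subset)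
  have hT := count' G A B
  rcases le_total A.card B.card with hab | hab
  · exact key n _ _ _ _ hn hA1 hab hBn hP hQ hT
  · rw [mul_comm]
    refine key n _ _ _ _ hn hB1 hab hAn hQ hP ?_
    intro h
    have := hT (by omega)
    rw [mul_comm (n - B.card), add_comm (eds Gᶜ B).card]
    exact this

lemma xs_le (hn : 1 ≤ n) : xs n ≤ n := by
  by_contra hcon
  push Not at hcon
  have h1 := (lt_xs_iff n n hn).mp hcon
  have h2 : n - 1 < 3 * n - 1 := by omega
  have h3 := Nat.mul_lt_mul_of_pos_left h2 (by omega : 0 < n)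
  omega

/-- **Lower bound.** -/
theorem le_mad_cliqueType (x : ℕ) (hx : 1 ≤ x) (hxn : x ≤ n) :
    g n x ≤ mad (cliqueType n x) * mad (cliqueType n x)ᶜ := by
  classical
  have hn : 1 ≤ n := hx.trans hxn
  set G := cliqueType n x with hG
  set S : Finset (Fin n) := univ.filter fun i => i.val < x with hS
  have hSc : S.card = x := by
    rw [hS, Fin.card_filter_val_lt, min_eq_right hxn]
  have hSne : S.Nonempty := by
    rw [← Finset.card_pos, hSc]
    omega
  have h1 : eds G S = prs S := by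
    refine Finset.Subset.antisymm eds_subset ?_
    intro e he
    induction e with
    | _ u v =>
      rw [mem_prs] at he
      rw [mem_eds]
      refine ⟨he, ?_⟩
      rw [hS, mem_filter, mem_filter] at he
      exact ⟨he.2.2, he.1.2, he.2.1.2⟩
  have h2 : eds Gᶜ univ = prs univ \ prs S := by
    ext e
    induction e with
    | _ u v =>
      rw [mem_eds, mem_sdiff, mem_prs, mem_prs, SimpleGraph.compl_adj, hS, mem_filter, mem_filter]
      show _ ∧ (u ≠ v ∧ ¬ (u ≠ v ∧ u.val < x ∧ v.val < x)) ↔ _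
      simp only [mem_univ, true_and]
      tauto
  have hsub : prs S ⊆ prs univ := by
    intro e he
    induction e with
    | _ u v =>
      rw [mem_prs] at he ⊢
      exact ⟨mem_univ _, mem_univ _, he.2.2⟩
  have hcS := two_card_prs S
  have hcU := two_card_prs (univ : Finset (Fin n))
  rw [hSc] at hcS
  rw [card_univ, Fintype.card_fin] at hcU
  have f : ∀ m : ℕ, ((m * (m - 1) : ℕ) : ℝ) = (m : ℝ) * ((m : ℝ) - 1) := by
    intro m
    rcases m with _ | m
    · simp
    · push_cast
      simp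
  have hcS' : 2 * ((prs S).card : ℝ) = x * (x - 1) := by
    rw [← f, ← hcS]
    push_cast
    ring
  have hcU' : 2 * ((prs (univ : Finset (Fin n))).card : ℝ) = n * (n - 1) := by
    rw [← f, ← hcU]
    push_cast
    ring
  have hxR : (0 : ℝ) < x := by exact_mod_cast hx
  have hnR : (0 : ℝ) < n := by exact_mod_cast hn
  have m1 : (x : ℝ) - 1 ≤ mad G := by
    have := le_Mad G S hSne
    rw [h1, hSc, hcS'] at this
    have e : (x : ℝ) * (x - 1) / x = x - 1 := by field_simp
    rwa [e] at this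
  have m2 : ((n : ℝ) * (n - 1) - x * (x - 1)) / n ≤ mad Gᶜ := by
    have := le_Mad Gᶜ univ ⟨⟨0, by omega⟩, mem_univ _⟩
    rw [h2, Finset.card_sdiff_of_subset hsub, card_univ, Fintype.card_fin,
      Nat.cast_sub (Finset.card_le_card hsub), mul_sub, hcS', hcU'] at this
    exact this
  unfold g
  rw [mul_div_assoc]
  refine mul_le_mul m1 m2 ?_ ?_
  · apply div_nonneg _ hnR.le
    have : (x : ℝ) ≤ n := by exact_mod_cast hxn
    have : (1 : ℝ) ≤ x := by exact_mod_cast hx
    nlinarith
  · refine le_trans ?_ m1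
    have : (1 : ℝ) ≤ x := by exact_mod_cast hx
    linarith

end Pool.Agent.R451.Mad
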