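import Mathlib

/-!
The numerical part of the Nordhaus-Gaddum problem for the maximum average degree.
-/

namespace Pool.Agent.R451.Mad

/-- `g(x) = (x - 1) (n (n - 1) - x (x - 1)) / n` -/
noncomputable def g (n x : ℝ) : ℝ := (x - 1) * (n * (n - 1) - x * (x - 1)) / n

/-- the optimal `x` -/
def xs (n : ℕ) : ℕ := (1 + Nat.sqrt (12 * n * (n - 1) + 1)) / 6 + 1

lemma lt_xs_iff (n x : ℕ) (hx : 1 ≤ x) : x < xs n ↔ x * (3 * x - 1) ≤ n * (n - 1) := by
  unfold xs
  rw [Nat.lt_succ_iff, Nat.le_div_iff_mul_le (by norm_num)]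
  have h1 : x * 6 ≤ 1 + Nat.sqrt (12 * n * (n - 1) + 1) ↔
      6 * x - 1 ≤ Nat.sqrt (12 * n * (n - 1) + 1) := by omega
  rw [h1, Nat.le_sqrt]
  obtain ⟨y, rfl⟩ : ∃ y, x = y + 1 := ⟨x - 1, by omega⟩
  have h2 : 6 * (y + 1) - 1 = 6 * y + 5 := by omega
  have h3 : 3 * (y + 1) - 1 = 3 * y + 2 := by omega
  rw [h2, h3]
  generalize n - 1 = m
  constructor
  · intro h
    nlinarith
  · intro h
    nlinarith

lemma g_step (n : ℕ) (hn : 1 ≤ n) (x : ℕ) (hx : 1 ≤ x) (h : x * (3 * x - 1) ≤ n * (n - 1)) :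
    g n x ≤ g n (x + 1 : ℕ) := by
  have hn' : (0 : ℝ) < n := by exact_mod_cast hn
  unfold g
  rw [div_le_div_iff_of_pos_right hn']
  obtain ⟨y, rfl⟩ : ∃ y, x = y + 1 := ⟨x - 1, by omega⟩
  obtain ⟨m, rfl⟩ : ∃ m, n = m + 1 := ⟨n - 1, by omega⟩
  have h3 : 3 * (y + 1) - 1 = 3 * y + 2 := by omega
  rw [h3, Nat.add_sub_cancel] at h
  have h' : ((y : ℝ) + 1) * (3 * y + 2) ≤ (m + 1) * m := by exact_mod_cast h
  push_cast
  nlinarith

lemma g_step' (n : ℕ) (hn : 1 ≤ n) (x : ℕ) (hx : 1 ≤ x) (h : n * (n - 1) < x * (3 * x - 1)) :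
    g n (x + 1 : ℕ) ≤ g n x := by
  have hn' : (0 : ℝ) < n := by exact_mod_cast hn
  unfold g
  rw [div_le_div_iff_of_pos_right hn']
  obtain ⟨y, rfl⟩ : ∃ y, x = y + 1 := ⟨x - 1, by omega⟩
  obtain ⟨m, rfl⟩ : ∃ m, n = m + 1 := ⟨n - 1, by omega⟩
  have h3 : 3 * (y + 1) - 1 = 3 * y + 2 := by omega
  rw [h3, Nat.add_sub_cancel] at h
  have h' : ((m : ℝ) + 1) * m ≤ (y + 1) * (3 * y + 2) := by exact_mod_cast h.le
  push_cast
  nlinarith

/-- `xs n` maximizes `g n` -/
lemma g_le_xs (n : ℕ) (hn : 1 ≤ n) (x : ℕ) (hx : 1 ≤ x) : g n x ≤ g n (xs n) := by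
  have hxs : 1 ≤ xs n := by unfold xs; omega
  rcases le_or_gt x (xs n) with h | h
  · -- increasing part
    obtain ⟨k, hk⟩ := Nat.exists_eq_add_of_le h
    have key : ∀ k, x + k ≤ xs n → g n x ≤ g n (x + k : ℕ) := by
      intro k
      induction k with
      | zero => intro _; exact le_refl _
      | succ k ih =>
        intro hk
        refine (ih (by omega)).trans ?_
        exact g_step n hn (x + k) (by omega) ((lt_xs_iff n (x + k) (by omega)).mp (by omega))
    rw [hk]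
    exact key k (by omega)
  · -- decreasing part
    obtain ⟨k, hk⟩ := Nat.exists_eq_add_of_le h.le
    have key : ∀ k, g n (xs n + k : ℕ) ≤ g n (xs n) := by
      intro k
      induction k with
      | zero => exact le_refl _
      | succ k ih =>
        refine le_trans ?_ ih
        refine g_step' n hn (xs n + k) (by omega) ?_
        have := (lt_xs_iff n (xs n + k) (by omega)).not.mp (by omega)
        omega
    rw [hk]
    exact key k

/-- Lower bound for the maximum of `g`. -/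
lemma le_g_xs (n : ℕ) (hn : n = 6 ∨ 8 ≤ n) : 9 / 25 * ((n : ℝ) - 1) ^ 2 ≤ g n (xs n) := by
  have hn1 : 1 ≤ n := by omega
  have hn' : (0 : ℝ) < n := by exact_mod_cast hn1
  rcases Nat.even_or_odd' n with ⟨k, hk | hk⟩
  · -- `n = 2 k`, `x = k + 1`
    refine le_trans ?_ (g_le_xs n hn1 (k + 1) (by omega))
    unfold g
    rw [le_div_iff₀ hn']
    have hk3 : (3 : ℝ) ≤ k := by exact_mod_cast (by omega : 3 ≤ k)
    rw [hk]
    push_cast
    nlinarith [mul_nonneg (mul_nonneg (by linarith : (0 : ℝ) ≤ k) (by linarith : (0 : ℝ) ≤ k - 3))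
      (by linarith : (0 : ℝ) ≤ k + 2)]
  · -- `n = 2 k + 1`, `x = k + 1`
    refine le_trans ?_ (g_le_xs n hn1 (k + 1) (by omega))
    unfold g
    rw [le_div_iff₀ hn']
    have hk4 : (4 : ℝ) ≤ k := by exact_mod_cast (by omega : 4 ≤ k)
    rw [hk]
    push_cast
    nlinarith [mul_nonneg (mul_nonneg (by linarith : (0 : ℝ) ≤ k) (by linarith : (0 : ℝ) ≤ k))
      (by linarith : (0 : ℝ) ≤ k - 4)]

/-- concavity -/
lemma concave_aux (c s T0 b0 b1 b : ℝ) (h0 : b0 ≤ b) (h1 : b ≤ b1)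
    (e0 : T0 ^ 2 ≤ c * b0) (e1 : (T0 + s * (b1 - b0)) ^ 2 ≤ c * b1) :
    (T0 + s * (b - b0)) ^ 2 ≤ c * b := by
  rcases eq_or_lt_of_le (h0.trans h1) with h | h
  · have : b = b0 := le_antisymm (by rw [h]; exact h1) h0
    rw [this]
    simpa using e0
  · have hpos : 0 < b1 - b0 := by linarith
    have key : (b1 - b0) * (c * b - (T0 + s * (b - b0)) ^ 2) =
        (b1 - b) * (c * b0 - T0 ^ 2) + (b - b0) * (c * b1 - (T0 + s * (b1 - b0)) ^ 2) +
        s ^ 2 * (b - b0) * (b1 - b) * (b1 - b0) := by ring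
    have h2 : 0 ≤ (b1 - b0) * (c * b - (T0 + s * (b - b0)) ^ 2) := by
      rw [key]
      have t1 : 0 ≤ (b1 - b) * (c * b0 - T0 ^ 2) := mul_nonneg (by linarith) (by linarith)
      have t2 : 0 ≤ (b - b0) * (c * b1 - (T0 + s * (b1 - b0)) ^ 2) :=
        mul_nonneg (by linarith) (by linarith)
      have t3 : 0 ≤ s ^ 2 * (b - b0) * (b1 - b) * (b1 - b0) :=
        mul_nonneg (mul_nonneg (mul_nonneg (sq_nonneg _) (by linarith)) (by linarith)) hpos.le
      linarith
    have h3 := nonneg_of_mul_nonneg_right h2 hpos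
    linarith

lemma quartic (p N : ℝ) : 0 ≤ 25 * p ^ 4 - 25 * p ^ 3 * N + 9 * p ^ 2 * N ^ 2 - 9 * p * N ^ 3 +
    9 / 2 * N ^ 4 := by
  nlinarith [sq_nonneg (5 * p ^ 2 - 5 / 2 * p * N - 61 / 100 * N ^ 2),
    sq_nonneg (N * (p - 68 / 100 * N)), sq_nonneg (N * p), sq_nonneg (N * N)]

lemma cubic (p N : ℝ) (hp : 0 ≤ p) (hN : 0 ≤ N) : p ^ 2 * (N - p) ≤ 9 / 50 * N ^ 3 := by
  have h1 : 0 ≤ (3 * p - 2 * N) ^ 2 * (3 * p + N) := mul_nonneg (sq_nonneg _) (by positivity)
  have h2 : 0 ≤ N ^ 3 := by positivity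
  nlinarith

set_option maxHeartbeats 2000000 in
/-- The main inequality of case 2. -/
lemma case_two (n a b T : ℝ) (hn : 1 ≤ n) (ha : 1 ≤ a) (hab : a ≤ b) (hbn : b ≤ n)
    (hT : T = n * (n - 1) / 2 - (n - a) * (n - b)) (hT0 : 0 ≤ T) (h : T ≤ a * (a - 1)) :
    T ^ 2 ≤ 9 / 25 * (n - 1) ^ 2 * (a * b) := by
  have hc : 9 / 25 * (n - 1) ^ 2 * (a * b) = (9 / 25 * (n - 1) ^ 2 * a) * b := by ring
  rw [hc]
  set c := 9 / 25 * (n - 1) ^ 2 * a with hcdef
  have hc0 : 0 ≤ c := by positivity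
  set s := n - a with hs
  have hs0 : 0 ≤ s := by linarith
  set Ta := n * (n - 1) / 2 - s ^ 2 with hTa
  have hTb : T = Ta + s * (b - a) := by
    rw [hT, hTa, hs]
    ring
  -- upper end point
  obtain ⟨b1, hb1, e1⟩ : ∃ b1, b ≤ b1 ∧ (Ta + s * (b1 - a)) ^ 2 ≤ c * b1 := by
    by_cases hcase : n * (n - 1) / 2 ≤ a * (a - 1)
    · refine ⟨n, hbn, ?_⟩
      have e : Ta + s * (n - a) = n * (n - 1) / 2 := by
        rw [hTa, hs]
        ring
      rw [e, hcdef]
      have ha' : 25 / 36 * n ≤ a := by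
        by_contra hcon
        push Not at hcon
        nlinarith
      have hN : 0 ≤ (n - 1) ^ 2 * n := by positivity
      nlinarith [mul_le_mul_of_nonneg_left ha' hN]
    · push Not at hcase
      -- `s > 0`
      have hspos : 0 < s := by
        rcases hs0.lt_or_eq with h1 | h1
        · exact h1
        · exfalso
          have : a = n := by linarith
          rw [this] at hcase
          nlinarith
      refine ⟨a + (a * (a - 1) - Ta) / s, ?_, ?_⟩
      · have : (b - a) ≤ (a * (a - 1) - Ta) / s := by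
          rw [le_div_iff₀ hspos]
          nlinarith
        linarith
      · have e : Ta + s * (a + (a * (a - 1) - Ta) / s - a) = a * (a - 1) := by
          field_simp
          ring
        rw [e]
        have e2 : c * (a + (a * (a - 1) - Ta) / s) = c * (a * s + (a * (a - 1) - Ta)) / s := by
          field_simp
        rw [e2, le_div_iff₀ hspos]
        -- substitute `p = a - 1`, `N = n - 1`
        obtain ⟨p, hp⟩ : ∃ p, a = p + 1 := ⟨a - 1, by ring⟩
        obtain ⟨N, hN⟩ : ∃ N, n = N + 1 := ⟨n - 1, by ring⟩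
        have hp0 : 0 ≤ p := by linarith
        have hN0 : 0 ≤ N := by linarith
        have hs' : s = N - p := by rw [hs, hp, hN]; ring
        have e3 : a * s + (a * (a - 1) - Ta) = p ^ 2 - N * p + N * (N + 1) / 2 := by
          rw [hTa, hs', hp, hN]
          ring
        rw [e3, hcdef, hs', hp, hN]
        have q1 := quartic p N
        have q2 := cubic p N hp0 hN0
        have q3 : 0 ≤ (p + 1) * ((9 / 25 * N ^ 2 * (p ^ 2 - N * p + N * (N + 1) / 2)) -
            (p + 1) * p ^ 2 * (N - p)) := by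
          refine mul_nonneg (by linarith) ?_
          nlinarith
        nlinarith
  -- lower end point
  have ha2 : Ta ≤ 3 / 5 * (n - 1) * a := by
    rw [hTa, hs]
    nlinarith [sq_nonneg (a - (7 / 10 * n + 3 / 10)), mul_nonneg (by linarith : 0 ≤ n - 1)
      (by linarith : 0 ≤ n + 9)]
  by_cases hneg : 0 ≤ Ta
  · have e0 : Ta ^ 2 ≤ c * a := by
      rw [hcdef]
      have h1 : 0 ≤ 3 / 5 * (n - 1) * a := by
        have : 0 ≤ n - 1 := by linarith
        positivity
      have h2 : Ta ^ 2 ≤ (3 / 5 * (n - 1) * a) ^ 2 := by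
        apply pow_le_pow_left₀ hneg ha2
      linarith [h2, (by ring : (3 / 5 * (n - 1) * a) ^ 2 = 9 / 25 * (n - 1) ^ 2 * a * a)]
    rw [hTb]
    exact concave_aux c s Ta a b1 b hab hb1 e0 e1
  · push Not at hneg
    have hspos : 0 < s := by
      rcases hs0.lt_or_eq with h1 | h1
      · exact h1
      · exfalso
        rw [hTa, ← h1] at hneg
        have h2 : 0 ≤ n * (n - 1) := mul_nonneg (by linarith) (by linarith)
        linarith
    -- `b0 = a - Ta / s`
    have e4 : Ta + s * (b - a) = 0 + s * (b - (a - Ta / s)) := by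
      field_simp
      ring
    have hb0 : a - Ta / s ≤ b := by
      rw [hTb] at hT0
      have h2 : a - b ≤ Ta / s := by
        rw [le_div_iff₀ hspos]
        linarith
      linarith
    have hb0' : 0 ≤ a - Ta / s := by
      have : Ta / s ≤ 0 := div_nonpos_of_nonpos_of_nonneg hneg.le hs0
      linarith
    rw [hTb, e4]
    refine concave_aux c s 0 (a - Ta / s) b1 b hb0 hb1 ?_ ?_
    · have : 0 ≤ c * (a - Ta / s) := mul_nonneg hc0 hb0'
      simpa using this
    · have e5 : (0 : ℝ) + s * (b1 - (a - Ta / s)) = Ta + s * (b1 - a) := by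
        field_simp
        ring
      rw [e5]
      exact e1

end Pool.Agent.R451.Mad
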