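import Pool.Agent.R451.MadIneq

/-!
The numerical part, continued.
-/

namespace Pool.Agent.R451.Mad

lemma g_small {n : ℕ} {v : ℝ} (hn : 1 ≤ n) (x : ℕ) (hx : 1 ≤ x) (h : v ≤ g n x) : v ≤ g n (xs n) :=
  h.trans (g_le_xs n hn x hx)

lemma small_fin : ∀ n : Fin 8, 3 ≤ n.val → n.val ≠ 6 → ∀ a b : Fin 8, 1 ≤ a.val → a.val ≤ b.val →
    b.val ≤ n.val → ((n.val : ℤ) * (n.val - 1) - 2 * (n.val - a.val) * (n.val - b.val)) <
      2 * (a.val * (a.val - 1)) →
    0 ≤ ((n.val : ℤ) * (n.val - 1) - 2 * (n.val - a.val) * (n.val - b.val)) →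
    ∃ x : Fin 8, 1 ≤ x.val ∧ ((n.val : ℤ) * (n.val - 1) - 2 * (n.val - a.val) * (n.val - b.val)) ^ 2 *
      n.val ≤ 4 * a.val * b.val * ((x.val - 1) * (n.val * (n.val - 1) - x.val * (x.val - 1))) := by
  decide

lemma small_int (n a b : ℕ) (h3 : 3 ≤ n) (h7 : n ≤ 7) (h6 : n ≠ 6) (ha : 1 ≤ a) (hab : a ≤ b)
    (hbn : b ≤ n) (hc : ((n : ℤ) * (n - 1) - 2 * (n - a) * (n - b)) < 2 * (a * (a - 1)))
    (hT : 0 ≤ ((n : ℤ) * (n - 1) - 2 * (n - a) * (n - b))) :
    ∃ x : ℕ, 1 ≤ x ∧ ((n : ℤ) * (n - 1) - 2 * (n - a) * (n - b)) ^ 2 * n ≤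
      4 * a * b * ((x - 1) * (n * (n - 1) - x * (x - 1))) := by
  obtain ⟨x, hx1, hx⟩ := small_fin ⟨n, by omega⟩ h3 h6 ⟨a, by omega⟩ ⟨b, by omega⟩ ha hab hbn hc hT
  exact ⟨x.val, hx1, hx⟩

set_option maxHeartbeats 4000000 in
/-- The numerical inequality. -/
theorem key (n a b P Q : ℕ) (hn : 1 ≤ n) (ha : 1 ≤ a) (hab : a ≤ b) (hbn : b ≤ n)
    (hP : 2 * P ≤ a * (a - 1)) (hQ : 2 * Q ≤ b * (b - 1))
    (hT : n ≤ a + b → 2 * (P + Q) + 2 * ((n - a) * (n - b)) ≤ n * (n - 1)) :
    (2 * (P : ℝ) / a) * (2 * (Q : ℝ) / b) ≤ g n (xs n) := by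
  have hnR : (1 : ℝ) ≤ n := by exact_mod_cast hn
  have haR : (1 : ℝ) ≤ a := by exact_mod_cast ha
  have habR : (a : ℝ) ≤ b := by exact_mod_cast hab
  have hbnR : (b : ℝ) ≤ n := by exact_mod_cast hbn
  have hP0 : (0 : ℝ) ≤ P := Nat.cast_nonneg _
  have hQ0 : (0 : ℝ) ≤ Q := Nat.cast_nonneg _
  have hPR : 2 * (P : ℝ) ≤ a * (a - 1) := by
    have h1 : ((2 * P : ℕ) : ℝ) ≤ ((a * (a - 1) : ℕ) : ℝ) := by exact_mod_cast hP
    rw [Nat.cast_mul, Nat.cast_mul, Nat.cast_sub ha] at h1
    exact_mod_cast h1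
  have hQR : 2 * (Q : ℝ) ≤ b * (b - 1) := by
    have h1 : ((2 * Q : ℕ) : ℝ) ≤ ((b * (b - 1) : ℕ) : ℝ) := by exact_mod_cast hQ
    rw [Nat.cast_mul, Nat.cast_mul, Nat.cast_sub (by omega)] at h1
    exact_mod_cast h1
  have hapos : (0 : ℝ) < a := by linarith
  have hbpos : (0 : ℝ) < b := by linarith
  have hnpos : (0 : ℝ) < n := by linarith
  have e0 : (2 * (P : ℝ) / a) * (2 * (Q : ℝ) / b) = 4 * (P * Q) / (a * b) := by
    field_simp
    ring
  rw [e0]
  rcases Nat.lt_or_ge (a + b) n with hlt | hge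
  · -- `a + b < n`
    refine le_trans ?_ (g_le_xs n hn a ha)
    unfold g
    have hltR : (b : ℝ) ≤ n - a - 1 := by
      have : ((a + b + 1 : ℕ) : ℝ) ≤ (n : ℝ) := by exact_mod_cast hlt
      push_cast at this
      linarith
    have h1 : 4 * ((P : ℝ) * Q) / (a * b) ≤ (a - 1) * (b - 1) := by
      rw [div_le_iff₀ (by positivity)]
      have h2 : (2 * (P : ℝ)) * (2 * Q) ≤ (a * (a - 1)) * (b * (b - 1)) :=
        mul_le_mul hPR hQR (by positivity) (mul_nonneg hapos.le (by linarith))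
      nlinarith
    refine h1.trans ?_
    rw [le_div_iff₀ hnpos, mul_assoc]
    apply mul_le_mul_of_nonneg_left _ (by linarith)
    nlinarith
  · -- `n ≤ a + b`
    set T : ℝ := (n : ℝ) * (n - 1) / 2 - (n - a) * (n - b) with hTdef
    have hPQ : (P : ℝ) + Q ≤ T := by
      have h1 := hT hge
      have h2 : ((2 * (P + Q) + 2 * ((n - a) * (n - b)) : ℕ) : ℝ) ≤ ((n * (n - 1) : ℕ) : ℝ) := by
        exact_mod_cast h1
      push_cast [Nat.cast_sub hbn, Nat.cast_sub (hab.trans hbn), Nat.cast_sub hn] at h2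
      rw [hTdef]
      linarith
    have hT0 : 0 ≤ T := by linarith
    rcases le_or_gt ((a : ℝ) * (a - 1)) T with hc | hc
    · -- case 1
      refine le_trans ?_ (g_le_xs n hn a ha)
      unfold g
      have h1 : (P : ℝ) * Q ≤ (a * (a - 1) / 2) * (T - a * (a - 1) / 2) := by
        have h2 : (P : ℝ) * Q ≤ P * (T - P) := mul_le_mul_of_nonneg_left (by linarith) hP0
        have h3 : 0 ≤ ((a : ℝ) * (a - 1) / 2 - P) * (T - a * (a - 1) / 2 - P) :=
          mul_nonneg (by linarith) (by linarith)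
        nlinarith
      rw [div_le_div_iff₀ (by positivity) hnpos]
      have h4 : (n : ℝ) * (n * (n - 1) - a * (a - 1) - 2 * ((n - a) * (n - b))) ≤
          b * (n * (n - 1) - a * (a - 1)) := by
        have h5 : 0 ≤ ((n : ℝ) - b) * (n - a) * (n - a + 1) :=
          mul_nonneg (mul_nonneg (by linarith) (by linarith)) (by linarith)
        nlinarith
      have h6 : 4 * ((P : ℝ) * Q) ≤ (a * (a - 1)) *
          (n * (n - 1) - a * (a - 1) - 2 * ((n - a) * (n - b))) := by
        rw [hTdef] at h1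
        nlinarith
      have h7 : 0 ≤ (a : ℝ) * (a - 1) := mul_nonneg hapos.le (by linarith)
      calc 4 * ((P : ℝ) * Q) * n ≤ (a * (a - 1)) *
          (n * (n - 1) - a * (a - 1) - 2 * ((n - a) * (n - b))) * n :=
            mul_le_mul_of_nonneg_right h6 hnpos.le
        _ = (a * (a - 1)) * (n * (n * (n - 1) - a * (a - 1) - 2 * ((n - a) * (n - b)))) := by ring
        _ ≤ (a * (a - 1)) * (b * (n * (n - 1) - a * (a - 1))) :=
            mul_le_mul_of_nonneg_left h4 h7
        _ = (a - 1) * (n * (n - 1) - a * (a - 1)) * (a * b) := by ring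
    · -- case 2
      have h1 : 4 * ((P : ℝ) * Q) ≤ T ^ 2 := by nlinarith [sq_nonneg ((P : ℝ) - Q)]
      have h2 : 4 * ((P : ℝ) * Q) / (a * b) ≤ T ^ 2 / (a * b) :=
        div_le_div_of_nonneg_right h1 (by positivity)
      by_cases hbig : n = 6 ∨ 8 ≤ n
      · refine h2.trans (le_trans ?_ (le_g_xs n hbig))
        rw [div_le_iff₀ (by positivity)]
        exact case_two n a b T hnR haR habR hbnR hTdef hT0 hc.le
      · -- small cases
        have hn8 : n ≤ 7 := by omega
        have hn6 : n ≠ 6 := by omega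
        rcases Nat.lt_or_ge n 3 with hn3 | hn3
        · -- `n ≤ 2`
          have hPQ0 : (P : ℝ) * Q = 0 := by
            have hT1 : T ≤ 1 := by
              rw [hTdef]
              have : (n : ℝ) ≤ 2 := by exact_mod_cast (by omega : n ≤ 2)
              have h3 : 0 ≤ ((n : ℝ) - a) * (n - b) :=
                mul_nonneg (by linarith) (by linarith)
              nlinarith
            have hPQ1 : P + Q ≤ 1 := by
              have : ((P + Q : ℕ) : ℝ) ≤ 1 := by push_cast; linarith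
              exact_mod_cast this
            rcases Nat.eq_zero_or_pos P with h | h
            · simp [h]
            · have : Q = 0 := by omega
              simp [this]
          rw [hPQ0]
          simp only [mul_zero, zero_div]
          refine g_small hn 1 le_rfl ?_
          unfold g
          simp
        · refine h2.trans ?_
          have hT2 : T = ((n : ℤ) * (n - 1) - 2 * (n - a) * (n - b) : ℤ) / 2 := by
            rw [hTdef]
            push_cast
            ring
          have hc2 : ((n : ℤ) * (n - 1) - 2 * (n - a) * (n - b)) < 2 * (a * (a - 1)) := by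
            have h3 : (((n : ℤ) * (n - 1) - 2 * (n - a) * (n - b) : ℤ) : ℝ) <
                ((2 * ((a : ℤ) * (a - 1)) : ℤ) : ℝ) := by
              rw [hTdef] at hc
              push_cast
              linarith
            exact_mod_cast h3
          have hT02 : 0 ≤ ((n : ℤ) * (n - 1) - 2 * (n - a) * (n - b)) := by
            have h3 : (0 : ℝ) ≤ (((n : ℤ) * (n - 1) - 2 * (n - a) * (n - b) : ℤ) : ℝ) := by
              rw [hTdef] at hT0
              push_cast
              linarith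
            exact_mod_cast h3
          obtain ⟨x, hx1, hx⟩ := small_int n a b hn3 hn8 hn6 ha hab hbn hc2 hT02
          refine g_small hn x hx1 ?_
          unfold g
          rw [div_le_div_iff₀ (by positivity) hnpos, hT2]
          have hx' : (((((n : ℤ) * (n - 1) - 2 * (n - a) * (n - b)) ^ 2 * n : ℤ)) : ℝ) ≤
              ((4 * a * b * ((x - 1) * (n * (n - 1) - x * (x - 1))) : ℤ) : ℝ) := by exact_mod_cast hx
          push_cast at hx' ⊢
          nlinarith

end Pool.Agent.R451.Mad
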