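import Mathlib

/-!
Integral lattices in `ℚ^r` with the standard dot product: every one of full rank is contained in a
unimodular one.
-/

open Matrix Finset

namespace Pool.Agent.R451.Lat

variable {r : ℕ}

/-- a rational number is an integer -/
def IsZ (x : ℚ) : Prop := ∃ z : ℤ, (z : ℚ) = x

lemma IsZ.add {x y : ℚ} (hx : IsZ x) (hy : IsZ y) : IsZ (x + y) := by
  obtain ⟨a, rfl⟩ := hx
  obtain ⟨b, rfl⟩ := hy
  exact ⟨a + b, by push_cast; ring⟩

lemma IsZ.sub {x y : ℚ} (hx : IsZ x) (hy : IsZ y) : IsZ (x - y) := by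
  obtain ⟨a, rfl⟩ := hx
  obtain ⟨b, rfl⟩ := hy
  exact ⟨a - b, by push_cast; ring⟩

lemma IsZ.mul {x y : ℚ} (hx : IsZ x) (hy : IsZ y) : IsZ (x * y) := by
  obtain ⟨a, rfl⟩ := hx
  obtain ⟨b, rfl⟩ := hy
  exact ⟨a * b, by push_cast; ring⟩

lemma IsZ.int (z : ℤ) : IsZ (z : ℚ) := ⟨z, rfl⟩

lemma IsZ.zero : IsZ 0 := ⟨0, by norm_num⟩

lemma IsZ.sum {ι : Type*} (s : Finset ι) (f : ι → ℚ) (h : ∀ i ∈ s, IsZ (f i)) :
    IsZ (∑ i ∈ s, f i) := by
  classical
  induction s using Finset.induction_on with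
  | empty => simpa using IsZ.zero
  | insert a s ha ih =>
    rw [Finset.sum_insert ha]
    exact (h a (mem_insert_self _ _)).add (ih fun i hi => h i (mem_insert_of_mem hi))

lemma zsmul_dot (c : ℤ) (x y : Fin r → ℚ) : (c • x) ⬝ᵥ y = (c : ℚ) * (x ⬝ᵥ y) := by
  rw [← Int.cast_smul_eq_zsmul ℚ, smul_dotProduct, smul_eq_mul]

lemma dot_zsmul (c : ℤ) (x y : Fin r → ℚ) : x ⬝ᵥ (c • y) = (c : ℚ) * (x ⬝ᵥ y) := by
  rw [dotProduct_comm, zsmul_dot, dotProduct_comm]

/-- all dot products of elements are integers -/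
def Integral (N : Submodule ℤ (Fin r → ℚ)) : Prop := ∀ x ∈ N, ∀ y ∈ N, IsZ (x ⬝ᵥ y)

/-- every vector has a positive multiple in the lattice -/
def Full (N : Submodule ℤ (Fin r → ℚ)) : Prop := ∀ x : Fin r → ℚ, ∃ m : ℕ, 0 < m ∧ (m : ℤ) • x ∈ N

/-- the dual lattice -/
def dual (N : Submodule ℤ (Fin r → ℚ)) : Submodule ℤ (Fin r → ℚ) where
  carrier := {x | ∀ y ∈ N, IsZ (x ⬝ᵥ y)}
  add_mem' := by
    intro a b ha hb y hy
    rw [add_dotProduct]
    exact (ha y hy).add (hb y hy)
  zero_mem' := by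
    intro y _
    rw [zero_dotProduct]
    exact IsZ.zero
  smul_mem' := by
    intro c x hx y hy
    rw [zsmul_dot]
    exact (IsZ.int c).mul (hx y hy)

lemma mem_dual {N : Submodule ℤ (Fin r → ℚ)} {x : Fin r → ℚ} :
    x ∈ dual N ↔ ∀ y ∈ N, IsZ (x ⬝ᵥ y) := Iff.rfl

/-- no new vector of integral norm in the dual -/
def Aniso (N : Submodule ℤ (Fin r → ℚ)) : Prop := ∀ x ∈ dual N, IsZ (x ⬝ᵥ x) → x ∈ N

lemma exists_aniso (M : Submodule ℤ (Fin r → ℚ)) (hM : Integral M) :
    ∃ N : Submodule ℤ (Fin r → ℚ), M ≤ N ∧ Integral N ∧ Aniso N := by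
  obtain ⟨N, hMN, hmax⟩ := zorn_le_nonempty₀ {N : Submodule ℤ (Fin r → ℚ) | Integral N} (by
    intro c hc hchain y hy
    refine ⟨sSup c, ?_, fun z hz => le_sSup hz⟩
    intro a ha b hb
    rw [Submodule.mem_sSup_of_directed ⟨y, hy⟩ hchain.directedOn] at ha hb
    obtain ⟨A, hA, haA⟩ := ha
    obtain ⟨B, hB, hbB⟩ := hb
    rcases hchain.total hA hB with h | h
    · exact hc hB a (h haA) b hbB
    · exact hc hA a haA b (h hbB)) M hM
  refine ⟨N, hMN, hmax.prop, ?_⟩
  intro x hx hxx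
  have h1 : Integral (N ⊔ Submodule.span ℤ {x}) := by
    intro a ha b hb
    rw [Submodule.mem_sup] at ha hb
    obtain ⟨a1, ha1, a2, ha2, rfl⟩ := ha
    obtain ⟨b1, hb1, b2, hb2, rfl⟩ := hb
    obtain ⟨c, rfl⟩ := Submodule.mem_span_singleton.mp ha2
    obtain ⟨d, rfl⟩ := Submodule.mem_span_singleton.mp hb2
    have e : (a1 + c • x) ⬝ᵥ (b1 + d • x) =
        a1 ⬝ᵥ b1 + (c : ℚ) * (x ⬝ᵥ b1) + (d : ℚ) * (x ⬝ᵥ a1) + (c : ℚ) * ((d : ℚ) * (x ⬝ᵥ x)) := by
      rw [add_dotProduct, dotProduct_add, dotProduct_add, zsmul_dot, zsmul_dot, dot_zsmul,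
        dot_zsmul, dotProduct_comm a1 x]
      ring
    rw [e]
    exact (((hmax.prop a1 ha1 b1 hb1).add ((IsZ.int c).mul (hx b1 hb1))).add
      ((IsZ.int d).mul (hx a1 ha1))).add ((IsZ.int c).mul ((IsZ.int d).mul hxx))
  have h2 := hmax.le_of_ge h1 le_sup_left
  exact h2 (Submodule.mem_sup_right (Submodule.mem_span_singleton_self x))

/-- the standard lattice -/
def E (r : ℕ) : Submodule ℤ (Fin r → ℚ) where
  carrier := {x | ∀ i, IsZ (x i)}
  add_mem' := fun ha hb i => (ha i).add (hb i)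
  zero_mem' := fun _ => IsZ.zero
  smul_mem' := by
    intro c x hx i
    rw [← Int.cast_smul_eq_zsmul ℚ]
    exact (IsZ.int c).mul (hx i)

lemma mem_E {x : Fin r → ℚ} : x ∈ E r ↔ ∀ i, IsZ (x i) := Iff.rfl

lemma E_integral : Integral (E r) := by
  intro x hx y hy
  exact IsZ.sum _ _ fun i _ => (hx i).mul (hy i)

lemma E_dual : dual (E r) ≤ E r := by
  intro x hx i
  have h := hx (Pi.single i 1) (by
    intro j
    by_cases h : j = i
    · subst h
      simpa using (IsZ.int 1)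
    · simpa [h] using IsZ.zero)
  simpa using h

/-- scaling map `x ↦ D x` restricted to integer vectors gives a Noetherian lattice -/
lemma noeth_of_le (D : ℕ) (hD : 0 < D) (N : Submodule ℤ (Fin r → ℚ))
    (h : ∀ x ∈ N, ∀ i, IsZ ((D : ℚ) * x i)) : IsNoetherian ℤ N := by
  have hDq : (D : ℚ) ≠ 0 := by exact_mod_cast hD.ne'
  choose f hf using h
  let φ : N →ₗ[ℤ] (Fin r → ℤ) :=
    { toFun := fun x i => f x.1 x.2 i
      map_add' := by
        intro x y
        funext i
        have h1 := hf (x + y : N).1 (x + y : N).2 i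
        have h2 := hf x.1 x.2 i
        have h3 := hf y.1 y.2 i
        have : ((f (x + y : N).1 (x + y : N).2 i : ℤ) : ℚ) = ((f x.1 x.2 i + f y.1 y.2 i : ℤ) : ℚ) := by
          rw [h1]
          push_cast
          rw [h2, h3]
          simp [mul_add]
        exact_mod_cast this
      map_smul' := by
        intro c x
        funext i
        have h1 := hf (c • x : N).1 (c • x : N).2 i
        have h2 := hf x.1 x.2 i
        have : ((f (c • x : N).1 (c • x : N).2 i : ℤ) : ℚ) = ((c * f x.1 x.2 i : ℤ) : ℚ) := by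
          rw [h1]
          push_cast
          rw [h2]
          simp
          ring
        exact_mod_cast this }
  refine isNoetherian_of_injective φ ?_
  intro x y hxy
  apply Subtype.ext
  funext i
  have h1 := hf x.1 x.2 i
  have h2 := hf y.1 y.2 i
  have h3 : f x.1 x.2 i = f y.1 y.2 i := congrFun hxy i
  rw [h3] at h1
  exact mul_left_cancel₀ hDq (h1.symm.trans h2)

instance : IsNoetherian ℤ (E r) :=
  noeth_of_le 1 one_pos (E r) fun x hx i => by simpa using hx i

/-- choice of a multiplier: if `p` is prime, `i` not divisible by `p`, any `j` is `c i` mod `p` -/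
lemma exists_mul {p : ℕ} (hp : p.Prime) {i : ℤ} (hi : ¬ (p : ℤ) ∣ i) (j : ℤ) :
    ∃ c : ℤ, (p : ℤ) ∣ j - c * i := by
  have h1 : IsCoprime (p : ℤ) i :=
    (Int.prime_iff_natAbs_prime.mpr (by simpa using hp)).coprime_iff_not_dvd.mpr hi
  obtain ⟨a, b, hab⟩ := h1
  refine ⟨j * b, j * a, ?_⟩
  have : j - j * b * i = j * (a * p + b * i) - j * b * i := by rw [hab]; ring
  rw [this]
  ring

/-- **Neighbour step and induction**: an integral anisotropic lattice of full rank is unimodular. -/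
theorem dual_le (N : Submodule ℤ (Fin r → ℚ)) (hI : Integral N) (hF : Full N) (hA : Aniso N) :
    dual N ≤ N := by
  classical
  -- well-founded induction on `N ∩ E`
  have main : ∀ K : Submodule ℤ (E r), ∀ N : Submodule ℤ (Fin r → ℚ), K = N.comap (E r).subtype →
      Integral N → Full N → Aniso N → dual N ≤ N := by
    intro K
    induction K using WellFoundedGT.induction with
    | ind K ih =>
    intro N hK hI hF hA
    by_cases hEN : E r ≤ N
    · intro x hx
      apply hEN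
      apply E_dual
      intro y hy
      exact hx y (hEN hy)
    rw [SetLike.not_le_iff_exists] at hEN
    obtain ⟨x0, hx0, hx0N⟩ := hEN
    -- a vector of prime order modulo N
    obtain ⟨x, hxE, hxN, p, hp, hpx⟩ : ∃ x ∈ E r, x ∉ N ∧ ∃ p : ℕ, p.Prime ∧ (p : ℤ) • x ∈ N := by
      have hex := hF x0
      set m := Nat.find hex with hm
      obtain ⟨hm0, hmN⟩ := Nat.find_spec hex
      rw [← hm] at hm0 hmN
      have hm1 : m ≠ 1 := by
        intro h
        apply hx0N
        rw [h] at hmN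
        simpa using hmN
      obtain ⟨p, hp, k, hk⟩ := Nat.exists_prime_and_dvd hm1
      have hk0 : 0 < k := by
        rcases Nat.eq_zero_or_pos k with h | h
        · rw [h] at hk; omega
        · exact h
      have hkm : k < m := by
        rw [hk]
        have := hp.two_le
        nlinarith
      refine ⟨(k : ℤ) • x0, Submodule.smul_mem _ _ hx0, ?_, p, hp, ?_⟩
      · intro h
        exact Nat.find_min hex hkm ⟨hk0, h⟩
      · rw [smul_smul]
        have : (p : ℤ) * k = (m : ℤ) := by rw [hk]; push_cast; ring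
        rw [this]
        exact hmN
    have hpq : (p : ℚ) ≠ 0 := by exact_mod_cast hp.ne_zero
    have hxx : IsZ (x ⬝ᵥ x) := E_integral x hxE x hxE
    -- dot products with x are in (1/p) Z
    have hpdot : ∀ y ∈ N, ∃ j : ℤ, x ⬝ᵥ y = (j : ℚ) / p := by
      intro y hy
      obtain ⟨j, hj⟩ := hI _ hpx y hy
      rw [zsmul_dot] at hj
      refine ⟨j, ?_⟩
      rw [hj]
      push_cast
      field_simp
    have hdiv : ∀ j : ℤ, (p : ℤ) ∣ j → IsZ ((j : ℚ) / p) := by
      rintro j ⟨k, rfl⟩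
      refine ⟨k, ?_⟩
      push_cast
      field_simp
    have hdiv' : ∀ j : ℤ, IsZ ((j : ℚ) / p) → (p : ℤ) ∣ j := by
      rintro j ⟨k, hk⟩
      refine ⟨k, ?_⟩
      have : (j : ℚ) = ((p * k : ℤ) : ℚ) := by
        push_cast
        rw [hk]
        field_simp
      exact_mod_cast this
    obtain ⟨z, hz, hxz⟩ : ∃ z ∈ N, ¬ IsZ (x ⬝ᵥ z) := by
      by_contra hcon
      push Not at hcon
      exact hxN (hA x hcon hxx)
    obtain ⟨i, hi⟩ := hpdot z hz
    have hpi : ¬ (p : ℤ) ∣ i := by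
      intro h
      apply hxz
      rw [hi]
      exact hdiv i h
    -- the sublattice
    let Nx : Submodule ℤ (Fin r → ℚ) :=
      { carrier := {y | y ∈ N ∧ IsZ (x ⬝ᵥ y)}
        add_mem' := by
          rintro a b ⟨ha, ha'⟩ ⟨hb, hb'⟩
          refine ⟨N.add_mem ha hb, ?_⟩
          rw [dotProduct_add]
          exact ha'.add hb'
        zero_mem' := ⟨N.zero_mem, by rw [dotProduct_zero]; exact IsZ.zero⟩
        smul_mem' := by
          rintro c y ⟨hy, hy'⟩
          refine ⟨N.smul_mem c hy, ?_⟩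
          rw [dot_zsmul]
          exact (IsZ.int c).mul hy' }
    have memNx : ∀ y, y ∈ Nx ↔ y ∈ N ∧ IsZ (x ⬝ᵥ y) := fun y => Iff.rfl
    let N' : Submodule ℤ (Fin r → ℚ) := Nx ⊔ Submodule.span ℤ {x}
    have memN' : ∀ y, y ∈ N' ↔ ∃ a ∈ Nx, ∃ c : ℤ, a + c • x = y := by
      intro y
      show y ∈ Nx ⊔ Submodule.span ℤ {x} ↔ _
      rw [Submodule.mem_sup]
      constructor
      · rintro ⟨a, ha, b, hb, rfl⟩
        obtain ⟨c, rfl⟩ := Submodule.mem_span_singleton.mp hb
        exact ⟨a, ha, c, rfl⟩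
      · rintro ⟨a, ha, c, rfl⟩
        exact ⟨a, ha, c • x, Submodule.mem_span_singleton.mpr ⟨c, rfl⟩, rfl⟩
    have hxN' : x ∈ N' := (memN' x).mpr ⟨0, Nx.zero_mem, 1, by simp⟩
    have hNxN' : Nx ≤ N' := le_sup_left
    have hpxNx : (p : ℤ) • x ∈ Nx := by
      refine ⟨hpx, ?_⟩
      rw [dot_zsmul]
      exact (IsZ.int p).mul hxx
    have hI' : Integral N' := by
      intro a ha b hb
      obtain ⟨a1, ha1, c, rfl⟩ := (memN' a).mp ha
      obtain ⟨b1, hb1, d, rfl⟩ := (memN' b).mp hb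
      have e : (a1 + c • x) ⬝ᵥ (b1 + d • x) =
          a1 ⬝ᵥ b1 + (c : ℚ) * (x ⬝ᵥ b1) + (d : ℚ) * (x ⬝ᵥ a1) +
            (c : ℚ) * ((d : ℚ) * (x ⬝ᵥ x)) := by
        rw [add_dotProduct, dotProduct_add, dotProduct_add, zsmul_dot, zsmul_dot, dot_zsmul,
          dot_zsmul, dotProduct_comm a1 x]
        ring
      rw [e]
      exact (((hI a1 ha1.1 b1 hb1.1).add ((IsZ.int c).mul hb1.2)).add
        ((IsZ.int d).mul ha1.2)).add ((IsZ.int c).mul ((IsZ.int d).mul hxx))
    have hF' : Full N' := by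
      intro v
      obtain ⟨m, hm, hmv⟩ := hF v
      refine ⟨p * m, Nat.mul_pos hp.pos hm, ?_⟩
      apply hNxN'
      have e : ((p * m : ℕ) : ℤ) • v = (p : ℤ) • ((m : ℤ) • v) := by
        rw [smul_smul]; push_cast; rfl
      rw [e]
      refine ⟨N.smul_mem _ hmv, ?_⟩
      obtain ⟨j, hj⟩ := hpdot _ hmv
      rw [dot_zsmul, hj]
      refine ⟨j, ?_⟩
      push_cast
      field_simp
    -- decomposition modulo Nx
    have hdecomp : ∀ n ∈ N, ∃ e : ℤ, n - e • z ∈ Nx := by
      intro n hn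
      obtain ⟨k, hk⟩ := hpdot n hn
      obtain ⟨c, hc⟩ := exists_mul hp hpi k
      refine ⟨c, N.sub_mem hn (N.smul_mem c hz), ?_⟩
      rw [dotProduct_sub, dot_zsmul, hk, hi]
      have : (k : ℚ) / p - c * (i / p) = ((k - c * i : ℤ) : ℚ) / p := by push_cast; ring
      rw [this]
      exact hdiv _ hc
    have hpz : (p : ℤ) • z ∈ Nx := by
      refine ⟨N.smul_mem _ hz, ?_⟩
      rw [dot_zsmul, hi]
      refine ⟨i, ?_⟩
      push_cast
      field_simp
    have hA' : Aniso N' := by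
      intro y hy hyy
      -- write y = u + c x
      obtain ⟨j, hj⟩ : ∃ j : ℤ, y ⬝ᵥ z = (j : ℚ) / p := by
        obtain ⟨j, hj⟩ := hy _ (hNxN' hpz)
        rw [dot_zsmul] at hj
        refine ⟨j, ?_⟩
        rw [hj]
        push_cast
        field_simp
      obtain ⟨c, hc⟩ := exists_mul hp hpi j
      have huN : y - c • x ∈ dual N := by
        intro n hn
        obtain ⟨e, he⟩ := hdecomp n hn
        have h1 : IsZ ((y - c • x) ⬝ᵥ (n - e • z)) := by
          rw [sub_dotProduct, zsmul_dot]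
          exact (hy _ (hNxN' he)).sub ((IsZ.int c).mul he.2)
        have h2 : IsZ ((y - c • x) ⬝ᵥ z) := by
          rw [sub_dotProduct, zsmul_dot, hj, hi]
          have : (j : ℚ) / p - c * (i / p) = ((j - c * i : ℤ) : ℚ) / p := by push_cast; ring
          rw [this]
          exact hdiv _ hc
        have h3 : (y - c • x) ⬝ᵥ n = (y - c • x) ⬝ᵥ (n - e • z) + e * ((y - c • x) ⬝ᵥ z) := by
          rw [dotProduct_sub, dot_zsmul]
          ring
        rw [h3]
        exact h1.add ((IsZ.int e).mul h2)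
      have hyx : IsZ (y ⬝ᵥ x) := hy x hxN'
      have huu : IsZ ((y - c • x) ⬝ᵥ (y - c • x)) := by
        have e : (y - c • x) ⬝ᵥ (y - c • x) =
            y ⬝ᵥ y - (c : ℚ) * (y ⬝ᵥ x) - ((c : ℚ) * (y ⬝ᵥ x) - (c : ℚ) * ((c : ℚ) * (x ⬝ᵥ x))) := by
          rw [sub_dotProduct, dotProduct_sub, dotProduct_sub, zsmul_dot, zsmul_dot, dot_zsmul,
            dot_zsmul, dotProduct_comm x y]
        rw [e]
        exact (hyy.sub ((IsZ.int c).mul hyx)).sub
          (((IsZ.int c).mul hyx).sub ((IsZ.int c).mul ((IsZ.int c).mul hxx)))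
      have huN2 : y - c • x ∈ N := hA _ huN huu
      have hux : IsZ (x ⬝ᵥ (y - c • x)) := by
        rw [dotProduct_sub, dot_zsmul, dotProduct_comm x y]
        exact hyx.sub ((IsZ.int c).mul hxx)
      exact (memN' y).mpr ⟨y - c • x, ⟨huN2, hux⟩, c, by abel⟩
    -- the intersection with E grows
    have hlt : K < N'.comap (E r).subtype := by
      rw [hK]
      refine lt_of_le_of_ne ?_ ?_
      · intro y hy
        rw [Submodule.mem_comap] at hy ⊢
        exact hNxN' ⟨hy, E_integral x hxE y.1 y.2⟩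
      · intro h
        have h1 : (⟨x, hxE⟩ : E r) ∈ N'.comap (E r).subtype := hxN'
        rw [← h] at h1
        exact hxN h1
    have hIH := ih _ hlt N' rfl hI' hF' hA'
    -- conclude
    intro y hy
    obtain ⟨j, hj⟩ : ∃ j : ℤ, y ⬝ᵥ x = (j : ℚ) / p := by
      obtain ⟨j, hj⟩ := hy _ hpx
      rw [dot_zsmul] at hj
      refine ⟨j, ?_⟩
      rw [hj]
      push_cast
      field_simp
    obtain ⟨c, hc⟩ := exists_mul hp hpi j
    have h1 : y - c • z ∈ dual N' := by
      intro w hw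
      obtain ⟨a, ha, e, rfl⟩ := (memN' w).mp hw
      have h2 : IsZ ((y - c • z) ⬝ᵥ a) := by
        rw [sub_dotProduct, zsmul_dot]
        exact (hy a ha.1).sub ((IsZ.int c).mul (hI z hz a ha.1))
      have h3 : IsZ ((y - c • z) ⬝ᵥ x) := by
        rw [sub_dotProduct, zsmul_dot, hj, dotProduct_comm z x, hi]
        have : (j : ℚ) / p - c * (i / p) = ((j - c * i : ℤ) : ℚ) / p := by push_cast; ring
        rw [this]
        exact hdiv _ hc
      rw [dotProduct_add, dot_zsmul]
      exact h2.add ((IsZ.int e).mul h3)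
    obtain ⟨m, hm, e, hme⟩ := (memN' _).mp (hIH h1)
    have hyeq : y = c • z + m + e • x := by
      have : y = (y - c • z) + c • z := by abel
      calc y = (y - c • z) + c • z := this
        _ = (m + e • x) + c • z := by rw [hme]
        _ = c • z + m + e • x := by abel
    have hyz : IsZ (y ⬝ᵥ z) := hy z hz
    have hez : IsZ ((e : ℚ) * (x ⬝ᵥ z)) := by
      have h4 : (e : ℚ) * (x ⬝ᵥ z) = y ⬝ᵥ z - (c : ℚ) * (z ⬝ᵥ z) - m ⬝ᵥ z := by
        rw [hyeq, add_dotProduct, add_dotProduct, zsmul_dot, zsmul_dot]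
        ring
      rw [h4]
      exact (hyz.sub ((IsZ.int c).mul (hI z hz z hz))).sub (hI m hm.1 z hz)
    have hpe : (p : ℤ) ∣ e := by
      rw [hi] at hez
      have : (e : ℚ) * (i / p) = ((e * i : ℤ) : ℚ) / p := by push_cast; ring
      rw [this] at hez
      have h5 := hdiv' _ hez
      rcases (Int.prime_iff_natAbs_prime.mpr (by simpa using hp) : Prime (p : ℤ)).dvd_or_dvd h5
        with h | h
      · exact h
      · exact absurd h hpi
    obtain ⟨e', rfl⟩ := hpe
    rw [hyeq]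
    refine N.add_mem (N.add_mem (N.smul_mem c hz) hm.1) ?_
    rw [mul_comm, mul_smul]
    exact N.smul_mem e' hpx
  exact main _ N rfl hI hF hA

/-- **Every integral lattice of full rank in `ℚ^r` lies in a unimodular one.** -/
theorem exists_unimodular (M : Submodule ℤ (Fin r → ℚ)) (hM : Integral M) (hF : Full M) :
    ∃ N : Submodule ℤ (Fin r → ℚ), M ≤ N ∧ Integral N ∧ Full N ∧ dual N ≤ N := by
  obtain ⟨N, hMN, hI, hA⟩ := exists_aniso M hM
  have hF' : Full N := fun x => by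
    obtain ⟨m, hm, h⟩ := hF x
    exact ⟨m, hm, hMN h⟩
  exact ⟨N, hMN, hI, hF', dual_le N hI hF' hA⟩

end Pool.Agent.R451.Lat
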