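import Mathlib

set_option autoImplicit false

namespace Pool.Agent.R451.MinOr

open Relation

variable {V : Type*}

/-- `q 0, ..., q (n - 1)` is a walk of the relation `E`. -/
def Ch (E : V → V → Prop) (n : ℕ) (q : ℕ → V) : Prop := ∀ i, i + 1 < n → E (q i) (q (i + 1))

theorem Ch.mono {E : V → V → Prop} {n m : ℕ} {q : ℕ → V} (h : Ch E n q) (hm : m ≤ n) :
    Ch E m q := fun i hi => h i (by omega)

theorem Ch.shift {E : V → V → Prop} {n a : ℕ} {q : ℕ → V} (h : Ch E (n + a) q) :
    Ch E n (fun i => q (a + i)) := fun i hi => by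
  have := h (a + i) (by omega)
  simpa [add_assoc] using this

theorem Ch.append {E : V → V → Prop} {a b : ℕ} {q r : ℕ → V} (hq : Ch E (a + 1) q)
    (hr : Ch E (b + 1) r) (h : q a = r 0) :
    Ch E (a + b + 1) (fun i => if i ≤ a then q i else r (i - a)) := by
  intro i hi
  by_cases h1 : i + 1 ≤ a
  · have h2 : i ≤ a := by omega
    simp only [h1, h2, if_true]
    exact hq i (by omega)
  · by_cases h2 : i ≤ a
    · have h3 : i = a := by omega
      subst h3
      simp only [h1, le_refl, if_true, if_false]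
      have h4 : i + 1 - i = 0 + 1 := by omega
      rw [h4, h]
      exact hr 0 (by omega)
    · simp only [h1, h2, if_false]
      have h4 : i + 1 - a = (i - a) + 1 := by omega
      rw [h4]
      exact hr (i - a) (by omega)

/-- An abstract levelled situation obtained from a relation with exactly one walk on `k`
vertices. -/
structure Lev (G : SimpleGraph V) (k : ℕ) (p : ℕ → V) (α β : V → ℕ) : Prop where
  le : ∀ v, α v ≤ β v
  lt : ∀ v, β v < k
  mono : ∀ u v, G.Adj u v → (α u < α v ∧ β u < β v) ∨ (α v < α u ∧ β v < β u)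
  eq : ∀ v, α v = β v → v = p (α v)
  pα : ∀ i, i < k → α (p i) = i
  pβ : ∀ i, i < k → β (p i) = i
  adj : ∀ i, i + 1 < k → G.Adj (p i) (p (i + 1))

section Levels

open Classical in
/-- Existence of the levels. -/
theorem exists_lev {G : SimpleGraph V} {k : ℕ} (hk : 1 ≤ k) {E : V → V → Prop}
    (h1 : ∀ u v, E u v → G.Adj u v) (h2 : ∀ u v, G.Adj u v → E u v ∨ E v u) {p : ℕ → V}
    (hp : Ch E k p) (hu : ∀ q, Ch E k q → ∀ i, i < k → q i = p i) :
    ∃ α β : V → ℕ, Lev G k p α β := by
  -- no walk with `k + 1` vertices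
  have hno : ∀ q, ¬ Ch E (k + 1) q := by
    intro q hq
    have e1 := hu q (hq.mono (by omega)) 0 (by omega)
    have e2 := hu (fun i => q (1 + i)) (Ch.shift (n := k) (a := 1) hq) 0 (by omega)
    have e3 := h1 _ _ (hq 0 (by omega))
    simp only [add_zero, zero_add] at e2 e3
    rw [e1, e2] at e3
    exact G.loopless.irrefl _ e3
  let U : ℕ → V → Prop := fun n v => ∃ q, Ch E (n + 1) q ∧ q n = v
  let W : ℕ → V → Prop := fun n v => ∃ q, Ch E (n + 1) q ∧ q 0 = v
  have hU : ∀ n v, U n v → n ≤ k - 1 := by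
    rintro n v ⟨q, hq, -⟩
    by_contra hc
    exact hno q (hq.mono (by omega))
  have hW : ∀ n v, W n v → n ≤ k - 1 := by
    rintro n v ⟨q, hq, -⟩
    by_contra hc
    exact hno q (hq.mono (by omega))
  have U0 : ∀ v, U 0 v := fun v => ⟨fun _ => v, fun i hi => by omega, rfl⟩
  have W0 : ∀ v, W 0 v := fun v => ⟨fun _ => v, fun i hi => by omega, rfl⟩
  let α : V → ℕ := fun v => Nat.findGreatest (fun n => U n v) (k - 1)
  let ω : V → ℕ := fun v => Nat.findGreatest (fun n => W n v) (k - 1)
  have hα : ∀ v, U (α v) v := fun v =>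
    Nat.findGreatest_spec (P := fun n => U n v) (Nat.zero_le (k - 1)) (U0 v)
  have hω : ∀ v, W (ω v) v := fun v =>
    Nat.findGreatest_spec (P := fun n => W n v) (Nat.zero_le (k - 1)) (W0 v)
  have leα : ∀ n v, U n v → n ≤ α v := fun n v h => Nat.le_findGreatest (hU n v h) h
  have leω : ∀ n v, W n v → n ≤ ω v := fun n v h => Nat.le_findGreatest (hW n v h) h
  have stepα : ∀ u v, E u v → α u + 1 ≤ α v := by
    intro u v huv
    obtain ⟨q, hq, hqu⟩ := hα u
    refine leα _ _ ⟨fun i => if i ≤ α u then q i else v, ?_, by simp⟩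
    intro i hi
    by_cases h : i + 1 ≤ α u
    · have h' : i ≤ α u := by omega
      simp only [h, h', if_true]
      exact hq i (by omega)
    · have h' : i = α u := by omega
      subst h'
      simp only [h, le_refl, if_true, if_false]
      rw [hqu]; exact huv
  have stepω : ∀ u v, E u v → ω v + 1 ≤ ω u := by
    intro u v huv
    obtain ⟨q, hq, hqv⟩ := hω v
    refine leω _ _ ⟨fun i => if i = 0 then u else q (i - 1), ?_, by simp⟩
    intro i hi
    rcases Nat.eq_zero_or_pos i with rfl | h
    · simp only [if_true, zero_add, one_ne_zero, if_false, Nat.sub_self]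
      rw [hqv]; exact huv
    · have h' : i ≠ 0 := by omega
      simp only [h', if_false, Nat.add_sub_cancel, Nat.succ_ne_zero]
      have := hq (i - 1) (by omega)
      rwa [Nat.sub_add_cancel h] at this
  have sum_le : ∀ v, α v + ω v ≤ k - 1 := by
    intro v
    obtain ⟨q, hq, hqv⟩ := hα v
    obtain ⟨r, hr, hrv⟩ := hω v
    by_contra hc
    exact hno _ ((hq.append hr (by rw [hqv, hrv])).mono (by omega))
  have sum_eq : ∀ v, α v + ω v = k - 1 → v = p (α v) := by
    intro v hv
    obtain ⟨q, hq, hqv⟩ := hα v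
    obtain ⟨r, hr, hrv⟩ := hω v
    have := hu _ ((hq.append hr (by rw [hqv, hrv])).mono (by omega)) (α v) (by omega)
    simp only [le_refl, if_true] at this
    rw [← this, hqv]
  have pa : ∀ i, i < k → i ≤ α (p i) := fun i hi => leα _ _ ⟨p, hp.mono (by omega), rfl⟩
  have pw : ∀ i, i < k → k - 1 - i ≤ ω (p i) := fun i hi =>
    leω _ _ ⟨fun t => p (i + t), Ch.shift (hp.mono (by omega)), rfl⟩
  refine ⟨α, fun v => k - 1 - ω v, ⟨?_, ?_, ?_, ?_, ?_, ?_, ?_⟩⟩
  · intro v; have := sum_le v; show α v ≤ k - 1 - ω v; omega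
  · intro v; show k - 1 - ω v < k; omega
  · intro u v huv
    rcases h2 u v huv with h | h
    · left
      have e1 := stepα u v h
      have e2 := stepω u v h
      have e3 := sum_le u
      have e4 := sum_le v
      refine ⟨by omega, ?_⟩
      show k - 1 - ω u < k - 1 - ω v
      omega
    · right
      have e1 := stepα v u h
      have e2 := stepω v u h
      have e3 := sum_le u
      have e4 := sum_le v
      refine ⟨by omega, ?_⟩
      show k - 1 - ω v < k - 1 - ω u
      omega
  · intro v hv
    have hv' : α v = k - 1 - ω v := hv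
    have := sum_le v
    by_cases h0 : ω v ≤ k - 1
    · exact sum_eq v (by omega)
    · omega
  · intro i hi
    have e1 := pa i hi
    have e2 := pw i hi
    have e3 := sum_le (p i)
    omega
  · intro i hi
    have e1 := pa i hi
    have e2 := pw i hi
    have e3 := sum_le (p i)
    show k - 1 - ω (p i) = i
    omega
  · exact fun i hi => h1 _ _ (hp i hi)

end Levels

/-! ### The colourings -/

/-- The `j`-th colouring. -/
def col (α β : V → ℕ) (j : ℕ) (v : V) : ℕ := if α v ≤ j then α v else β v - 1

theorem col_le {G : SimpleGraph V} {k : ℕ} {p : ℕ → V} {α β : V → ℕ} (L : Lev G k p α β)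
    {j : ℕ} (hj : j + 1 < k) (v : V) : col α β j v ≤ k - 2 := by
  have h1 := L.lt v
  unfold col
  split <;> omega

theorem col_eq {G : SimpleGraph V} {k : ℕ} {p : ℕ → V} {α β : V → ℕ} (L : Lev G k p α β)
    {j : ℕ} {u v : V} (huv : G.Adj u v) (h : col α β j u = col α β j v) :
    (u = p j ∧ v = p (j + 1)) ∨ (u = p (j + 1) ∧ v = p j) := by
  have key : ∀ u v : V, α u < α v → β u < β v → col α β j u = col α β j v →
      u = p j ∧ v = p (j + 1) := by
    intro u v h1 h2 h3
    have l1 := L.le u
    have l2 := L.le v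
    unfold col at h3
    split_ifs at h3 with g1 g2 g2
    · omega
    · have a1 : α u = j := by omega
      have a2 : β v = j + 1 := by omega
      have a3 : α v = j + 1 := by omega
      have a4 : β u = j := by omega
      have b1 := L.eq u (by omega)
      have b2 := L.eq v (by omega)
      rw [a1] at b1
      rw [a3] at b2
      exact ⟨b1, b2⟩
    · omega
    · omega
  rcases L.mono u v huv with ⟨h1, h2⟩ | ⟨h1, h2⟩
  · exact Or.inl (key u v h1 h2 h)
  · have := key v u h1 h2 h.symm
    exact Or.inr ⟨this.2, this.1⟩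

theorem col_p {G : SimpleGraph V} {k : ℕ} {p : ℕ → V} {α β : V → ℕ} (L : Lev G k p α β)
    {j i : ℕ} (hi : i < k) : col α β j (p i) = if i ≤ j then i else i - 1 := by
  unfold col
  rw [L.pα i hi, L.pβ i hi]

theorem col_step {G : SimpleGraph V} {k : ℕ} {p : ℕ → V} {α β : V → ℕ} (L : Lev G k p α β)
    {j : ℕ} {v : V} (hv : v ≠ p (j + 1)) :
    col α β (j + 1) v = col α β j v ∨
      (col α β (j + 1) v = j + 1 ∧ j + 1 ≤ col α β j v) := by
  have l1 := L.le v
  unfold col
  by_cases h1 : α v ≤ j
  · left; simp [h1, Nat.le_succ_of_le h1]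
  · by_cases h2 : α v ≤ j + 1
    · right
      have h3 : α v = j + 1 := by omega
      have h4 : α v ≠ β v := by
        intro h
        exact hv (by rw [← h3]; exact L.eq v h)
      simp only [h1, h2, if_true, if_false]
      omega
    · left; simp [h1, h2]

theorem p_inj {G : SimpleGraph V} {k : ℕ} {p : ℕ → V} {α β : V → ℕ} (L : Lev G k p α β)
    {i j : ℕ} (hi : i < k) (hj : j < k) (h : p i = p j) : i = j := by
  rw [← L.pα i hi, ← L.pα j hj, h]

end Pool.Agent.R451.MinOr
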