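import Pool.Agent.R451.MinOrA

set_option autoImplicit false

namespace Pool.Agent.R451.MinOr

open Relation

variable {V : Type*}

/-- `D` is an orientation of the simple graph `G`: each edge gets exactly one of its two
directions. -/
structure IsOrientation (G : SimpleGraph V) (D : V → V → Prop) : Prop where
  adj : ∀ u v, D u v → G.Adj u v
  total : ∀ u v, G.Adj u v → D u v ∨ D v u
  asymm : ∀ u v, D u v → ¬ D v u

/-- The list `l` is a directed path of `D` (distinct vertices, consecutive ones joined by arcs). -/
def IsDirPath (D : V → V → Prop) (l : List V) : Prop := l.Nodup ∧ l.IsChain D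

/-- `D` contains exactly one directed path on `k` vertices. -/
def OnePath (D : V → V → Prop) (k : ℕ) : Prop := ∃! l : List V, l.length = k ∧ IsDirPath D l

theorem transGen_add {R : V → V → Prop} {u v a b : V}
    (h : TransGen (fun x y => R x y ∨ (x = u ∧ y = v)) a b) :
    TransGen R a b ∨ (ReflTransGen R a u ∧ ReflTransGen R v b) := by
  induction h with
  | single h =>
    rcases h with h | ⟨rfl, rfl⟩
    · exact Or.inl (TransGen.single h)
    · exact Or.inr ⟨ReflTransGen.refl, ReflTransGen.refl⟩
  | tail _ h ih =>
    rcases h with h | ⟨rfl, rfl⟩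
    · rcases ih with ih | ⟨i1, i2⟩
      · exact Or.inl (TransGen.tail ih h)
      · exact Or.inr ⟨i1, i2.tail h⟩
    · rcases ih with ih | ⟨i1, i2⟩
      · exact Or.inr ⟨ih.to_reflTransGen, ReflTransGen.refl⟩
      · exact Or.inr ⟨i1, ReflTransGen.refl⟩

/-- A maximal acyclic subrelation. -/
theorem exists_acyclic [Finite V] {G : SimpleGraph V} {D : V → V → Prop}
    (hD : IsOrientation G D) : ∃ R : V → V → Prop, (∀ u v, R u v → D u v) ∧
      (∀ v, ¬ TransGen R v v) ∧ ∀ u v, G.Adj u v → TransGen R u v ∨ TransGen R v u := by
  classical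
  have := Fintype.ofFinite V
  let P : Set (V × V) → Prop := fun S =>
    (∀ u v, (u, v) ∈ S → D u v) ∧ ∀ v, ¬ TransGen (fun a b => (a, b) ∈ S) v v
  have hne : ((Finset.univ : Finset (Set (V × V))).filter P).Nonempty := by
    refine ⟨∅, ?_⟩
    rw [Finset.mem_filter]
    refine ⟨Finset.mem_univ _, by simp, ?_⟩
    intro v hv
    have : ∀ a b : V, TransGen (fun a b => (a, b) ∈ (∅ : Set (V × V))) a b → False := by
      intro a b h
      induction h with
      | single h => exact h
      | tail _ h _ => exact h
    exact this _ _ hv
  obtain ⟨S, hS, hmax⟩ := Finset.exists_max_image _ (fun S => S.ncard) hne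
  rw [Finset.mem_filter] at hS
  obtain ⟨-, hS1, hS2⟩ := hS
  have key : ∀ u v, D u v → TransGen (fun a b => (a, b) ∈ S) u v ∨
      TransGen (fun a b => (a, b) ∈ S) v u := by
    intro u v huv
    by_cases hmem : (u, v) ∈ S
    · exact Or.inl (TransGen.single hmem)
    · right
      have hnP : ¬ P (insert (u, v) S) := by
        intro hP
        have h1 := hmax (insert (u, v) S) (by rw [Finset.mem_filter]; exact ⟨Finset.mem_univ _, hP⟩)
        have h2 : (insert (u, v) S).ncard = S.ncard + 1 :=
          Set.ncard_insert_of_notMem hmem (Set.toFinite _)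
        omega
      have h3 : ∃ w, TransGen (fun a b => (a, b) ∈ insert (u, v) S) w w := by
        by_contra hc
        push Not at hc
        apply hnP
        refine ⟨?_, hc⟩
        intro a b hab
        rcases Set.mem_insert_iff.1 hab with h | h
        · simp only [Prod.mk.injEq] at h
          rw [h.1, h.2]; exact huv
        · exact hS1 a b h
      obtain ⟨w, hw⟩ := h3
      have h4 : TransGen (fun x y => (x, y) ∈ S ∨ (x = u ∧ y = v)) w w := by
        refine TransGen.mono (r := fun a b => (a, b) ∈ insert (u, v) S) ?_ w w hw
        intro a b hab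
        rcases Set.mem_insert_iff.1 hab with h | h
        · simp only [Prod.mk.injEq] at h
          exact Or.inr h
        · exact Or.inl h
      rcases transGen_add h4 with h5 | ⟨h5, h6⟩
      · exact absurd h5 (hS2 w)
      · have h7 : ReflTransGen (fun a b => (a, b) ∈ S) v u := h6.trans h5
        rcases reflTransGen_iff_eq_or_transGen.1 h7 with h8 | h8
        · have := hD.adj u v huv
          rw [h8] at this
          exact absurd this (G.loopless.irrefl _)
        · exact h8
  refine ⟨fun a b => (a, b) ∈ S, hS1, hS2, ?_⟩
  intro u v huv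
  rcases hD.total u v huv with h | h
  · exact key u v h
  · exact (key v u h).symm

theorem Ch.trans {R : V → V → Prop} {n : ℕ} {q : ℕ → V} (h : Ch R n q) {i j : ℕ} (hij : i < j)
    (hj : j < n) : TransGen R (q i) (q j) := by
  induction j with
  | zero => omega
  | succ j ih =>
    rcases Nat.lt_or_ge i j with h1 | h1
    · exact (ih h1 (by omega)).tail (h j hj)
    · have : i = j := by omega
      subst this
      exact TransGen.single (h i hj)

theorem Ch.inj {R : V → V → Prop} (hR : ∀ v, ¬ TransGen R v v) {n : ℕ} {q : ℕ → V}
    (h : Ch R n q) {i j : ℕ} (hi : i < n) (hj : j < n) (hij : q i = q j) : i = j := by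
  rcases lt_trichotomy i j with h1 | h1 | h1
  · have := h.trans h1 hj
    rw [hij] at this
    exact absurd this (hR _)
  · exact h1
  · have := h.trans h1 hi
    rw [hij] at this
    exact absurd this (hR _)

theorem uniq_fun {D : V → V → Prop} {k : ℕ} (h : OnePath D k) {q q' : ℕ → V}
    (hq : Ch D k q) (iq : ∀ i j, i < k → j < k → q i = q j → i = j)
    (hq' : Ch D k q') (iq' : ∀ i j, i < k → j < k → q' i = q' j → i = j) :
    ∀ i, i < k → q i = q' i := by
  have mk : ∀ r : ℕ → V, Ch D k r → (∀ i j, i < k → j < k → r i = r j → i = j) →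
      (List.ofFn (fun i : Fin k => r i)).length = k ∧
        IsDirPath D (List.ofFn (fun i : Fin k => r i)) := by
    intro r hr ir
    refine ⟨by simp, ?_, ?_⟩
    · rw [List.nodup_ofFn]
      intro a b hab
      exact Fin.ext (ir a b a.2 b.2 hab)
    · rw [List.isChain_iff_getElem]
      intro i hi
      simp only [List.getElem_ofFn]
      exact hr i (by simpa using hi)
  have e := h.unique (mk q hq iq) (mk q' hq' iq')
  have e' := List.ofFn_injective e
  intro i hi
  exact congrFun e' ⟨i, hi⟩

open Classical in
/-- The reduction to a situation with levels. -/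
theorem reduction [Finite V] {G : SimpleGraph V} {k : ℕ} (hk : 1 ≤ k)
    (hchi : ∀ c : V → ℕ, (∀ v, c v + 1 ≤ k - 1) → ∃ u v, G.Adj u v ∧ c u = c v)
    {D : V → V → Prop} (hD : IsOrientation G D) (h : OnePath D k) :
    ∃ (p : ℕ → V) (α β : V → ℕ), Lev G k p α β := by
  obtain ⟨R, hRD, hac, hcomp⟩ := exists_acyclic hD
  have toD : ∀ {n q}, Ch R n q → Ch D n q := fun hq i hi => hRD _ _ (hq i hi)
  have hno : ∀ q, ¬ Ch R (k + 1) q := by
    intro q hq
    have h1 : Ch R k q := hq.mono (by omega)
    have h2 : Ch R k (fun i => q (1 + i)) := Ch.shift (n := k) (a := 1) hq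
    have := uniq_fun h (toD h1) (fun i j hi hj => h1.inj hac hi hj) (toD h2)
      (fun i j hi hj => h2.inj hac hi hj) 0 (by omega)
    have h3 := hq.inj hac (i := 0) (j := 1) (by omega) (by omega) this
    omega
  let U : ℕ → V → Prop := fun n v => ∃ q, Ch R (n + 1) q ∧ q n = v
  have hU : ∀ n v, U n v → n ≤ k - 1 := by
    rintro n v ⟨q, hq, -⟩
    by_contra hc
    exact hno q (hq.mono (by omega))
  have U0 : ∀ v, U 0 v := fun v => ⟨fun _ => v, fun i hi => by omega, rfl⟩
  let α : V → ℕ := fun v => Nat.findGreatest (fun n => U n v) (k - 1)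
  have hα : ∀ v, U (α v) v := fun v =>
    Nat.findGreatest_spec (P := fun n => U n v) (Nat.zero_le (k - 1)) (U0 v)
  have leα : ∀ n v, U n v → n ≤ α v := fun n v h => Nat.le_findGreatest (hU n v h) h
  have αle : ∀ v, α v ≤ k - 1 := fun v => hU _ _ (hα v)
  have stepα : ∀ u v, R u v → α u + 1 ≤ α v := by
    intro u v huv
    obtain ⟨q, hq, hqu⟩ := hα u
    refine leα _ _ ⟨fun i => if i ≤ α u then q i else v, ?_, by simp⟩
    intro i hi
    by_cases h : i + 1 ≤ α u
    · have h' : i ≤ α u := by omega
      simp only [h, h', if_true]
      exact hq i (by omega)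
    · have h' : i = α u := by omega
      subst h'
      simp only [h, le_refl, if_true, if_false]
      rw [hqu]; exact huv
  have transα : ∀ u v, TransGen R u v → α u + 1 ≤ α v := by
    intro u v huv
    induction huv with
    | single h => exact stepα _ _ h
    | tail _ h ih => have := stepα _ _ h; omega
  -- existence of a walk with `k` vertices
  have hex : ∃ p, Ch R k p := by
    by_contra hc
    push Not at hc
    have hlt : ∀ v, α v + 1 ≤ k - 1 := by
      intro v
      by_contra hcon
      obtain ⟨q, hq, -⟩ := hα v
      exact hc q (hq.mono (by omega))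
    obtain ⟨u, v, huv, hc⟩ := hchi α hlt
    rcases hcomp u v huv with h | h
    · have := transα _ _ h; omega
    · have := transα _ _ h; omega
  obtain ⟨p, hp⟩ := hex
  let E : V → V → Prop := fun u v => G.Adj u v ∧ TransGen R u v
  obtain ⟨a, b, L⟩ := exists_lev (G := G) hk (E := E) (fun u v h => h.1) (fun u v h => by
    rcases hcomp u v h with h' | h'
    · exact Or.inl ⟨h, h'⟩
    · exact Or.inr ⟨h.symm, h'⟩) (p := p)
    (fun i hi => ⟨hD.adj _ _ (hRD _ _ (hp i hi)), TransGen.single (hp i hi)⟩) (by
      intro q hq
      have hlow : ∀ i, i < k → i ≤ α (q i) := by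
        intro i
        induction i with
        | zero => intro _; omega
        | succ i ih =>
          intro hi
          have h1 := ih (by omega)
          have h2 := transα _ _ (hq i hi).2
          omega
      have hup : ∀ i, i < k → α (q (k - 1 - i)) ≤ k - 1 - i := by
        intro i
        induction i with
        | zero => intro _; exact αle _
        | succ i ih =>
          intro hi
          have h1 := ih (by omega)
          have h2 := transα _ _ (hq (k - 1 - (i + 1)) (by omega)).2
          have h3 : k - 1 - (i + 1) + 1 = k - 1 - i := by omega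
          rw [h3] at h2
          omega
      have heq : ∀ i, i < k → α (q i) = i := by
        intro i hi
        have h1 := hlow i hi
        have h2 := hup (k - 1 - i) (by omega)
        have h3 : k - 1 - (k - 1 - i) = i := by omega
        rw [h3] at h2
        omega
      have hqR : Ch R k q := by
        intro i hi
        have h1 := heq i (by omega)
        have h2 := heq (i + 1) hi
        have h3 := (hq i hi).2
        rcases TransGen.tail'_iff.1 h3 with ⟨w, hw1, hw2⟩
        rcases reflTransGen_iff_eq_or_transGen.1 hw1 with h4 | h4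
        · rw [h4] at hw2; exact hw2
        · have h5 := transα _ _ h4
          have h6 := stepα _ _ hw2
          omega
      exact uniq_fun h (toD hqR) (fun i j hi hj => hqR.inj hac hi hj) (toD hp)
        (fun i j hi hj => hp.inj hac hi hj))
  exact ⟨p, a, b, L⟩

end Pool.Agent.R451.MinOr
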