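import Pool.Agent.R451.MinOrB

set_option autoImplicit false

namespace Pool.Agent.R451.MinOr

/-- The vertices of `G_k`: the seven cycle vertices and seven groups of `k - 3` vertices. -/
abbrev Vt (k : ℕ) := ZMod 7 ⊕ (ZMod 7 × Fin (k - 3))

/-- Adjacency in `G_k`. -/
def adjRel (k : ℕ) : Vt k → Vt k → Prop
  | Sum.inl i, Sum.inl j => j = i + 1 ∨ i = j + 1
  | Sum.inl j, Sum.inr (i, _) => j = i ∨ j = i + 1 ∨ j = i + 3
  | Sum.inr (i, _), Sum.inl j => j = i ∨ j = i + 1 ∨ j = i + 3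
  | Sum.inr (i, a), Sum.inr (j, b) => i = j ∧ a ≠ b

/-- The graph `G_k`: the 7-cycle `x_0, ..., x_6`, disjoint complete graphs `G_0, ..., G_6` on
`k - 3` vertices, and each vertex of `G_i` joined to `x_i`, `x_{i+1}` and `x_{i+3}`. -/
def GK (k : ℕ) : SimpleGraph (Vt k) where
  Adj := adjRel k
  symm := ⟨by
    rintro (i | ⟨i, a⟩) (j | ⟨j, b⟩) h
    · exact h.symm
    · exact h
    · exact h
    · exact ⟨h.1.symm, h.2.symm⟩⟩
  loopless := ⟨by
    rintro (i | ⟨i, a⟩) h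
    · rcases h with h | h <;> exact absurd h (by revert i; decide)
    · exact h.2 rfl⟩

variable {k : ℕ}

/-- The complete graph on `G_i`, `x_i`, `x_{i+1}`. -/
def K (k : ℕ) (i : ZMod 7) : Finset (Vt k) :=
  {Sum.inl i, Sum.inl (i + 1)} ∪ Finset.univ.image (fun a : Fin (k - 3) => Sum.inr (i, a))

theorem mem_K {i : ZMod 7} {v : Vt k} :
    v ∈ K k i ↔ v = Sum.inl i ∨ v = Sum.inl (i + 1) ∨ ∃ a, v = Sum.inr (i, a) := by
  unfold K
  simp only [Finset.mem_union, Finset.mem_insert, Finset.mem_singleton, Finset.mem_image,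
    Finset.mem_univ, true_and, or_assoc]
  constructor
  · rintro (h | h | ⟨a, h⟩)
    · exact Or.inl h
    · exact Or.inr (Or.inl h)
    · exact Or.inr (Or.inr ⟨a, h.symm⟩)
  · rintro (h | h | ⟨a, h⟩)
    · exact Or.inl h
    · exact Or.inr (Or.inl h)
    · exact Or.inr (Or.inr ⟨a, h.symm⟩)

theorem inl_mem_K {i j : ZMod 7} : (Sum.inl j : Vt k) ∈ K k i ↔ j = i ∨ j = i + 1 := by
  rw [mem_K]; simp

theorem inr_mem_K {i j : ZMod 7} {a : Fin (k - 3)} : (Sum.inr (j, a) : Vt k) ∈ K k i ↔ j = i := by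
  rw [mem_K]
  simp only [reduceCtorEq, false_or, Sum.inr.injEq, Prod.mk.injEq]
  constructor
  · rintro ⟨b, h, -⟩; exact h
  · rintro h; exact ⟨a, h, rfl⟩

theorem card_K (hk : 3 ≤ k) (i : ZMod 7) : (K k i).card = k - 1 := by
  unfold K
  rw [Finset.card_union_of_disjoint, Finset.card_image_of_injective]
  · rw [Finset.card_pair]
    · simp; omega
    · intro h
      simp only [Sum.inl.injEq] at h
      revert h; revert i; decide
  · intro a b h
    simpa using h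
  · rw [Finset.disjoint_left]
    intro v h1 h2
    simp only [Finset.mem_insert, Finset.mem_singleton] at h1
    simp only [Finset.mem_image, Finset.mem_univ, true_and] at h2
    obtain ⟨a, rfl⟩ := h2
    rcases h1 with h | h <;> simp at h

theorem K_clique {i : ZMod 7} {u v : Vt k} (hu : u ∈ K k i) (hv : v ∈ K k i) (h : u ≠ v) :
    (GK k).Adj u v := by
  show adjRel k u v
  rw [mem_K] at hu hv
  rcases hu with rfl | rfl | ⟨a, rfl⟩ <;> rcases hv with rfl | rfl | ⟨b, rfl⟩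
  · exact absurd rfl h
  · exact Or.inl rfl
  · exact Or.inl rfl
  · exact Or.inr rfl
  · exact absurd rfl h
  · exact Or.inr (Or.inl rfl)
  · exact Or.inl rfl
  · exact Or.inr (Or.inl rfl)
  · exact ⟨rfl, fun hab => h (by rw [hab])⟩

theorem rainbow (hk : 3 ≤ k) {c : Vt k → ℕ} (hc : ∀ v, c v ≤ k - 2) {i : ZMod 7}
    (hinj : ∀ u ∈ K k i, ∀ v ∈ K k i, u ≠ v → c u ≠ c v) {t : ℕ} (ht : t ≤ k - 2) :
    ∃ u ∈ K k i, c u = t := by
  classical
  have h1 : (K k i).image c ⊆ Finset.range (k - 1) := by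
    intro x hx
    rw [Finset.mem_image] at hx
    obtain ⟨v, -, rfl⟩ := hx
    rw [Finset.mem_range]
    have := hc v
    omega
  have h2 : ((K k i).image c).card = k - 1 := by
    rw [Finset.card_image_of_injOn, card_K hk]
    intro u hu v hv huv
    by_contra hne
    exact hinj u hu v hv hne huv
  have h3 : (K k i).image c = Finset.range (k - 1) :=
    Finset.eq_of_subset_of_card_le h1 (by rw [h2, Finset.card_range])
  have h4 : t ∈ (K k i).image c := by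
    rw [h3, Finset.mem_range]; omega
  rw [Finset.mem_image] at h4
  exact h4

/-- `c` is proper except possibly for the edge `ab`. -/
def Almost (c : Vt k → ℕ) (a b : Vt k) : Prop :=
  ∀ u v, (GK k).Adj u v → c u = c v → (u = a ∧ v = b) ∨ (u = b ∧ v = a)

theorem constr (hk : 3 ≤ k) {c : Vt k → ℕ} (hc : ∀ v, c v ≤ k - 2) {a b : Vt k}
    (h : Almost c a b) {i : ZMod 7} (h1 : ¬ (a ∈ K k i ∧ b ∈ K k i))
    (h2 : ∀ t, ¬ (a = Sum.inl (i + 3) ∧ b = Sum.inr (i, t)))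
    (h3 : ∀ t, ¬ (b = Sum.inl (i + 3) ∧ a = Sum.inr (i, t))) :
    c (Sum.inl (i + 3)) = c (Sum.inl i) ∨ c (Sum.inl (i + 3)) = c (Sum.inl (i + 1)) := by
  obtain ⟨u, hu, huc⟩ := rainbow hk hc (i := i) (t := c (Sum.inl (i + 3))) (by
    intro u hu v hv huv hcuv
    rcases h u v (K_clique hu hv huv) hcuv with ⟨rfl, rfl⟩ | ⟨rfl, rfl⟩
    · exact h1 ⟨hu, hv⟩
    · exact h1 ⟨hv, hu⟩) (hc _)
  rw [mem_K] at hu
  rcases hu with rfl | rfl | ⟨t, rfl⟩
  · exact Or.inl huc.symm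
  · exact Or.inr huc.symm
  · exfalso
    have hadj : (GK k).Adj (Sum.inl (i + 3)) (Sum.inr (i, t)) := Or.inr (Or.inr rfl)
    rcases h _ _ hadj huc.symm with ⟨e1, e2⟩ | ⟨e1, e2⟩
    · exact h2 t ⟨e1.symm, e2.symm⟩
    · exact h3 t ⟨e1.symm, e2.symm⟩

def patA (c : Vt k → ℕ) (i : ZMod 7) : Prop :=
  c (Sum.inl i) = c (Sum.inl (i + 2)) ∧ c (Sum.inl i) = c (Sum.inl (i + 5)) ∧
  c (Sum.inl (i + 1)) = c (Sum.inl (i + 4)) ∧ c (Sum.inl (i + 1)) = c (Sum.inl (i + 6)) ∧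
  c (Sum.inl i) ≠ c (Sum.inl (i + 1))

def patB (c : Vt k → ℕ) (i : ZMod 7) : Prop :=
  c (Sum.inl i) = c (Sum.inl (i + 1)) ∧ c (Sum.inl i) = c (Sum.inl (i + 3)) ∧
  c (Sum.inl i) = c (Sum.inl (i + 5)) ∧ c (Sum.inl (i + 2)) = c (Sum.inl (i + 4)) ∧
  c (Sum.inl (i + 2)) = c (Sum.inl (i + 6))

theorem pat_arith {y0 y1 y2 y3 y4 y5 y6 : ℕ} (h1 : y4 = y1 ∨ y4 = y2) (h2 : y5 = y2 ∨ y5 = y3)
    (h3 : y6 = y3 ∨ y6 = y4) (h4 : y0 = y4 ∨ y0 = y5) (h5 : y1 = y5 ∨ y1 = y6)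
    (h6 : y2 = y6 ∨ y2 = y0) (a1 : y1 ≠ y2) (a2 : y2 ≠ y3) (a3 : y3 ≠ y4) (a4 : y4 ≠ y5)
    (a5 : y5 ≠ y6) (a6 : y6 ≠ y0) :
    (y0 = y2 ∧ y0 = y5 ∧ y1 = y4 ∧ y1 = y6 ∧ y0 ≠ y1) ∨
      (y0 = y1 ∧ y0 = y3 ∧ y0 = y5 ∧ y2 = y4 ∧ y2 = y6) := by
  rcases h1 with h1 | h1 <;> rcases h2 with h2 | h2 <;> rcases h3 with h3 | h3 <;>
    rcases h4 with h4 | h4 <;> rcases h5 with h5 | h5 <;> rcases h6 with h6 | h6 <;> omega

theorem pat_of {c : Vt k → ℕ} {i : ZMod 7}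
    (hcons : ∀ j, j ≠ i → c (Sum.inl (j + 3)) = c (Sum.inl j) ∨
      c (Sum.inl (j + 3)) = c (Sum.inl (j + 1)))
    (hadj : ∀ j, j ≠ i → c (Sum.inl j) ≠ c (Sum.inl (j + 1))) : patA c i ∨ patB c i := by
  have e (t s : ZMod 7) (ht : t + 1 = s) : i + t + 1 = i + s := by rw [add_assoc, ht]
  have e3 (t s : ZMod 7) (ht : t + 3 = s) : i + t + 3 = i + s := by rw [add_assoc, ht]
  have ne (t : ZMod 7) (ht : t ≠ 0) : i + t ≠ i := by simpa using ht
  have c1 := hcons (i + 1) (ne 1 (by decide))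
  have c2 := hcons (i + 2) (ne 2 (by decide))
  have c3 := hcons (i + 3) (ne 3 (by decide))
  have c4 := hcons (i + 4) (ne 4 (by decide))
  have c5 := hcons (i + 5) (ne 5 (by decide))
  have c6 := hcons (i + 6) (ne 6 (by decide))
  have a1 := hadj (i + 1) (ne 1 (by decide))
  have a2 := hadj (i + 2) (ne 2 (by decide))
  have a3 := hadj (i + 3) (ne 3 (by decide))
  have a4 := hadj (i + 4) (ne 4 (by decide))
  have a5 := hadj (i + 5) (ne 5 (by decide))
  have a6 := hadj (i + 6) (ne 6 (by decide))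
  rw [e 1 2 (by decide)] at c1 a1
  rw [e3 1 4 (by decide)] at c1
  rw [e 2 3 (by decide)] at c2 a2
  rw [e3 2 5 (by decide)] at c2
  rw [e 3 4 (by decide)] at c3 a3
  rw [e3 3 6 (by decide)] at c3
  rw [e 4 5 (by decide)] at c4 a4
  rw [e3 4 0 (by decide)] at c4
  rw [e 5 6 (by decide)] at c5 a5
  rw [e3 5 1 (by decide)] at c5
  rw [e 6 0 (by decide)] at c6 a6
  rw [e3 6 2 (by decide)] at c6
  rw [add_zero] at c4 c6 a6
  exact pat_arith c1 c2 c3 c4 c5 c6 a1 a2 a3 a4 a5 a6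

/-- The pattern for a colouring whose bad edge lies in `K_i`. -/
theorem pat_edge (hk : 3 ≤ k) {c : Vt k → ℕ} (hc : ∀ v, c v ≤ k - 2) {a b : Vt k}
    (h : Almost c a b) (hab : a ≠ b) {i : ZMod 7} (ha : a ∈ K k i) (hb : b ∈ K k i) :
    patA c i ∨ patB c i := by
  have key : ∀ j, j ≠ i → ¬ (a ∈ K k j ∧ b ∈ K k j) := by
    rintro j hj ⟨ha', hb'⟩
    rw [mem_K] at ha hb ha' hb'
    rcases ha with rfl | rfl | ⟨t, rfl⟩ <;> rcases hb with rfl | rfl | ⟨s, rfl⟩ <;>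
      simp only [reduceCtorEq, Sum.inl.injEq, Sum.inr.injEq, Prod.mk.injEq, false_or, or_false,
        exists_false, exists_and_left, ne_eq, not_true_eq_false] at ha' hb' hab
    · revert hj ha' hb' ; clear * - ; revert i j; decide
    · exact hj hb'.1.symm
    · revert hj ha' hb' ; clear * - ; revert i j; decide
    · exact hj hb'.1.symm
    · exact hj ha'.1.symm
    · exact hj ha'.1.symm
    · exact hj ha'.1.symm
  apply pat_of
  · intro j hj
    apply constr hk hc h (key j hj)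
    · rintro t ⟨e1, e2⟩
      rw [e2, inr_mem_K] at hb
      exact hj hb
    · rintro t ⟨e1, e2⟩
      rw [e2, inr_mem_K] at ha
      exact hj ha
  · intro j hj hcj
    have hadj : (GK k).Adj (Sum.inl j) (Sum.inl (j + 1)) := Or.inl rfl
    have m1 : (Sum.inl j : Vt k) ∈ K k j := inl_mem_K.2 (Or.inl rfl)
    have m2 : (Sum.inl (j + 1) : Vt k) ∈ K k j := inl_mem_K.2 (Or.inr rfl)
    rcases h _ _ hadj hcj with ⟨e1, e2⟩ | ⟨e1, e2⟩
    · exact key j hj ⟨e1 ▸ m1, e2 ▸ m2⟩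
    · exact key j hj ⟨e2 ▸ m2, e1 ▸ m1⟩

/-- `G_k` has no proper colouring with `k - 1` colours. -/
theorem not_colorable (hk : 3 ≤ k) (c : Vt k → ℕ) (hc : ∀ v, c v + 1 ≤ k - 1) :
    ∃ u v, (GK k).Adj u v ∧ c u = c v := by
  by_contra hno
  push Not at hno
  have hc' : ∀ v, c v ≤ k - 2 := fun v => by have := hc v; omega
  have hA : Almost c (Sum.inl 0) (Sum.inl 0) := fun u v h1 h2 => absurd h2 (hno u v h1)
  have hcons : ∀ j : ZMod 7, c (Sum.inl (j + 3)) = c (Sum.inl j) ∨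
      c (Sum.inl (j + 3)) = c (Sum.inl (j + 1)) := by
    intro j
    obtain ⟨u, hu, huc⟩ := rainbow hk hc' (i := j) (t := c (Sum.inl (j + 3)))
      (fun u hu v hv huv => hno u v (K_clique hu hv huv)) (hc' _)
    rw [mem_K] at hu
    rcases hu with rfl | rfl | ⟨t, rfl⟩
    · exact Or.inl huc.symm
    · exact Or.inr huc.symm
    · exact absurd huc.symm (hno _ _ (Or.inr (Or.inr rfl)))
  have hadj : ∀ j : ZMod 7, c (Sum.inl j) ≠ c (Sum.inl (j + 1)) :=
    fun j => hno _ _ (Or.inl rfl)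
  rcases pat_of (i := 0) (fun j _ => hcons j) (fun j _ => hadj j) with h | h
  · obtain ⟨h1, h2, h3, h4, h5⟩ := h
    have g1 := hcons 0
    have g2 := hadj 2
    have g3 := hadj 3
    have e1 : (2 : ZMod 7) + 1 = 3 := by decide
    have e2 : (3 : ZMod 7) + 1 = 4 := by decide
    rw [e1] at g2
    rw [e2] at g3
    simp only [zero_add] at h1 h3 g1
    rcases g1 with g1 | g1
    · exact g2 (by rw [← h1, g1])
    · exact g3 (by rw [g1, h3])
  · exact hadj 0 h.1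

end Pool.Agent.R451.MinOr
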