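import Pool.Agent.R451.MinOrC

set_option autoImplicit false

namespace Pool.Agent.R451.MinOr

variable {k : ℕ} {p : ℕ → Vt k} {α β : Vt k → ℕ}

theorem almost_col (L : Lev (GK k) k p α β) (j : ℕ) : Almost (col α β j) (p j) (p (j + 1)) :=
  fun _ _ h1 h2 => col_eq L h1 h2

theorem nbr (hk : 3 ≤ k) (L : Lev (GK k) k p α β) {n : ℕ} (hn : n + 2 < k) {i : ZMod 7}
    (h : p (n + 1) ∈ K k i) : p n ∈ K k i ∨ p (n + 2) ∈ K k i := by
  by_contra hcon
  push Not at hcon
  obtain ⟨h1, h2⟩ := hcon
  obtain ⟨u, hu, huc⟩ := rainbow hk (c := col α β n) (col_le L (by omega)) (i := i)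
    (t := n + 1) (by
      intro u hu v hv huv hcuv
      rcases col_eq L (K_clique hu hv huv) hcuv with ⟨rfl, rfl⟩ | ⟨rfl, rfl⟩
      · exact h1 hu
      · exact h1 hv) (by omega)
  have hne : u ≠ p (n + 1) := by
    rintro rfl
    rw [col_p L (by omega), if_neg (by omega)] at huc
    omega
  have h3 : col α β (n + 1) u = n + 1 := by
    rcases col_step L hne with h | h
    · rw [h, huc]
    · exact h.1
  have h4 : col α β (n + 1) (p (n + 1)) = n + 1 := by
    rw [col_p L (by omega), if_pos (le_refl _)]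
  rcases col_eq L (K_clique hu h hne) (h3.trans h4.symm) with ⟨e1, -⟩ | ⟨e1, -⟩
  · exact hne e1
  · exact h2 (e1 ▸ hu)

theorem inter_K {i : ZMod 7} {v : Vt k} (h1 : v ∈ K k i) (h2 : v ∈ K k (i + 6)) :
    v = Sum.inl i := by
  rcases v with j | ⟨j, a⟩
  · rw [inl_mem_K] at h1 h2
    have : j = i := by
      revert h1 h2; revert i j; decide
    rw [this]
  · rw [inr_mem_K] at h1 h2
    exfalso
    subst h1
    revert h2; revert j; decide

theorem pat_p (hk : 3 ≤ k) (L : Lev (GK k) k p α β) {j : ℕ} (hj : j + 1 < k) {i : ZMod 7}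
    (h1 : p j ∈ K k i) (h2 : p (j + 1) ∈ K k i) :
    patA (col α β j) i ∨ patB (col α β j) i := by
  refine pat_edge hk (col_le L hj) (almost_col L j) ?_ h1 h2
  intro h
  have := p_inj L (by omega) hj h
  omega

theorem shift6 (i : ZMod 7) : i + 6 + 1 = i ∧ i + 6 + 2 = i + 1 ∧ i + 6 + 3 = i + 2 ∧
    i + 6 + 4 = i + 3 ∧ i + 6 + 5 = i + 4 ∧ i + 6 + 6 = i + 5 := by
  revert i; decide

theorem lemX (hk : 3 ≤ k) (L : Lev (GK k) k p α β) {n : ℕ} (hn : n + 2 < k) {i : ZMod 7}
    (h : p (n + 1) = Sum.inl i) :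
    (p n = Sum.inl (i + 1) ∧ p (n + 2) = Sum.inl (i + 6)) ∨
      (p n = Sum.inl (i + 6) ∧ p (n + 2) = Sum.inl (i + 1)) := by
  obtain ⟨s1, s2, s3, s4, s5, s6⟩ := shift6 i
  have hK0 : p (n + 1) ∈ K k i := by rw [h]; exact inl_mem_K.2 (Or.inl rfl)
  have hK6 : p (n + 1) ∈ K k (i + 6) := by
    rw [h]; exact inl_mem_K.2 (Or.inr s1.symm)
  have n1 : p n ≠ Sum.inl i := by
    intro h'
    have := p_inj L (by omega) (by omega) (h'.trans h.symm)
    omega
  have n2 : p (n + 2) ≠ Sum.inl i := by
    intro h'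
    have := p_inj L (by omega) (by omega) (h'.trans h.symm)
    omega
  have w0 : col α β n (Sum.inl i) = n := by
    rw [← h, col_p L (by omega), if_neg (by omega)]; omega
  have z0 : col α β (n + 1) (Sum.inl i) = n + 1 := by
    rw [← h, col_p L (by omega), if_pos (le_refl _)]
  have tr : ∀ t : ZMod 7, t ≠ 0 → col α β n (Sum.inl (i + t)) = n →
      col α β (n + 1) (Sum.inl (i + t)) = n := by
    intro t ht hw
    have hne : (Sum.inl (i + t) : Vt k) ≠ p (n + 1) := by
      rw [h]
      intro h'
      simp only [Sum.inl.injEq, add_eq_left] at h'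
      exact ht h'
    rcases col_step L hne with h' | h'
    · rw [h', hw]
    · omega
  have adj01 : (GK k).Adj (Sum.inl i) (Sum.inl (i + 1)) := Or.inl rfl
  have adj60 : (GK k).Adj (Sum.inl (i + 6)) (Sum.inl i) := Or.inl s1.symm
  rcases nbr hk L hn hK0 with a | a <;> rcases nbr hk L hn hK6 with b | b
  · exact absurd (inter_K a b) n1
  · -- case 1
    left
    have hw := pat_p hk L (j := n) (by omega) a hK0
    have hz := pat_p hk L (j := n + 1) (by omega) hK6 b
    unfold patA patB at hw hz
    rw [s1, s2, s3, s4, s5, s6] at hz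
    have t2 := tr 2 (by decide)
    have t5 := tr 5 (by decide)
    have hw' : col α β n (Sum.inl i) = col α β n (Sum.inl (i + 1)) := by
      rcases hw with hw | hw
      · exfalso
        obtain ⟨q1, q2, -⟩ := hw
        have g2 := t2 (by omega)
        have g5 := t5 (by omega)
        rcases hz with hz | hz
        · obtain ⟨-, -, -, r, -⟩ := hz; omega
        · obtain ⟨r1, r2, -⟩ := hz; omega
      · exact hw.1
    have hz' : col α β (n + 1) (Sum.inl (i + 6)) = col α β (n + 1) (Sum.inl i) := by
      rcases hz with hz | hz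
      · exfalso
        obtain ⟨-, -, -, r, -⟩ := hz
        rcases hw with hw | hw
        · exact hw.2.2.2.2 hw'
        · have := t5 (by omega)
          omega
      · exact hz.1
    constructor
    · rcases col_eq L adj01 hw' with ⟨e1, e2⟩ | ⟨e1, e2⟩
      · exact absurd e1.symm n1
      · exact e2.symm
    · rcases col_eq L adj60 hz' with ⟨e1, e2⟩ | ⟨e1, e2⟩
      · exact absurd e2.symm n2
      · exact e1.symm
  · -- case 2
    right
    have hw := pat_p hk L (j := n) (by omega) b hK6
    have hz := pat_p hk L (j := n + 1) (by omega) hK0 a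
    unfold patA patB at hw hz
    rw [s1, s2, s3, s4, s5, s6] at hw
    have t2 := tr 2 (by decide)
    have t3 := tr 3 (by decide)
    have t5 := tr 5 (by decide)
    have hw' : col α β n (Sum.inl (i + 6)) = col α β n (Sum.inl i) := by
      rcases hw with hw | hw
      · exfalso
        obtain ⟨-, -, q1, q2, -⟩ := hw
        have g3 := t3 (by omega)
        have g5 := t5 (by omega)
        rcases hz with hz | hz
        · obtain ⟨-, r, -⟩ := hz; omega
        · obtain ⟨-, r, -⟩ := hz; omega
      · exact hw.1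
    have hz' : col α β (n + 1) (Sum.inl i) = col α β (n + 1) (Sum.inl (i + 1)) := by
      rcases hz with hz | hz
      · exfalso
        obtain ⟨r, -⟩ := hz
        rcases hw with hw | hw
        · exact hw.2.2.2.2 hw'
        · have := t2 (by omega)
          omega
      · exact hz.1
    constructor
    · rcases col_eq L adj60 hw' with ⟨e1, e2⟩ | ⟨e1, e2⟩
      · exact e1.symm
      · exact absurd e2.symm n1
    · rcases col_eq L adj01 hz' with ⟨e1, e2⟩ | ⟨e1, e2⟩
      · exact e2.symm
      · exact absurd e1.symm n2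
  · exact absurd (inter_K a b) n2

theorem lemZ (hk : 3 ≤ k) (L : Lev (GK k) k p α β) {n : ℕ} (hn : n + 3 < k) {i i' : ZMod 7}
    (h : p (n + 1) = Sum.inl i) (h' : p (n + 2) = Sum.inl i') : False := by
  obtain ⟨s1, s2, s3, s4, s5, s6⟩ := shift6 i
  have z0 : col α β (n + 1) (p n) = n := by
    rw [col_p L (by omega), if_pos (by omega)]
  have z1 : col α β (n + 1) (p (n + 1)) = n + 1 := by
    rw [col_p L (by omega), if_pos (by omega)]
  have z2 : col α β (n + 1) (p (n + 2)) = n + 1 := by
    rw [col_p L (by omega), if_neg (by omega)]; omega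
  have z3 : col α β (n + 1) (p (n + 3)) = n + 2 := by
    rw [col_p L (by omega), if_neg (by omega)]; omega
  rcases lemX hk L (by omega) h with ⟨a1, a2⟩ | ⟨a1, a2⟩
  · have e : i' = i + 6 := by
      rw [h'] at a2
      simpa using a2
    subst e
    have b : p (n + 3) = Sum.inl (i + 5) := by
      rcases lemX hk L (n := n + 1) (by omega) h' with ⟨b1, b2⟩ | ⟨b1, b2⟩
      · rw [s6] at b2; exact b2
      · rw [h, s6] at b1
        exfalso
        simp only [Sum.inl.injEq] at b1
        revert b1; clear * -; revert i; decide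
    have hp : patA (col α β (n + 1)) (i + 6) ∨ patB (col α β (n + 1)) (i + 6) := by
      refine pat_p hk L (by omega) ?_ ?_
      · rw [h]; exact inl_mem_K.2 (Or.inr s1.symm)
      · show p (n + 2) ∈ _
        rw [h']; exact inl_mem_K.2 (Or.inl rfl)
    unfold patA patB at hp
    rw [s1, s2, s3, s4, s5, s6, ← a1, ← h', ← h, ← b] at hp
    rcases hp with hp | hp
    · obtain ⟨-, -, -, -, q⟩ := hp; omega
    · obtain ⟨-, -, -, -, q⟩ := hp; omega
  · have e : i' = i + 1 := by
      rw [h'] at a2
      simpa using a2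
    subst e
    have f1 : i + 1 + 6 = i := by clear * -; revert i; decide
    have f2 : i + 1 + 1 = i + 2 := by clear * -; revert i; decide
    have b : p (n + 3) = Sum.inl (i + 2) := by
      rcases lemX hk L (n := n + 1) (by omega) h' with ⟨b1, b2⟩ | ⟨b1, b2⟩
      · rw [h, f2] at b1
        exfalso
        simp only [Sum.inl.injEq] at b1
        revert b1; clear * -; revert i; decide
      · rw [f2] at b2; exact b2
    have hp : patA (col α β (n + 1)) i ∨ patB (col α β (n + 1)) i := by
      refine pat_p hk L (by omega) ?_ ?_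
      · rw [h]; exact inl_mem_K.2 (Or.inl rfl)
      · show p (n + 2) ∈ _
        rw [h']; exact inl_mem_K.2 (Or.inr rfl)
    unfold patA patB at hp
    rw [← a1, ← h', ← h, ← b] at hp
    rcases hp with hp | hp
    · obtain ⟨-, -, -, -, q⟩ := hp; omega
    · obtain ⟨-, -, -, -, q⟩ := hp; omega

theorem lemY (hk : 4 ≤ k) (L : Lev (GK k) k p α β) {n : ℕ} (hn : n + 2 < k) (i : ZMod 7) :
    p (n + 1) ≠ Sum.inl i := by
  intro h
  by_cases h3 : n + 3 < k
  · rcases lemX (by omega) L hn h with ⟨-, a2⟩ | ⟨-, a2⟩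
    · exact lemZ (by omega) L h3 h a2
    · exact lemZ (by omega) L h3 h a2
  · obtain ⟨m, rfl⟩ : ∃ m, n = m + 1 := ⟨n - 1, by omega⟩
    rcases lemX (by omega) L hn h with ⟨a1, -⟩ | ⟨a1, -⟩
    · exact lemZ (by omega) L (n := m) (by omega) a1 h
    · exact lemZ (by omega) L (n := m) (by omega) a1 h

theorem no_lev (hk : 4 ≤ k) : ¬ ∃ (p : ℕ → Vt k) (α β : Vt k → ℕ), Lev (GK k) k p α β := by
  rintro ⟨p, α, β, L⟩
  have hr : ∀ n, n + 2 < k → ∃ j a, p (n + 1) = Sum.inr (j, a) := by
    intro n hn
    rcases hp : p (n + 1) with i | ⟨j, a⟩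
    · exact absurd hp (lemY hk L hn i)
    · exact ⟨j, a, rfl⟩
  obtain ⟨j, -, -⟩ := hr 0 (by omega)
  have hall : ∃ j, ∀ n, n + 2 < k → ∃ a, p (n + 1) = Sum.inr (j, a) := by
    obtain ⟨j, a, hja⟩ := hr 0 (by omega)
    refine ⟨j, ?_⟩
    intro n
    induction n with
    | zero => intro _; exact ⟨a, hja⟩
    | succ n ih =>
      intro hn
      obtain ⟨a1, h1⟩ := ih (by omega)
      obtain ⟨j2, a2, h2⟩ := hr (n + 1) hn
      have hadj := L.adj (n + 1) (by omega)
      rw [h1, h2] at hadj
      have : j = j2 := hadj.1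
      subst this
      exact ⟨a2, h2⟩
  obtain ⟨j, hj⟩ := hall
  choose f hf using hj
  have hinj : Function.Injective
      (fun t : Fin (k - 2) => f t.1 (by have := t.2; omega)) := by
    intro s t hst
    have e1 := hf s.1 (by have := s.2; omega)
    have e2 := hf t.1 (by have := t.2; omega)
    simp only at hst
    rw [hst, ← e2] at e1
    have hs := s.2
    have ht := t.2
    have := p_inj L (by omega) (by omega) e1
    exact Fin.ext (by omega)
  have := Fintype.card_le_of_injective _ hinj
  simp only [Fintype.card_fin] at this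
  omega

/-- For every `k ≥ 4`, no orientation of `G_k` has exactly one directed path on `k` vertices. -/
theorem main (hk : 4 ≤ k) {D : Vt k → Vt k → Prop} (hD : IsOrientation (GK k) D) :
    ¬ OnePath D k := by
  intro h
  exact no_lev hk (reduction (by omega) (not_colorable (by omega)) hD h)

end Pool.Agent.R451.MinOr
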