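import Pool.Agent.R451.UnimodSmall
import Pool.Agent.R451.MaxLattice

/-!
A unimodular lattice in `ℚ^r`, `1 ≤ r ≤ 6`, contains a vector of norm one.
-/

open Matrix Finset

namespace Pool.Agent.R451.Lat

variable {r : ℕ}

open Pool.Agent.R451.Hermite

lemma exists_denominator (N : Submodule ℤ (Fin r → ℚ)) (hI : Integral N) (hF : Full N) :
    ∃ D : ℕ, 0 < D ∧ ∀ x ∈ N, ∀ i, IsZ ((D : ℚ) * x i) := by
  choose m hm hmN using fun i : Fin r => hF (Pi.single i 1)
  refine ⟨∏ i, m i, Finset.prod_pos fun i _ => hm i, ?_⟩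
  intro x hx i
  have h1 : IsZ (x ⬝ᵥ ((m i : ℤ) • (Pi.single i 1 : Fin r → ℚ))) := hI x hx _ (hmN i)
  rw [dot_zsmul, dotProduct_single_one] at h1
  obtain ⟨c, hc⟩ := Finset.dvd_prod_of_mem m (mem_univ i)
  rw [hc]
  have : ((m i * c : ℕ) : ℚ) * x i = ((c : ℤ) : ℚ) * ((m i : ℤ) * x i) := by push_cast; ring
  rw [this]
  exact (IsZ.int c).mul h1

theorem norm_one (hr : 1 ≤ r) (hr6 : r ≤ 6) (N : Submodule ℤ (Fin r → ℚ)) (hI : Integral N)
    (hF : Full N) (hD : dual N ≤ N) : ∃ f ∈ N, f ⬝ᵥ f = 1 := by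
  classical
  obtain ⟨D, hD0, hDN⟩ := exists_denominator N hI hF
  have hnoeth : IsNoetherian ℤ N := noeth_of_le D hD0 N hDN
  have hfin : Module.Finite ℤ N := inferInstance
  have htf : Module.IsTorsionFree ℤ N := inferInstance
  have hfree : Module.Free ℤ N := Module.free_of_finite_type_torsion_free'
  -- rank
  let b0 := Module.finBasis ℤ N
  have hli0 : LinearIndependent ℤ (fun i => (b0 i : Fin r → ℚ)) :=
    b0.linearIndependent.map' N.subtype (by simp)
  have hliQ : LinearIndependent ℚ (fun i => (b0 i : Fin r → ℚ)) :=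
    (LinearIndependent.iff_fractionRing ℤ ℚ).mp hli0
  have hspan : ⊤ ≤ Submodule.span ℚ (Set.range fun i => (b0 i : Fin r → ℚ)) := by
    intro x _
    obtain ⟨m, hm, hmx⟩ := hF x
    have h1 : (⟨_, hmx⟩ : N) = ∑ i, (b0.repr ⟨_, hmx⟩ i) • b0 i := (b0.sum_repr _).symm
    have h2 : (m : ℤ) • x = ∑ i, (b0.repr ⟨_, hmx⟩ i) • (b0 i : Fin r → ℚ) := by
      have h1' := congrArg N.subtype h1
      rw [map_sum] at h1'
      exact h1'
    have h3 : (m : ℤ) • x ∈ Submodule.span ℚ (Set.range fun i => (b0 i : Fin r → ℚ)) := by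
      rw [h2]
      refine Submodule.sum_mem _ fun i _ => ?_
      rw [← Int.cast_smul_eq_zsmul ℚ]
      exact Submodule.smul_mem _ _ (Submodule.subset_span ⟨i, rfl⟩)
    rw [← Int.cast_smul_eq_zsmul ℚ] at h3
    have hmq : ((m : ℤ) : ℚ) ≠ 0 := by exact_mod_cast hm.ne'
    exact (Submodule.smul_mem_iff _ hmq).mp h3
  let bQ := Module.Basis.mk hliQ hspan
  have hrank : Module.finrank ℤ N = r := by
    have h1 := Module.finrank_eq_card_basis bQ
    simpa using h1.symm
  let b := Module.finBasisOfFinrankEq ℤ N hrank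
  have hli : LinearIndependent ℤ (fun i => (b i : Fin r → ℚ)) :=
    b.linearIndependent.map' N.subtype (by simp)
  have hliQ' : LinearIndependent ℚ (fun i => (b i : Fin r → ℚ)) :=
    (LinearIndependent.iff_fractionRing ℤ ℚ).mp hli
  set B : Matrix (Fin r) (Fin r) ℚ := Matrix.of fun i j => (b i : Fin r → ℚ) j with hB
  have hBu : IsUnit B := by
    rw [← Matrix.linearIndependent_rows_iff_isUnit]
    exact hliQ'
  have hBdet : B.det ≠ 0 := by
    rw [Matrix.isUnit_iff_isUnit_det] at hBu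
    exact hBu.ne_zero
  have hBrow : ∀ i, B i = (b i : Fin r → ℚ) := fun i => rfl
  -- Gram matrix
  choose g hg using fun i j => hI (b i) (b i).2 (b j) (b j).2
  set G : Matrix (Fin r) (Fin r) ℤ := Matrix.of g with hG
  have hGB : toQ G = B * Bᵀ := by
    ext i j
    rw [Matrix.mul_apply]
    show ((g i j : ℤ) : ℚ) = _
    rw [hg i j]
    rfl
  have hPD : PD (toQ G) := by
    refine ⟨?_, ?_⟩
    · rw [hGB]
      unfold Matrix.IsSymm
      rw [Matrix.transpose_mul, Matrix.transpose_transpose]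
    · intro x hx
      have h1 : q (toQ G) x = (Bᵀ *ᵥ x) ⬝ᵥ (Bᵀ *ᵥ x) := by
        unfold q
        rw [hGB, ← Matrix.mulVec_mulVec, Matrix.dotProduct_mulVec, ← Matrix.mulVec_transpose]
      rw [h1]
      have h2 : Bᵀ *ᵥ x ≠ 0 := by
        intro h0
        apply hx
        refine Matrix.eq_zero_of_mulVec_eq_zero ?_ h0
        rw [Matrix.det_transpose]
        exact hBdet
      have h3 : 0 ≤ (Bᵀ *ᵥ x) ⬝ᵥ (Bᵀ *ᵥ x) := Finset.sum_nonneg fun i _ => mul_self_nonneg _
      rcases h3.lt_or_eq with h | h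
      · exact h
      · exact absurd (dotProduct_self_eq_zero.mp h.symm) h2
  -- coordinates
  have hcoord : ∀ y (hy : y ∈ N), y = Bᵀ *ᵥ (fun i => ((b.repr ⟨y, hy⟩ i : ℤ) : ℚ)) := by
    intro y hy
    have h1 : (⟨y, hy⟩ : N) = ∑ i, (b.repr ⟨y, hy⟩ i) • b i := (b.sum_repr _).symm
    have h2 : y = ∑ i, (b.repr ⟨y, hy⟩ i) • (b i : Fin r → ℚ) := by
      have h1' := congrArg N.subtype h1
      rw [map_sum] at h1'
      exact h1'
    conv_lhs => rw [h2]
    funext j
    rw [Finset.sum_apply]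
    simp only [mulVec, dotProduct, Matrix.transpose_apply, hB, Matrix.of_apply]
    refine sum_congr rfl fun i _ => ?_
    rw [← Int.cast_smul_eq_zsmul ℚ]
    simp [mul_comm]
  -- dual basis
  set C : Matrix (Fin r) (Fin r) ℚ := (Bᵀ)⁻¹ with hC
  have hCB : C * Bᵀ = 1 := Matrix.nonsing_inv_mul _ (by
    rw [Matrix.det_transpose]
    exact isUnit_iff_ne_zero.mpr hBdet)
  have hCN : ∀ i, C i ∈ N := by
    intro i
    apply hD
    intro y hy
    have h1 : C i ⬝ᵥ y = ((b.repr ⟨y, hy⟩ i : ℤ) : ℚ) := by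
      conv_lhs => rw [hcoord y hy]
      have h2 : C i ⬝ᵥ Bᵀ *ᵥ (fun i => ((b.repr ⟨y, hy⟩ i : ℤ) : ℚ)) =
          ((C * Bᵀ) *ᵥ (fun i => ((b.repr ⟨y, hy⟩ i : ℤ) : ℚ))) i := by
        rw [← Matrix.mulVec_mulVec]
        rfl
      rw [h2, hCB, Matrix.one_mulVec]
    rw [h1]
    exact IsZ.int _
  set P : Matrix (Fin r) (Fin r) ℤ := Matrix.of fun i j => b.repr ⟨C i, hCN i⟩ j with hP
  have hCP : C = toQ P * B := by
    ext i j
    have h1 := congrFun (hcoord (C i) (hCN i)) j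
    rw [h1, Matrix.mul_apply]
    simp only [mulVec, dotProduct, Matrix.transpose_apply]
    refine sum_congr rfl fun k _ => ?_
    rw [mul_comm]
    rfl
  have hPG : P * G = 1 := by
    have h1 : toQ (P * G) = 1 := by
      rw [toQ_mul, hGB, ← Matrix.mul_assoc, ← hCP, hCB]
    ext i j
    have h2 := congrFun (congrFun h1 i) j
    have h3 : (((P * G) i j : ℤ) : ℚ) = (1 : Matrix (Fin r) (Fin r) ℚ) i j := h2
    rw [Matrix.one_apply] at h3 ⊢
    split_ifs at h3 ⊢ <;> exact_mod_cast h3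
  have hdetG : G.det = 1 := by
    have h1 : P.det * G.det = 1 := by rw [← Matrix.det_mul, hPG, Matrix.det_one]
    have h2 : IsUnit G.det := IsUnit.of_mul_eq_one _ (by rw [mul_comm]; exact h1)
    have h3 : (0 : ℚ) < (G.det : ℚ) := by
      rw [← toQ_det, hGB, Matrix.det_mul, Matrix.det_transpose]
      exact mul_self_pos.mpr hBdet
    rcases Int.isUnit_iff.mp h2 with h | h
    · exact h
    · rw [h] at h3
      norm_num at h3
  obtain ⟨x, hx⟩ := exists_norm_one hr hr6 G hPD hdetG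
  refine ⟨∑ i, x i • (b i : Fin r → ℚ), ?_, ?_⟩
  · exact Submodule.sum_mem _ fun i _ => N.smul_mem _ (b i).2
  · have h1 : (∑ i, x i • (b i : Fin r → ℚ)) = Bᵀ *ᵥ cst x := by
      funext j
      rw [Finset.sum_apply]
      simp only [mulVec, dotProduct, Matrix.transpose_apply, hB, Matrix.of_apply, cst]
      refine sum_congr rfl fun i _ => ?_
      rw [← Int.cast_smul_eq_zsmul ℚ]
      simp [mul_comm]
    rw [h1]
    have h2 : q (toQ G) (cst x) = (Bᵀ *ᵥ cst x) ⬝ᵥ (Bᵀ *ᵥ cst x) := by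
      unfold q
      rw [hGB, ← Matrix.mulVec_mulVec, Matrix.dotProduct_mulVec, ← Matrix.mulVec_transpose]
    rw [← h2, hx]

end Pool.Agent.R451.Lat
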