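import Mathlib

set_option autoImplicit false

namespace Pool.Agent.R451.Sun42

/-- `m` is a power of four (`1` included). -/
def IsP4 (m : ℕ) : Prop := ∃ e : ℕ, m = 4 ^ e

/-- A constraint on the unknown remaining digits `(a, b, c)`: for `c = 0` the value
`x a + y b + z c` must vanish; for `c = k + 1` the number `k + (x a + y b + z c)` must be a power
of four. -/
structure Q where
  x : ℕ
  y : ℕ
  z : ℕ
  c : ℕ

def Q.Sat (q : Q) (a b c : ℕ) : Prop :=
  (q.c = 0 ∧ q.x * a + q.y * b + q.z * c = 0) ∨
    (∃ k, q.c = k + 1 ∧ IsP4 (k + (q.x * a + q.y * b + q.z * c)))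

def pushAux (x y z : ℕ) (t : ℕ) (acc : List Q) : List Q :=
  match t with
  | 0 => ⟨x, y, z, 1⟩ :: acc
  | n + 1 =>
    bif Nat.beq (Nat.mod (Nat.succ n) 4) 0 then ⟨x, y, z, Nat.succ (Nat.div (Nat.succ n) 4)⟩ :: acc
    else bif Nat.beq n 0 then ⟨x, y, z, 0⟩ :: acc else acc

def Q.push (q : Q) (d e f : ℕ) (acc : List Q) : List Q :=
  match q with
  | ⟨x, y, z, c⟩ =>
    match c with
    | 0 => bif Nat.beq (Nat.add (Nat.add (Nat.mul x d) (Nat.mul y e)) (Nat.mul z f)) 0 then
        ⟨x, y, z, 0⟩ :: acc else acc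
    | k + 1 => pushAux x y z (Nat.add k (Nat.add (Nat.add (Nat.mul x d) (Nat.mul y e))
        (Nat.mul z f))) acc

def stepCl (d e f : ℕ) : List Q → List Q
  | [] => []
  | q :: qs => match stepCl d e f qs with
    | [] => q.push d e f []
    | h :: t => q.push d e f (h :: t)

def stepAll (d e f : ℕ) : List (List Q) → Option (List (List Q))
  | [] => some []
  | cl :: cls => match stepCl d e f cl with
    | [] => none
    | h :: t => match stepAll d e f cls with
      | none => none
      | some r => some ((h :: t) :: r)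

def beqQ (p q : Q) : Bool :=
  and (Nat.beq p.c q.c) (and (Nat.beq p.z q.z) (and (Nat.beq p.y q.y) (Nat.beq p.x q.x)))

def beqCl : List Q → List Q → Bool
  | [], [] => true
  | p :: ps, q :: qs => and (beqQ p q) (beqCl ps qs)
  | _, _ => false

def beqCls : List (List Q) → List (List Q) → Bool
  | [], [] => true
  | p :: ps, q :: qs => and (beqCl p q) (beqCls ps qs)
  | _, _ => false

abbrev Tr := ℕ × ℕ × ℕ

def beqTr (p q : Tr) : Bool :=
  and (Nat.beq p.1 q.1) (and (Nat.beq p.2.1 q.2.1) (Nat.beq p.2.2 q.2.2))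

def beqW : List Tr → List Tr → Bool
  | [], [] => true
  | p :: ps, q :: qs => and (beqTr p q) (beqW ps qs)
  | _, _ => false

def stepW (d e f : ℕ) : List Tr → List Tr
  | [] => []
  | w :: ws => match stepW d e f ws with
    | [] => bif beqTr (Nat.mod w.1 4, Nat.mod w.2.1 4, Nat.mod w.2.2 4) (d, e, f) then
        [(Nat.div w.1 4, Nat.div w.2.1 4, Nat.div w.2.2 4)] else []
    | h :: t => bif beqTr (Nat.mod w.1 4, Nat.mod w.2.1 4, Nat.mod w.2.2 4) (d, e, f) then
        (Nat.div w.1 4, Nat.div w.2.1 4, Nat.div w.2.2 4) :: h :: t else h :: t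

structure St where
  /-- first coordinate finished -/
  fa : Bool
  /-- second coordinate: 0 finished, 1 twice it must be a power of four, otherwise free -/
  fb : ℕ
  pb : Bool
  pc : Bool
  cls : List (List Q)
  W : List Tr

def St.Sat (S : St) (a b c : ℕ) : Prop :=
  (S.fa = true → a = 0) ∧ (S.fa = false → IsP4 a) ∧ (S.fb = 0 → b = 0) ∧
  (S.fb = 1 → IsP4 (2 * b)) ∧ (S.pb = true ∨ 0 < b) ∧ (S.pc = true ∨ 0 < c) ∧
  (∀ cl ∈ S.cls, ∃ q ∈ cl, q.Sat a b c) ∧ (a, b, c) ∉ S.W

def St.step (S : St) (d e f : ℕ) : Option St :=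
  match stepAll d e f S.cls with
  | none => none
  | some r => some ⟨or S.fa (Nat.beq d 1), bif Nat.beq S.fb 1 && Nat.beq e 2 then 0 else S.fb,
      or S.pb (not (Nat.beq e 0)), or S.pc (not (Nat.beq f 0)), r, stepW d e f S.W⟩

def isP4b (k : ℕ) : Bool :=
  or (Nat.beq k 1) (or (Nat.beq k 4) (or (Nat.beq k 16) (or (Nat.beq k 64)
    (or (Nat.beq k 256) (Nat.ble 1024 k)))))

def accQ (q : Q) : Bool :=
  match q with
  | ⟨_, _, _, c⟩ => match c with
    | 0 => true
    | k + 1 => isP4b k

def accCl : List Q → Bool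
  | [] => false
  | q :: qs => or (accQ q) (accCl qs)

def accCls : List (List Q) → Bool
  | [] => true
  | q :: qs => and (accCl q) (accCls qs)

def memW : List Tr → Bool
  | [] => false
  | w :: ws => or (beqTr w (0, 0, 0)) (memW ws)

/-- the remaining digits may be all zero -/
def St.acc (S : St) : Bool :=
  and S.fa (and (not (Nat.beq S.fb 1)) (and S.pb (and S.pc (and (accCls S.cls) (not (memW S.W))))))

def beqSt (S T : St) : Bool :=
  and (S.fa == T.fa) (and (Nat.beq S.fb T.fb) (and (S.pb == T.pb) (and (S.pc == T.pc)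
    (and (beqCls S.cls T.cls) (beqW S.W T.W)))))

def memSt (S : St) : List St → Bool
  | [] => false
  | T :: Ts => or (beqSt S T) (memSt S Ts)

def St.da (S : St) : List ℕ := bif S.fa then [0] else [0, 1]

def St.db (S : St) : List ℕ :=
  match S.fb with
  | 0 => [0]
  | 1 => [0, 2]
  | _ => [0, 1, 2, 3]

def allL (p : ℕ → Bool) : List ℕ → Bool
  | [] => true
  | x :: xs => and (p x) (allL p xs)

/-- Explore all continuations of a state; `true` means that no continuation satisfies the
state. -/
def explore : ℕ → List St → St → Bool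
  | 0, _, _ => false
  | n + 1, path, S =>
    and (not S.acc) (allL (fun d => allL (fun e => allL (fun f =>
      match S.step d e f with
      | none => true
      | some S' => or (memSt S' (S :: path)) (explore n (S :: path) S')) [0, 1, 2, 3]) S.db) S.da)

/-- Start the exploration with the first digit `(d, e, f)`. -/
def start (n : ℕ) (S : St) (d e f : ℕ) : Bool :=
  match S.step d e f with
  | none => true
  | some S' => explore n [] S'


/-! ### Soundness -/

theorem isP4b_of {k : ℕ} (h : IsP4 k) : isP4b k = true := by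
  obtain ⟨e, rfl⟩ := h
  have h5 : e < 5 ∨ 5 ≤ e := by omega
  rcases h5 with h5 | h5
  · interval_cases e <;> decide
  · have : 4 ^ 5 ≤ 4 ^ e := Nat.pow_le_pow_right (by norm_num) h5
    have h2 : Nat.ble 1024 (4 ^ e) = true := by
      rw [Nat.ble_eq]; norm_num at this; exact this
    simp [isP4b, h2]

theorem accQ_of {q : Q} (h : q.Sat 0 0 0) : accQ q = true := by
  obtain ⟨x, y, z, c⟩ := q
  rcases h with h | ⟨k, hk, h⟩
  · simp only at h
    obtain ⟨rfl, _⟩ := h
    rfl
  · simp only at hk
    subst hk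
    simp only [Nat.mul_zero, Nat.add_zero] at h
    exact isP4b_of h

theorem accCl_of {cl : List Q} (h : ∃ q ∈ cl, q.Sat 0 0 0) : accCl cl = true := by
  induction cl with
  | nil => obtain ⟨q, hq, _⟩ := h; simp at hq
  | cons p ps ih =>
    obtain ⟨q, hq, hs⟩ := h
    rcases List.mem_cons.1 hq with rfl | hq
    · simp [accCl, accQ_of hs]
    · simp [accCl, ih ⟨q, hq, hs⟩]

theorem accCls_of {cls : List (List Q)} (h : ∀ cl ∈ cls, ∃ q ∈ cl, q.Sat 0 0 0) :
    accCls cls = true := by
  induction cls with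
  | nil => rfl
  | cons p ps ih =>
    simp only [accCls, Bool.and_eq_true]
    exact ⟨accCl_of (h p (by simp)), ih fun cl hcl => h cl (by simp [hcl])⟩

theorem beqTr_iff {p q : Tr} : beqTr p q = true ↔ p = q := by
  obtain ⟨a, b, c⟩ := p
  obtain ⟨a', b', c'⟩ := q
  simp [beqTr]

theorem memW_iff {W : List Tr} : memW W = true ↔ (0, 0, 0) ∈ W := by
  induction W with
  | nil => simp [memW]
  | cons w ws ih =>
    simp only [memW, Bool.or_eq_true, beqTr_iff, ih, List.mem_cons]
    exact or_congr_left eq_comm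

theorem mem_pushAux {x y z t : ℕ} {acc : List Q} {r : Q} (h : r ∈ acc) :
    r ∈ pushAux x y z t acc := by
  unfold pushAux
  split
  · simp [h]
  · rename_i n
    cases h1 : Nat.beq (Nat.mod (Nat.succ n) 4) 0 with
    | true => simp [h]
    | false =>
      cases h2 : Nat.beq n 0 with
      | true => simp [h]
      | false => simpa using h

theorem mem_push {q : Q} {d e f : ℕ} {acc : List Q} {r : Q} (h : r ∈ acc) :
    r ∈ q.push d e f acc := by
  obtain ⟨x, y, z, c⟩ := q
  cases c with
  | zero =>
    show r ∈ (bif Nat.beq (Nat.add (Nat.add (Nat.mul x d) (Nat.mul y e)) (Nat.mul z f)) 0 then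
        (⟨x, y, z, 0⟩ : Q) :: acc else acc)
    cases Nat.beq (Nat.add (Nat.add (Nat.mul x d) (Nat.mul y e)) (Nat.mul z f)) 0
    · simpa using h
    · simp [h]
  | succ k => exact mem_pushAux h

theorem pushAux_sat {x y z t a b c : ℕ} {acc : List Q}
    (h : IsP4 (t + 4 * (x * a + y * b + z * c))) :
    ∃ q ∈ pushAux x y z t acc, q.Sat a b c := by
  obtain ⟨m, hm⟩ := h
  set v := x * a + y * b + z * c with hv
  cases m with
  | zero =>
    have h1 : t = 1 := by simp at hm; omega
    have h2 : v = 0 := by simp at hm; omega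
    subst h1
    refine ⟨⟨x, y, z, 0⟩, ?_, Or.inl ⟨rfl, ?_⟩⟩
    · show (⟨x, y, z, 0⟩ : Q) ∈ (⟨x, y, z, 0⟩ : Q) :: acc
      simp
    · simpa [hv] using h2
  | succ m =>
    have h1 : t % 4 = 0 := by rw [pow_succ] at hm; omega
    have h2 : t / 4 + v = 4 ^ m := by rw [pow_succ] at hm; omega
    cases t with
    | zero =>
      refine ⟨⟨x, y, z, 1⟩, ?_, Or.inr ⟨0, rfl, m, ?_⟩⟩
      · simp [pushAux]
      · simpa using h2
    | succ n =>
      have h3 : Nat.beq (Nat.mod (Nat.succ n) 4) 0 = true := by
        rw [Nat.beq_eq]; exact h1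
      refine ⟨⟨x, y, z, Nat.succ (Nat.div (Nat.succ n) 4)⟩, ?_, Or.inr ⟨(n + 1) / 4, rfl, m, ?_⟩⟩
      · unfold pushAux
        simp only [h3, cond_true]
        simp
      · exact h2

theorem push_sat {q : Q} {d e f a b c : ℕ} {acc : List Q}
    (h : q.Sat (d + 4 * a) (e + 4 * b) (f + 4 * c)) :
    ∃ r ∈ q.push d e f acc, r.Sat a b c := by
  obtain ⟨x, y, z, k⟩ := q
  have key : x * (d + 4 * a) + y * (e + 4 * b) + z * (f + 4 * c) =
      (x * d + y * e + z * f) + 4 * (x * a + y * b + z * c) := by ring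
  rcases h with ⟨h1, h2⟩ | ⟨k', h1, h2⟩
  · simp only at h1 h2
    subst h1
    rw [key] at h2
    have h3 : x * d + y * e + z * f = 0 := by omega
    have h4 : x * a + y * b + z * c = 0 := by omega
    have h5 : Nat.beq (Nat.add (Nat.add (Nat.mul x d) (Nat.mul y e)) (Nat.mul z f)) 0 = true := by
      rw [Nat.beq_eq]; exact h3
    refine ⟨⟨x, y, z, 0⟩, ?_, Or.inl ⟨rfl, h4⟩⟩
    show (⟨x, y, z, 0⟩ : Q) ∈ (bif Nat.beq (Nat.add (Nat.add (Nat.mul x d) (Nat.mul y e))
      (Nat.mul z f)) 0 then (⟨x, y, z, 0⟩ : Q) :: acc else acc)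
    rw [h5]
    simp
  · simp only at h1 h2
    subst h1
    rw [key] at h2
    have h3 : IsP4 ((k' + (x * d + y * e + z * f)) + 4 * (x * a + y * b + z * c)) := by
      rw [add_assoc]; exact h2
    exact pushAux_sat h3

theorem stepCl_sat {cl : List Q} {d e f a b c : ℕ}
    (h : ∃ q ∈ cl, q.Sat (d + 4 * a) (e + 4 * b) (f + 4 * c)) :
    ∃ q ∈ stepCl d e f cl, q.Sat a b c := by
  induction cl with
  | nil => obtain ⟨q, hq, _⟩ := h; simp at hq
  | cons p ps ih =>
    have e1 : stepCl d e f (p :: ps) = p.push d e f (stepCl d e f ps) := by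
      rw [stepCl]
      split
      · rename_i h; rw [h]
      · rename_i h; rw [h]
    rw [e1]
    obtain ⟨q, hq, hs⟩ := h
    rcases List.mem_cons.1 hq with rfl | hq
    · exact push_sat hs
    · obtain ⟨r, hr, hrs⟩ := ih ⟨q, hq, hs⟩
      exact ⟨r, mem_push hr, hrs⟩

theorem stepAll_sat {cls : List (List Q)} {d e f a b c : ℕ}
    (h : ∀ cl ∈ cls, ∃ q ∈ cl, q.Sat (d + 4 * a) (e + 4 * b) (f + 4 * c)) :
    ∃ r, stepAll d e f cls = some r ∧ ∀ cl ∈ r, ∃ q ∈ cl, q.Sat a b c := by
  induction cls with
  | nil => exact ⟨[], rfl, by simp⟩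
  | cons p ps ih =>
    obtain ⟨r, hr, hrs⟩ := ih fun cl hcl => h cl (by simp [hcl])
    obtain ⟨q, hq, hqs⟩ := stepCl_sat (h p (by simp))
    cases hc : stepCl d e f p with
    | nil => rw [hc] at hq; simp at hq
    | cons u t =>
      refine ⟨(u :: t) :: r, ?_, ?_⟩
      · simp [stepAll, hc, hr]
      · intro cl hcl
        rcases List.mem_cons.1 hcl with rfl | hcl
        · exact ⟨q, hc ▸ hq, hqs⟩
        · exact hrs cl hcl

theorem mem_stepW {W : List Tr} {d e f a b c : ℕ}
    (h : (a, b, c) ∈ stepW d e f W) : (d + 4 * a, e + 4 * b, f + 4 * c) ∈ W := by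
  induction W with
  | nil => simp [stepW] at h
  | cons w ws ih =>
    obtain ⟨w1, w2, w3⟩ := w
    have e1 : stepW d e f ((w1, w2, w3) :: ws) =
        bif beqTr (w1 % 4, w2 % 4, w3 % 4) (d, e, f) then
          (w1 / 4, w2 / 4, w3 / 4) :: stepW d e f ws else stepW d e f ws := by
      rw [stepW]
      split
      · rename_i h; rw [h]; rfl
      · rename_i h; rw [h]; rfl
    rw [e1] at h
    cases hb : beqTr (w1 % 4, w2 % 4, w3 % 4) (d, e, f) with
    | false =>
      rw [hb] at h
      exact List.mem_cons_of_mem _ (ih h)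
    | true =>
      rw [hb] at h
      simp only [cond_true, List.mem_cons] at h
      rcases h with h | h
      · rw [beqTr_iff] at hb
        simp only [Prod.mk.injEq] at hb h
        obtain ⟨h1, h2, h3⟩ := hb
        obtain ⟨g1, g2, g3⟩ := h
        have : ((d + 4 * a, e + 4 * b, f + 4 * c) : Tr) = (w1, w2, w3) := by
          simp only [Prod.mk.injEq]; omega
        rw [this]; simp
      · exact List.mem_cons_of_mem _ (ih h)

theorem isP4_split {d a : ℕ} (hd : d < 4) (h : IsP4 (d + 4 * a)) :
    (d = 1 ∧ a = 0) ∨ (d = 0 ∧ IsP4 a) := by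
  obtain ⟨m, hm⟩ := h
  cases m with
  | zero => simp at hm; omega
  | succ m => rw [pow_succ] at hm; exact Or.inr ⟨by omega, m, by omega⟩

theorem isP4_split2 {e b : ℕ} (he : e < 4) (h : IsP4 (2 * (e + 4 * b))) :
    (e = 2 ∧ b = 0) ∨ (e = 0 ∧ IsP4 (2 * b)) := by
  obtain ⟨m, hm⟩ := h
  cases m with
  | zero => simp at hm
  | succ m =>
    cases m with
    | zero => simp at hm; omega
    | succ m =>
      rw [pow_succ, pow_succ] at hm
      exact Or.inr ⟨by omega, m + 1, by rw [pow_succ]; omega⟩

theorem step_sat {S : St} {d e f a b c : ℕ} (hd : d < 4) (he : e < 4) (hf : f < 4)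
    (h : S.Sat (d + 4 * a) (e + 4 * b) (f + 4 * c)) :
    ∃ S', S.step d e f = some S' ∧ S'.Sat a b c := by
  obtain ⟨h1, h2, h3, h4, h5, h6, h7, h8⟩ := h
  obtain ⟨r, hr, hrs⟩ := stepAll_sat h7
  refine ⟨_, by rw [St.step, hr], ?_⟩
  refine ⟨?_, ?_, ?_, ?_, ?_, ?_, hrs, ?_⟩
  · intro h
    simp only [Bool.or_eq_true, Nat.beq_eq] at h
    rcases h with h | h
    · have := h1 h; omega
    · cases hfa : S.fa with
      | true => have := h1 hfa; omega
      | false =>
        rcases isP4_split hd (h2 hfa) with h' | h'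
        · exact h'.2
        · omega
  · intro h
    simp only [Bool.or_eq_false_iff] at h
    obtain ⟨hfa, hb⟩ := h
    rcases isP4_split hd (h2 hfa) with h' | h'
    · rw [h'.1] at hb
      exact absurd hb (by decide)
    · exact h'.2
  · intro h
    simp only at h
    cases hb : (Nat.beq S.fb 1 && Nat.beq e 2) with
    | true =>
      simp only [Bool.and_eq_true, Nat.beq_eq] at hb
      rcases isP4_split2 he (h4 hb.1) with h' | h'
      · exact h'.2
      · omega
    | false =>
      rw [hb] at h
      have := h3 h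
      omega
  · intro h
    simp only at h
    cases hb : (Nat.beq S.fb 1 && Nat.beq e 2) with
    | true => rw [hb] at h; simp at h
    | false =>
      rw [hb] at h
      simp only [cond_false] at h
      rcases isP4_split2 he (h4 h) with h' | h'
      · rw [h, h'.1] at hb; exact absurd hb (by decide)
      · exact h'.2
  · show (or S.pb (not (Nat.beq e 0))) = true ∨ 0 < b
    rcases h5 with h5 | h5
    · left; rw [h5]; rfl
    · by_cases he0 : e = 0
      · right; omega
      · left
        have : Nat.beq e 0 = false := by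
          cases h : Nat.beq e 0 with
          | false => rfl
          | true => exact absurd (Nat.beq_eq.mp h) he0
        rw [this]; simp
  · show (or S.pc (not (Nat.beq f 0))) = true ∨ 0 < c
    rcases h6 with h6 | h6
    · left; rw [h6]; rfl
    · by_cases hf0 : f = 0
      · right; omega
      · left
        have : Nat.beq f 0 = false := by
          cases h : Nat.beq f 0 with
          | false => rfl
          | true => exact absurd (Nat.beq_eq.mp h) hf0
        rw [this]; simp
  · exact fun h => h8 (mem_stepW h)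

theorem beqQ_iff {p q : Q} : beqQ p q = true ↔ p = q := by
  obtain ⟨a, b, c, d⟩ := p
  obtain ⟨a', b', c', d'⟩ := q
  simp only [beqQ, Bool.and_eq_true, Nat.beq_eq, Q.mk.injEq]
  tauto

theorem beqCl_eq : ∀ {p q : List Q}, beqCl p q = true → p = q
  | [], [], _ => rfl
  | a :: as, b :: bs, h => by
    simp only [beqCl, Bool.and_eq_true, beqQ_iff] at h
    rw [h.1, beqCl_eq h.2]
  | [], _ :: _, h => by simp [beqCl] at h
  | _ :: _, [], h => by simp [beqCl] at h

theorem beqCls_eq : ∀ {p q : List (List Q)}, beqCls p q = true → p = q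
  | [], [], _ => rfl
  | a :: as, b :: bs, h => by
    simp only [beqCls, Bool.and_eq_true] at h
    rw [beqCl_eq h.1, beqCls_eq h.2]
  | [], _ :: _, h => by simp [beqCls] at h
  | _ :: _, [], h => by simp [beqCls] at h

theorem beqW_eq : ∀ {p q : List Tr}, beqW p q = true → p = q
  | [], [], _ => rfl
  | a :: as, b :: bs, h => by
    simp only [beqW, Bool.and_eq_true, beqTr_iff] at h
    rw [h.1, beqW_eq h.2]
  | [], _ :: _, h => by simp [beqW] at h
  | _ :: _, [], h => by simp [beqW] at h

theorem beqSt_eq {S T : St} (h : beqSt S T = true) : S = T := by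
  obtain ⟨a, b, c, d, e, f⟩ := S
  obtain ⟨a', b', c', d', e', f'⟩ := T
  simp only [beqSt, Bool.and_eq_true, beq_iff_eq, Nat.beq_eq] at h
  obtain ⟨h1, h2, h3, h4, h5, h6⟩ := h
  rw [h1, h2, h3, h4, beqCls_eq h5, beqW_eq h6]

theorem memSt_iff {S : St} {l : List St} (h : memSt S l = true) : S ∈ l := by
  induction l with
  | nil => simp [memSt] at h
  | cons T Ts ih =>
    simp only [memSt, Bool.or_eq_true] at h
    rcases h with h | h
    · rw [beqSt_eq h]; simp
    · exact List.mem_cons_of_mem _ (ih h)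

theorem allL_iff {p : ℕ → Bool} {l : List ℕ} (h : allL p l = true) : ∀ x ∈ l, p x = true := by
  induction l with
  | nil => simp
  | cons y ys ih =>
    simp only [allL, Bool.and_eq_true] at h
    intro x hx
    rcases List.mem_cons.1 hx with rfl | hx
    · exact h.1
    · exact ih h.2 x hx

theorem mem_da {S : St} {d a b c : ℕ} (hd : d < 4) (h : S.Sat (d + 4 * a) b c) : d ∈ S.da := by
  unfold St.da
  cases hfa : S.fa with
  | true => have := h.1 hfa; simp; omega
  | false =>
    rcases isP4_split hd (h.2.1 hfa) with h' | h' <;> simp [h'.1]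

theorem mem_db {S : St} {e a b c : ℕ} (he : e < 4) (h : S.Sat a (e + 4 * b) c) : e ∈ S.db := by
  unfold St.db
  split
  · rename_i h0; have := h.2.2.1 h0; simp; omega
  · rename_i h0
    rcases isP4_split2 he (h.2.2.2.1 h0) with h' | h' <;> simp [h'.1]
  · simp; omega

theorem acc_of_sat {S : St} (h : S.Sat 0 0 0) : S.acc = true := by
  obtain ⟨h1, h2, h3, h4, h5, h6, h7, h8⟩ := h
  unfold St.acc
  have a1 : S.fa = true := by
    cases hfa : S.fa with
    | true => rfl
    | false =>
      obtain ⟨e, he⟩ := h2 hfa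
      have : 0 < 4 ^ e := by positivity
      omega
  have a2 : Nat.beq S.fb 1 = false := by
    cases hb : Nat.beq S.fb 1 with
    | false => rfl
    | true =>
      obtain ⟨e, he⟩ := h4 (Nat.beq_eq.mp hb)
      have : 0 < 4 ^ e := by positivity
      omega
  have a3 : S.pb = true := by rcases h5 with h | h; exact h; omega
  have a4 : S.pc = true := by rcases h6 with h | h; exact h; omega
  have a5 : memW S.W = false := by
    cases hb : memW S.W with
    | false => rfl
    | true => exact absurd (memW_iff.1 hb) h8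
  rw [a1, a2, a3, a4, accCls_of h7, a5]
  rfl

theorem explore_sound : ∀ (n : ℕ) (path : List St) (S : St), explore n path S = true →
    ∀ N a b c : ℕ, a + b + c = N →
    (∀ A ∈ path, ∀ a' b' c' : ℕ, a' + b' + c' < N → ¬ A.Sat a' b' c') → ¬ S.Sat a b c := by
  intro n
  induction n with
  | zero => intro path S h; simp [explore] at h
  | succ n ih =>
    intro path S hE N
    induction N using Nat.strong_induction_on with
    | _ N IH =>
      intro a b c hN hp hS
      have hE' := hE
      rw [explore, Bool.and_eq_true] at hE'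
      obtain ⟨hacc, hall⟩ := hE'
      by_cases h0 : a = 0 ∧ b = 0 ∧ c = 0
      · obtain ⟨rfl, rfl, rfl⟩ := h0
        rw [acc_of_sat hS] at hacc
        exact absurd hacc (by decide)
      · have ea : a = a % 4 + 4 * (a / 4) := by omega
        have eb : b = b % 4 + 4 * (b / 4) := by omega
        have ec : c = c % 4 + 4 * (c / 4) := by omega
        have hlt : a / 4 + b / 4 + c / 4 < N := by omega
        rw [ea, eb, ec] at hS
        have hd : a % 4 ∈ S.da := mem_da (Nat.mod_lt _ (by norm_num)) hS
        have he : b % 4 ∈ S.db := mem_db (Nat.mod_lt _ (by norm_num)) hS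
        have hf : c % 4 ∈ ([0, 1, 2, 3] : List ℕ) := by
          have : c % 4 < 4 := Nat.mod_lt _ (by norm_num)
          simp; omega
        have hstep := allL_iff (allL_iff (allL_iff hall _ hd) _ he) _ hf
        obtain ⟨S', hS', hs⟩ := step_sat (Nat.mod_lt _ (by norm_num)) (Nat.mod_lt _ (by norm_num))
          (Nat.mod_lt _ (by norm_num)) hS
        simp only [hS', Bool.or_eq_true] at hstep
        rcases hstep with hm | hx
        · rcases List.mem_cons.1 (memSt_iff hm) with hm | hm
          · rw [hm] at hs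
            exact IH _ hlt _ _ _ rfl (fun A hA a' b' c' h => hp A hA a' b' c' (by omega)) hs
          · exact hp S' hm _ _ _ hlt hs
        · refine ih (S :: path) S' hx _ _ _ _ rfl ?_ hs
          intro A hA a' b' c' hlt'
          rcases List.mem_cons.1 hA with rfl | hA
          · exact IH _ (by omega) _ _ _ rfl
              (fun B hB a'' b'' c'' h => hp B hB a'' b'' c'' (by omega))
          · exact hp A hA a' b' c' (by omega)

theorem start_sound {n : ℕ} {S : St} {d e f : ℕ} (hd : d < 4) (he : e < 4) (hf : f < 4)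
    (h : start n S d e f = true) (a b c : ℕ) : ¬ S.Sat (d + 4 * a) (e + 4 * b) (f + 4 * c) := by
  intro hS
  obtain ⟨S', hS', hs⟩ := step_sat hd he hf hS
  rw [start, hS'] at h
  exact explore_sound n [] S' h _ a b c rfl (by simp) hs

end Pool.Agent.R451.Sun42
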