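import Pool.Agent.R451.Sun42

set_option autoImplicit false

namespace Pool.Agent.R451.Sun42

def L3 : List Q := [⟨0,1,2,1⟩, ⟨0,2,1,1⟩, ⟨0,2,2,1⟩, ⟨1,0,2,1⟩, ⟨1,2,0,1⟩, ⟨1,2,2,1⟩, ⟨2,0,1,1⟩,
  ⟨2,0,2,1⟩, ⟨2,1,0,1⟩, ⟨2,1,2,1⟩, ⟨2,2,0,1⟩, ⟨2,2,1,1⟩]

def L6 : List Q := [⟨0,2,4,1⟩, ⟨0,4,2,1⟩, ⟨0,4,4,1⟩, ⟨1,1,3,1⟩, ⟨1,1,5,1⟩, ⟨1,3,1,1⟩, ⟨1,3,5,1⟩,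
  ⟨1,5,1,1⟩, ⟨1,5,3,1⟩, ⟨2,0,4,1⟩, ⟨2,4,0,1⟩, ⟨2,4,4,1⟩, ⟨3,1,1,1⟩, ⟨3,1,5,1⟩, ⟨3,5,1,1⟩,
  ⟨4,0,2,1⟩, ⟨4,0,4,1⟩, ⟨4,2,0,1⟩, ⟨4,2,4,1⟩, ⟨4,4,0,1⟩, ⟨4,4,2,1⟩, ⟨5,1,1,1⟩, ⟨5,1,3,1⟩,
  ⟨5,3,1,1⟩]

def L7 : List Q := [⟨0,0,7,1⟩, ⟨0,2,3,1⟩, ⟨0,2,6,1⟩, ⟨0,3,2,1⟩, ⟨0,6,2,1⟩, ⟨0,7,0,1⟩, ⟨1,4,4,1⟩,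
  ⟨2,0,3,1⟩, ⟨2,0,6,1⟩, ⟨2,2,4,1⟩, ⟨2,2,5,1⟩, ⟨2,3,0,1⟩, ⟨2,3,6,1⟩, ⟨2,4,2,1⟩, ⟨2,4,5,1⟩,
  ⟨2,5,2,1⟩, ⟨2,5,4,1⟩, ⟨2,6,0,1⟩, ⟨2,6,3,1⟩, ⟨3,0,2,1⟩, ⟨3,2,0,1⟩, ⟨3,2,6,1⟩, ⟨3,6,2,1⟩,
  ⟨4,1,4,1⟩, ⟨4,2,2,1⟩, ⟨4,2,5,1⟩, ⟨4,4,1,1⟩, ⟨4,4,4,1⟩, ⟨4,5,2,1⟩, ⟨5,2,2,1⟩, ⟨5,2,4,1⟩,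
  ⟨5,4,2,1⟩, ⟨6,0,2,1⟩, ⟨6,2,0,1⟩, ⟨6,2,3,1⟩, ⟨6,3,2,1⟩, ⟨7,0,0,1⟩]

def L11 : List Q := [⟨0,0,11,1⟩, ⟨0,2,6,1⟩, ⟨0,2,9,1⟩, ⟨0,6,2,1⟩, ⟨0,6,7,1⟩, ⟨0,7,6,1⟩, ⟨0,9,2,1⟩,
  ⟨0,11,0,1⟩, ⟨1,2,4,1⟩, ⟨1,2,10,1⟩, ⟨1,4,2,1⟩, ⟨1,4,10,1⟩, ⟨1,10,2,1⟩, ⟨1,10,4,1⟩, ⟨2,0,6,1⟩,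
  ⟨2,0,9,1⟩, ⟨2,1,4,1⟩, ⟨2,1,10,1⟩, ⟨2,2,7,1⟩, ⟨2,2,8,1⟩, ⟨2,4,1,1⟩, ⟨2,4,10,1⟩, ⟨2,6,0,1⟩,
  ⟨2,6,9,1⟩, ⟨2,7,2,1⟩, ⟨2,7,8,1⟩, ⟨2,8,2,1⟩, ⟨2,8,7,1⟩, ⟨2,9,0,1⟩, ⟨2,9,6,1⟩, ⟨2,10,1,1⟩,
  ⟨2,10,4,1⟩, ⟨4,1,2,1⟩, ⟨4,1,10,1⟩, ⟨4,2,1,1⟩, ⟨4,2,10,1⟩, ⟨4,4,5,1⟩, ⟨4,4,8,1⟩, ⟨4,5,4,1⟩,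
  ⟨4,5,8,1⟩, ⟨4,8,4,1⟩, ⟨4,8,5,1⟩, ⟨4,10,1,1⟩, ⟨4,10,2,1⟩, ⟨5,4,4,1⟩, ⟨5,4,8,1⟩, ⟨5,8,4,1⟩,
  ⟨6,0,2,1⟩, ⟨6,0,7,1⟩, ⟨6,2,0,1⟩, ⟨6,2,9,1⟩, ⟨6,6,7,1⟩, ⟨6,7,0,1⟩, ⟨6,7,6,1⟩, ⟨6,9,2,1⟩,
  ⟨7,0,6,1⟩, ⟨7,2,2,1⟩, ⟨7,2,8,1⟩, ⟨7,6,0,1⟩, ⟨7,6,6,1⟩, ⟨7,8,2,1⟩, ⟨8,2,2,1⟩, ⟨8,2,7,1⟩,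
  ⟨8,4,4,1⟩, ⟨8,4,5,1⟩, ⟨8,5,4,1⟩, ⟨8,7,2,1⟩, ⟨9,0,2,1⟩, ⟨9,2,0,1⟩, ⟨9,2,6,1⟩, ⟨9,6,2,1⟩,
  ⟨10,1,2,1⟩, ⟨10,1,4,1⟩, ⟨10,2,1,1⟩, ⟨10,2,4,1⟩, ⟨10,4,1,1⟩, ⟨10,4,2,1⟩, ⟨11,0,0,1⟩]

def L15 : List Q := [⟨0,2,5,1⟩, ⟨0,2,10,1⟩, ⟨0,2,11,1⟩, ⟨0,2,14,1⟩, ⟨0,5,2,1⟩, ⟨0,5,10,1⟩,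
  ⟨0,5,14,1⟩, ⟨0,10,2,1⟩, ⟨0,10,5,1⟩, ⟨0,10,10,1⟩, ⟨0,10,11,1⟩, ⟨0,11,2,1⟩, ⟨0,11,10,1⟩,
  ⟨0,14,2,1⟩, ⟨0,14,5,1⟩, ⟨1,4,8,1⟩, ⟨1,4,12,1⟩, ⟨1,8,4,1⟩, ⟨1,8,12,1⟩, ⟨1,12,4,1⟩, ⟨1,12,8,1⟩,
  ⟨2,0,5,1⟩, ⟨2,0,10,1⟩, ⟨2,0,11,1⟩, ⟨2,0,14,1⟩, ⟨2,3,4,1⟩, ⟨2,3,14,1⟩, ⟨2,4,3,1⟩, ⟨2,4,6,1⟩,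
  ⟨2,4,13,1⟩, ⟨2,4,14,1⟩, ⟨2,5,0,1⟩, ⟨2,5,14,1⟩, ⟨2,6,4,1⟩, ⟨2,6,8,1⟩, ⟨2,6,11,1⟩, ⟨2,6,13,1⟩,
  ⟨2,8,6,1⟩, ⟨2,8,11,1⟩, ⟨2,10,0,1⟩, ⟨2,10,11,1⟩, ⟨2,11,0,1⟩, ⟨2,11,6,1⟩, ⟨2,11,8,1⟩, ⟨2,11,10,1⟩,
  ⟨2,13,4,1⟩, ⟨2,13,6,1⟩, ⟨2,14,0,1⟩, ⟨2,14,3,1⟩, ⟨2,14,4,1⟩, ⟨2,14,5,1⟩, ⟨3,2,4,1⟩, ⟨3,2,14,1⟩,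
  ⟨3,4,2,1⟩, ⟨3,4,10,1⟩, ⟨3,4,14,1⟩, ⟨3,10,4,1⟩, ⟨3,10,10,1⟩, ⟨3,14,2,1⟩, ⟨3,14,4,1⟩, ⟨4,1,8,1⟩,
  ⟨4,1,12,1⟩, ⟨4,2,3,1⟩, ⟨4,2,6,1⟩, ⟨4,2,13,1⟩, ⟨4,2,14,1⟩, ⟨4,3,2,1⟩, ⟨4,3,10,1⟩, ⟨4,3,14,1⟩,
  ⟨4,4,7,1⟩, ⟨4,4,12,1⟩, ⟨4,6,2,1⟩, ⟨4,6,13,1⟩, ⟨4,7,4,1⟩, ⟨4,7,12,1⟩, ⟨4,8,1,1⟩, ⟨4,8,8,1⟩,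
  ⟨4,8,9,1⟩, ⟨4,8,12,1⟩, ⟨4,9,8,1⟩, ⟨4,10,3,1⟩, ⟨4,10,10,1⟩, ⟨4,12,1,1⟩, ⟨4,12,4,1⟩, ⟨4,12,7,1⟩,
  ⟨4,12,8,1⟩, ⟨4,13,2,1⟩, ⟨4,13,6,1⟩, ⟨4,14,2,1⟩, ⟨4,14,3,1⟩, ⟨5,0,2,1⟩, ⟨5,0,10,1⟩, ⟨5,0,14,1⟩,
  ⟨5,2,0,1⟩, ⟨5,2,14,1⟩, ⟨5,6,8,1⟩, ⟨5,6,10,1⟩, ⟨5,8,6,1⟩, ⟨5,8,10,1⟩, ⟨5,10,0,1⟩, ⟨5,10,6,1⟩,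
  ⟨5,10,8,1⟩, ⟨5,10,10,1⟩, ⟨5,14,0,1⟩, ⟨5,14,2,1⟩, ⟨6,2,4,1⟩, ⟨6,2,8,1⟩, ⟨6,2,11,1⟩, ⟨6,2,13,1⟩,
  ⟨6,4,2,1⟩, ⟨6,4,13,1⟩, ⟨6,5,8,1⟩, ⟨6,5,10,1⟩, ⟨6,8,2,1⟩, ⟨6,8,5,1⟩, ⟨6,8,10,1⟩, ⟨6,8,11,1⟩,
  ⟨6,10,5,1⟩, ⟨6,10,8,1⟩, ⟨6,11,2,1⟩, ⟨6,11,8,1⟩, ⟨6,13,2,1⟩, ⟨6,13,4,1⟩, ⟨7,4,4,1⟩, ⟨7,4,12,1⟩,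
  ⟨7,12,4,1⟩, ⟨8,1,4,1⟩, ⟨8,1,12,1⟩, ⟨8,2,6,1⟩, ⟨8,2,11,1⟩, ⟨8,4,1,1⟩, ⟨8,4,8,1⟩, ⟨8,4,9,1⟩,
  ⟨8,4,12,1⟩, ⟨8,5,6,1⟩, ⟨8,5,10,1⟩, ⟨8,6,2,1⟩, ⟨8,6,5,1⟩, ⟨8,6,10,1⟩, ⟨8,6,11,1⟩, ⟨8,8,4,1⟩,
  ⟨8,8,9,1⟩, ⟨8,9,4,1⟩, ⟨8,9,8,1⟩, ⟨8,10,5,1⟩, ⟨8,10,6,1⟩, ⟨8,11,2,1⟩, ⟨8,11,6,1⟩, ⟨8,12,1,1⟩,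
  ⟨8,12,4,1⟩, ⟨9,4,8,1⟩, ⟨9,8,4,1⟩, ⟨9,8,8,1⟩, ⟨10,0,2,1⟩, ⟨10,0,5,1⟩, ⟨10,0,10,1⟩, ⟨10,0,11,1⟩,
  ⟨10,2,0,1⟩, ⟨10,2,11,1⟩, ⟨10,3,4,1⟩, ⟨10,3,10,1⟩, ⟨10,4,3,1⟩, ⟨10,4,10,1⟩, ⟨10,5,0,1⟩,
  ⟨10,5,6,1⟩, ⟨10,5,8,1⟩, ⟨10,5,10,1⟩, ⟨10,6,5,1⟩, ⟨10,6,8,1⟩, ⟨10,8,5,1⟩, ⟨10,8,6,1⟩,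
  ⟨10,10,0,1⟩, ⟨10,10,3,1⟩, ⟨10,10,4,1⟩, ⟨10,10,5,1⟩, ⟨10,11,0,1⟩, ⟨10,11,2,1⟩, ⟨11,0,2,1⟩,
  ⟨11,0,10,1⟩, ⟨11,2,0,1⟩, ⟨11,2,6,1⟩, ⟨11,2,8,1⟩, ⟨11,2,10,1⟩, ⟨11,6,2,1⟩, ⟨11,6,8,1⟩,
  ⟨11,8,2,1⟩, ⟨11,8,6,1⟩, ⟨11,10,0,1⟩, ⟨11,10,2,1⟩, ⟨12,1,4,1⟩, ⟨12,1,8,1⟩, ⟨12,4,1,1⟩,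
  ⟨12,4,4,1⟩, ⟨12,4,7,1⟩, ⟨12,4,8,1⟩, ⟨12,7,4,1⟩, ⟨12,8,1,1⟩, ⟨12,8,4,1⟩, ⟨13,2,4,1⟩, ⟨13,2,6,1⟩,
  ⟨13,4,2,1⟩, ⟨13,4,6,1⟩, ⟨13,6,2,1⟩, ⟨13,6,4,1⟩, ⟨14,0,2,1⟩, ⟨14,0,5,1⟩, ⟨14,2,0,1⟩, ⟨14,2,3,1⟩,
  ⟨14,2,4,1⟩, ⟨14,2,5,1⟩, ⟨14,3,2,1⟩, ⟨14,3,4,1⟩, ⟨14,4,2,1⟩, ⟨14,4,3,1⟩, ⟨14,5,0,1⟩, ⟨14,5,2,1⟩]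

def L22 : List Q := [⟨0,0,22,1⟩, ⟨0,4,12,1⟩, ⟨0,4,18,1⟩, ⟨0,12,4,1⟩, ⟨0,12,14,1⟩, ⟨0,14,12,1⟩,
  ⟨0,18,4,1⟩, ⟨0,22,0,1⟩, ⟨1,1,11,1⟩, ⟨1,1,19,1⟩, ⟨1,5,13,1⟩, ⟨1,5,17,1⟩, ⟨1,11,1,1⟩, ⟨1,11,19,1⟩,
  ⟨1,13,5,1⟩, ⟨1,13,17,1⟩, ⟨1,17,5,1⟩, ⟨1,17,13,1⟩, ⟨1,19,1,1⟩, ⟨1,19,11,1⟩, ⟨2,4,8,1⟩,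
  ⟨2,4,20,1⟩, ⟨2,8,4,1⟩, ⟨2,8,20,1⟩, ⟨2,20,4,1⟩, ⟨2,20,8,1⟩, ⟨3,3,5,1⟩, ⟨3,5,3,1⟩, ⟨3,5,15,1⟩,
  ⟨3,5,21,1⟩, ⟨3,9,13,1⟩, ⟨3,13,9,1⟩, ⟨3,13,15,1⟩, ⟨3,15,5,1⟩, ⟨3,15,13,1⟩, ⟨3,21,5,1⟩,
  ⟨4,0,12,1⟩, ⟨4,0,18,1⟩, ⟨4,2,8,1⟩, ⟨4,2,20,1⟩, ⟨4,4,14,1⟩, ⟨4,4,16,1⟩, ⟨4,8,2,1⟩, ⟨4,8,20,1⟩,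
  ⟨4,12,0,1⟩, ⟨4,12,18,1⟩, ⟨4,14,4,1⟩, ⟨4,14,16,1⟩, ⟨4,16,4,1⟩, ⟨4,16,14,1⟩, ⟨4,18,0,1⟩,
  ⟨4,18,12,1⟩, ⟨4,20,2,1⟩, ⟨4,20,8,1⟩, ⟨5,1,13,1⟩, ⟨5,1,17,1⟩, ⟨5,3,3,1⟩, ⟨5,3,15,1⟩, ⟨5,3,21,1⟩,
  ⟨5,7,7,1⟩, ⟨5,7,11,1⟩, ⟨5,7,17,1⟩, ⟨5,7,19,1⟩, ⟨5,11,7,1⟩, ⟨5,11,13,1⟩, ⟨5,11,17,1⟩, ⟨5,13,1,1⟩,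
  ⟨5,13,11,1⟩, ⟨5,13,13,1⟩, ⟨5,13,17,1⟩, ⟨5,15,3,1⟩, ⟨5,15,15,1⟩, ⟨5,17,1,1⟩, ⟨5,17,7,1⟩,
  ⟨5,17,11,1⟩, ⟨5,17,13,1⟩, ⟨5,19,7,1⟩, ⟨5,21,3,1⟩, ⟨7,5,7,1⟩, ⟨7,5,11,1⟩, ⟨7,5,17,1⟩, ⟨7,5,19,1⟩,
  ⟨7,7,5,1⟩, ⟨7,7,19,1⟩, ⟨7,11,5,1⟩, ⟨7,11,17,1⟩, ⟨7,17,5,1⟩, ⟨7,17,11,1⟩, ⟨7,19,5,1⟩, ⟨7,19,7,1⟩,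
  ⟨8,2,4,1⟩, ⟨8,2,20,1⟩, ⟨8,4,2,1⟩, ⟨8,4,20,1⟩, ⟨8,8,10,1⟩, ⟨8,8,16,1⟩, ⟨8,10,8,1⟩, ⟨8,10,16,1⟩,
  ⟨8,16,8,1⟩, ⟨8,16,10,1⟩, ⟨8,20,2,1⟩, ⟨8,20,4,1⟩, ⟨9,3,13,1⟩, ⟨9,13,3,1⟩, ⟨9,13,15,1⟩,
  ⟨9,15,13,1⟩, ⟨10,8,8,1⟩, ⟨10,8,16,1⟩, ⟨10,16,8,1⟩, ⟨11,1,1,1⟩, ⟨11,1,19,1⟩, ⟨11,5,7,1⟩,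
  ⟨11,5,13,1⟩, ⟨11,5,17,1⟩, ⟨11,7,5,1⟩, ⟨11,7,17,1⟩, ⟨11,11,11,1⟩, ⟨11,13,5,1⟩, ⟨11,13,13,1⟩,
  ⟨11,17,5,1⟩, ⟨11,17,7,1⟩, ⟨11,19,1,1⟩, ⟨12,0,4,1⟩, ⟨12,0,14,1⟩, ⟨12,4,0,1⟩, ⟨12,4,18,1⟩,
  ⟨12,12,14,1⟩, ⟨12,14,0,1⟩, ⟨12,14,12,1⟩, ⟨12,18,4,1⟩, ⟨13,1,5,1⟩, ⟨13,1,17,1⟩, ⟨13,3,9,1⟩,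
  ⟨13,3,15,1⟩, ⟨13,5,1,1⟩, ⟨13,5,11,1⟩, ⟨13,5,13,1⟩, ⟨13,5,17,1⟩, ⟨13,9,3,1⟩, ⟨13,9,15,1⟩,
  ⟨13,11,5,1⟩, ⟨13,11,13,1⟩, ⟨13,13,5,1⟩, ⟨13,13,11,1⟩, ⟨13,15,3,1⟩, ⟨13,15,9,1⟩, ⟨13,17,1,1⟩,
  ⟨13,17,5,1⟩, ⟨14,0,12,1⟩, ⟨14,4,4,1⟩, ⟨14,4,16,1⟩, ⟨14,12,0,1⟩, ⟨14,12,12,1⟩, ⟨14,16,4,1⟩,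
  ⟨15,3,5,1⟩, ⟨15,3,13,1⟩, ⟨15,5,3,1⟩, ⟨15,5,15,1⟩, ⟨15,9,13,1⟩, ⟨15,13,3,1⟩, ⟨15,13,9,1⟩,
  ⟨15,15,5,1⟩, ⟨16,4,4,1⟩, ⟨16,4,14,1⟩, ⟨16,8,8,1⟩, ⟨16,8,10,1⟩, ⟨16,10,8,1⟩, ⟨16,14,4,1⟩,
  ⟨17,1,5,1⟩, ⟨17,1,13,1⟩, ⟨17,5,1,1⟩, ⟨17,5,7,1⟩, ⟨17,5,11,1⟩, ⟨17,5,13,1⟩, ⟨17,7,5,1⟩,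
  ⟨17,7,11,1⟩, ⟨17,11,5,1⟩, ⟨17,11,7,1⟩, ⟨17,13,1,1⟩, ⟨17,13,5,1⟩, ⟨18,0,4,1⟩, ⟨18,4,0,1⟩,
  ⟨18,4,12,1⟩, ⟨18,12,4,1⟩, ⟨19,1,1,1⟩, ⟨19,1,11,1⟩, ⟨19,5,7,1⟩, ⟨19,7,5,1⟩, ⟨19,7,7,1⟩,
  ⟨19,11,1,1⟩, ⟨20,2,4,1⟩, ⟨20,2,8,1⟩, ⟨20,4,2,1⟩, ⟨20,4,8,1⟩, ⟨20,8,2,1⟩, ⟨20,8,4,1⟩, ⟨21,3,5,1⟩,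
  ⟨21,5,3,1⟩, ⟨22,0,0,1⟩]

/-- Initial state: `a` and `2 b` powers of four, conditions for `n = 3, 6, 7, 11, 15, 22`. -/
def initA : St := ⟨false, 1, false, false, [L3, L6, L7, L11, L15, L22],
  [(1, 2, 2), (1, 2, 3), (1, 2, 5), (4, 2, 4), (4, 2, 6), (4, 2, 7), (4, 2, 56)]⟩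

/-- Initial state: `a` and `a + b + c` powers of four, conditions for `n = 3, 6, 7`. -/
def initB : St := ⟨false, 2, false, false, [[⟨1, 1, 1, 1⟩], L3, L6, L7], []⟩

end Pool.Agent.R451.Sun42
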