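import Pool.Agent.R451.Sun42Init

set_option autoImplicit false

namespace Pool.Agent.R451.Sun42

theorem startA_002 : start 20 initA 0 0 2 = true := by decide +kernel


end Pool.Agent.R451.Sun42
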