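import Pool.Agent.R451.Sun42Init

set_option autoImplicit false

namespace Pool.Agent.R451.Sun42

theorem startA_022 : start 20 initA 0 2 2 = true := by decide +kernel

theorem startA_100 : start 20 initA 1 0 0 = true := by decide +kernel

theorem startA_101 : start 20 initA 1 0 1 = true := by decide +kernel

theorem startA_102 : start 20 initA 1 0 2 = true := by decide +kernel

theorem startA_103 : start 20 initA 1 0 3 = true := by decide +kernel

theorem startA_120 : start 20 initA 1 2 0 = true := by decide +kernel

theorem startA_121 : start 20 initA 1 2 1 = true := by decide +kernel

theorem startA_122 : start 20 initA 1 2 2 = true := by decide +kernel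

theorem startA_123 : start 20 initA 1 2 3 = true := by decide +kernel


end Pool.Agent.R451.Sun42
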