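import Pool.Agent.R451.Sun42Init

set_option autoImplicit false

namespace Pool.Agent.R451.Sun42

/-- The list of squares up to `n ^ 2`. -/
def sqs (n : ℕ) : List ℕ := (List.range (n + 1)).map fun w => w * w

def memN (k : ℕ) : List ℕ → Bool
  | [] => false
  | x :: xs => or (Nat.beq x k) (memN k xs)

theorem memN_of {k : ℕ} {l : List ℕ} (h : k ∈ l) : memN k l = true := by
  induction l with
  | nil => simp at h
  | cons x xs ih =>
    rcases List.mem_cons.1 h with h | h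
    · subst h; simp [memN]
    · simp [memN, ih h]

theorem mem_of_memN {k : ℕ} {l : List ℕ} (h : memN k l = true) : k ∈ l := by
  induction l with
  | nil => simp [memN] at h
  | cons x xs ih =>
    simp only [memN, Bool.or_eq_true, Nat.beq_eq] at h
    rcases h with h | h
    · simp [h]
    · exact List.mem_cons_of_mem _ (ih h)

/-- Loop over all `x, y, z ≤ n` such that `n ^ 2 - x ^ 2 - y ^ 2 - z ^ 2` is a square; the
condition `p` is tested last. -/
def loopC (n : ℕ) (rg sq : List ℕ) (p : ℕ → ℕ → ℕ → Bool) : Bool :=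
  allL (fun x => allL (fun y => allL (fun z =>
    or (not (and (Nat.ble (Nat.add (Nat.add (Nat.mul x x) (Nat.mul y y)) (Nat.mul z z))
      (Nat.mul n n)) (memN (Nat.sub (Nat.mul n n)
        (Nat.add (Nat.add (Nat.mul x x) (Nat.mul y y)) (Nat.mul z z))) sq))) (p x y z))
          rg) rg) rg

/-- The same loop with the condition `p` tested first. -/
def loopK (n : ℕ) (rg sq : List ℕ) (p : ℕ → ℕ → ℕ → Bool) : Bool :=
  allL (fun x => allL (fun y => allL (fun z =>
    or (p x y z) (not (and (Nat.ble (Nat.add (Nat.add (Nat.mul x x) (Nat.mul y y)) (Nat.mul z z))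
      (Nat.mul n n)) (memN (Nat.sub (Nat.mul n n)
        (Nat.add (Nat.add (Nat.mul x x) (Nat.mul y y)) (Nat.mul z z))) sq)))) rg) rg) rg

theorem test_of {n : ℕ} {rg sq : List ℕ}
    (hr : rg = List.range (n + 1)) (hs : sq = sqs n)
    {x y z w : ℕ} (hn : n ^ 2 = x ^ 2 + y ^ 2 + z ^ 2 + w ^ 2) :
    x ∈ rg ∧ y ∈ rg ∧ z ∈ rg ∧
    (and (Nat.ble (Nat.add (Nat.add (Nat.mul x x) (Nat.mul y y)) (Nat.mul z z))
      (Nat.mul n n)) (memN (Nat.sub (Nat.mul n n)
        (Nat.add (Nat.add (Nat.mul x x) (Nat.mul y y)) (Nat.mul z z))) sq)) = true := by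
  have hx : x ≤ n := by nlinarith
  have hy : y ≤ n := by nlinarith
  have hz : z ≤ n := by nlinarith
  have hw : w ≤ n := by nlinarith
  have mx : x ∈ rg := by rw [hr, List.mem_range]; omega
  have my : y ∈ rg := by rw [hr, List.mem_range]; omega
  have mz : z ∈ rg := by rw [hr, List.mem_range]; omega
  refine ⟨mx, my, mz, ?_⟩
  have e1 : Nat.add (Nat.add (Nat.mul x x) (Nat.mul y y)) (Nat.mul z z) =
    x * x + y * y + z * z := rfl
  have e2 : Nat.mul n n = n * n := rfl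
  rw [e1, e2]
  have hn' : n * n = x * x + y * y + z * z + w * w := by have := pow_two n; rw [← this, hn]; ring
  have h2 : Nat.ble (x * x + y * y + z * z) (n * n) = true := by
    rw [Nat.ble_eq]; omega
  have h3 : Nat.sub (n * n) (x * x + y * y + z * z) = w * w := by
    show n * n - (x * x + y * y + z * z) = w * w
    omega
  have h4 : memN (w * w) sq = true := by
    apply memN_of
    rw [hs, sqs, List.mem_map]
    exact ⟨w, by rw [List.mem_range]; omega, rfl⟩
  rw [h2, h3, h4]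
  rfl

theorem loopC_sound {n : ℕ} {rg sq : List ℕ} {p : ℕ → ℕ → ℕ → Bool}
    (hr : rg = List.range (n + 1)) (hs : sq = sqs n) (h : loopC n rg sq p = true)
    {x y z w : ℕ} (hn : n ^ 2 = x ^ 2 + y ^ 2 + z ^ 2 + w ^ 2) : p x y z = true := by
  obtain ⟨mx, my, mz, ht⟩ := test_of hr hs hn
  have h1 := allL_iff (allL_iff (allL_iff h _ mx) _ my) _ mz
  rw [ht] at h1
  simpa using h1

theorem loopK_sound {n : ℕ} {rg sq : List ℕ} {p : ℕ → ℕ → ℕ → Bool}
    (hr : rg = List.range (n + 1)) (hs : sq = sqs n) (h : loopK n rg sq p = true)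
    {x y z w : ℕ} (hn : n ^ 2 = x ^ 2 + y ^ 2 + z ^ 2 + w ^ 2) : p x y z = true := by
  obtain ⟨mx, my, mz, ht⟩ := test_of hr hs hn
  have h1 := allL_iff (allL_iff (allL_iff h _ mx) _ my) _ mz
  rw [ht] at h1
  simpa using h1

def memL (x y z : ℕ) : List Q → Bool
  | [] => false
  | q :: qs => or (and (Nat.beq q.x x) (and (Nat.beq q.y y) (and (Nat.beq q.z z)
      (Nat.beq q.c 1)))) (memL x y z qs)

theorem memL_iff {x y z : ℕ} {l : List Q} (h : memL x y z l = true) : (⟨x, y, z, 1⟩ : Q) ∈ l := by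
  induction l with
  | nil => simp [memL] at h
  | cons q qs ih =>
    obtain ⟨a, b, c, d⟩ := q
    simp only [memL, Bool.or_eq_true, Bool.and_eq_true, Nat.beq_eq] at h
    rcases h with ⟨rfl, rfl, rfl, rfl⟩ | h
    · simp
    · exact List.mem_cons_of_mem _ (ih h)

def okL (L : List Q) (x y z : ℕ) : Bool :=
  or (and (Nat.beq (Nat.mod x 3) 0) (and (Nat.beq (Nat.mod y 3) 0) (Nat.beq (Nat.mod z 3) 0)))
    (memL x y z L)

def isP4c (k : ℕ) : Bool :=
  or (Nat.beq k 1) (or (Nat.beq k 4) (or (Nat.beq k 16) (or (Nat.beq k 64)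
    (or (Nat.beq k 256) (or (Nat.beq k 1024) (Nat.ble 4096 k))))))

theorem isP4c_of {k : ℕ} (h : IsP4 k) : isP4c k = true := by
  obtain ⟨e, rfl⟩ := h
  have h5 : e < 6 ∨ 6 ≤ e := by omega
  rcases h5 with h5 | h5
  · interval_cases e <;> decide
  · have : 4 ^ 6 ≤ 4 ^ e := Nat.pow_le_pow_right (by norm_num) h5
    have h2 : Nat.ble 4096 (4 ^ e) = true := by rw [Nat.ble_eq]; norm_num at this; exact this
    simp [isP4c, h2]

def okK (a b c x y z : ℕ) : Bool :=
  not (isP4c (Nat.add (Nat.add (Nat.mul a x) (Nat.mul b y)) (Nat.mul c z)))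

def rg3 : List ℕ := [0, 1, 2, 3]
def sq3 : List ℕ := [0, 1, 4, 9]
theorem rg3_eq : rg3 = List.range (3 + 1) := by decide +kernel
theorem sq3_eq : sq3 = sqs 3 := by decide +kernel

def rg6 : List ℕ := [0, 1, 2, 3, 4, 5, 6]
def sq6 : List ℕ := [0, 1, 4, 9, 16, 25, 36]
theorem rg6_eq : rg6 = List.range (6 + 1) := by decide +kernel
theorem sq6_eq : sq6 = sqs 6 := by decide +kernel

def rg7 : List ℕ := [0, 1, 2, 3, 4, 5, 6, 7]
def sq7 : List ℕ := [0, 1, 4, 9, 16, 25, 36, 49]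
theorem rg7_eq : rg7 = List.range (7 + 1) := by decide +kernel
theorem sq7_eq : sq7 = sqs 7 := by decide +kernel

def rg9 : List ℕ := [0, 1, 2, 3, 4, 5, 6, 7, 8, 9]
def sq9 : List ℕ := [0, 1, 4, 9, 16, 25, 36, 49, 64, 81]
theorem rg9_eq : rg9 = List.range (9 + 1) := by decide +kernel
theorem sq9_eq : sq9 = sqs 9 := by decide +kernel

def rg11 : List ℕ := [0, 1, 2, 3, 4, 5, 6, 7, 8, 9, 10, 11]
def sq11 : List ℕ := [0, 1, 4, 9, 16, 25, 36, 49, 64, 81, 100, 121]
theorem rg11_eq : rg11 = List.range (11 + 1) := by decide +kernel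
theorem sq11_eq : sq11 = sqs 11 := by decide +kernel

def rg15 : List ℕ := [0, 1, 2, 3, 4, 5, 6, 7, 8, 9, 10, 11, 12, 13, 14, 15]
def sq15 : List ℕ := [0, 1, 4, 9, 16, 25, 36, 49, 64, 81, 100, 121, 144, 169, 196, 225]
theorem rg15_eq : rg15 = List.range (15 + 1) := by decide +kernel
theorem sq15_eq : sq15 = sqs 15 := by decide +kernel

def rg18 : List ℕ := [0, 1, 2, 3, 4, 5, 6, 7, 8, 9, 10, 11, 12, 13, 14, 15, 16, 17, 18]
def sq18 : List ℕ := [0, 1, 4, 9, 16, 25, 36, 49, 64, 81, 100, 121, 144, 169, 196, 225, 256, 289,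
  324]
theorem rg18_eq : rg18 = List.range (18 + 1) := by decide +kernel
theorem sq18_eq : sq18 = sqs 18 := by decide +kernel

def rg22 : List ℕ := [0, 1, 2, 3, 4, 5, 6, 7, 8, 9, 10, 11, 12, 13, 14, 15, 16, 17, 18, 19, 20,
  21, 22]
def sq22 : List ℕ := [0, 1, 4, 9, 16, 25, 36, 49, 64, 81, 100, 121, 144, 169, 196, 225, 256, 289,
  324, 361, 400, 441, 484]
theorem rg22_eq : rg22 = List.range (22 + 1) := by decide +kernel
theorem sq22_eq : sq22 = sqs 22 := by decide +kernel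

def rg23 : List ℕ := [0, 1, 2, 3, 4, 5, 6, 7, 8, 9, 10, 11, 12, 13, 14, 15, 16, 17, 18, 19, 20,
  21, 22, 23]
def sq23 : List ℕ := [0, 1, 4, 9, 16, 25, 36, 49, 64, 81, 100, 121, 144, 169, 196, 225, 256, 289,
  324, 361, 400, 441, 484, 529]
theorem rg23_eq : rg23 = List.range (23 + 1) := by decide +kernel
theorem sq23_eq : sq23 = sqs 23 := by decide +kernel

def rg25 : List ℕ := [0, 1, 2, 3, 4, 5, 6, 7, 8, 9, 10, 11, 12, 13, 14, 15, 16, 17, 18, 19, 20,
  21, 22, 23, 24, 25]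
def sq25 : List ℕ := [0, 1, 4, 9, 16, 25, 36, 49, 64, 81, 100, 121, 144, 169, 196, 225, 256, 289,
  324, 361, 400, 441, 484, 529, 576, 625]
theorem rg25_eq : rg25 = List.range (25 + 1) := by decide +kernel
theorem sq25_eq : sq25 = sqs 25 := by decide +kernel

def rg26 : List ℕ := [0, 1, 2, 3, 4, 5, 6, 7, 8, 9, 10, 11, 12, 13, 14, 15, 16, 17, 18, 19, 20,
  21, 22, 23, 24, 25, 26]
def sq26 : List ℕ := [0, 1, 4, 9, 16, 25, 36, 49, 64, 81, 100, 121, 144, 169, 196, 225, 256, 289,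
  324, 361, 400, 441, 484, 529, 576, 625, 676]
theorem rg26_eq : rg26 = List.range (26 + 1) := by decide +kernel
theorem sq26_eq : sq26 = sqs 26 := by decide +kernel

def rg29 : List ℕ := [0, 1, 2, 3, 4, 5, 6, 7, 8, 9, 10, 11, 12, 13, 14, 15, 16, 17, 18, 19, 20,
  21, 22, 23, 24, 25, 26, 27, 28, 29]
def sq29 : List ℕ := [0, 1, 4, 9, 16, 25, 36, 49, 64, 81, 100, 121, 144, 169, 196, 225, 256, 289,
  324, 361, 400, 441, 484, 529, 576, 625, 676, 729, 784, 841]
theorem rg29_eq : rg29 = List.range (29 + 1) := by decide +kernel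
theorem sq29_eq : sq29 = sqs 29 := by decide +kernel


end Pool.Agent.R451.Sun42
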