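import Pool.Agent.R451.Sun42K5

set_option autoImplicit false

namespace Pool.Agent.R451.Sun42

theorem startB_all : allL (fun d => allL (fun e => allL (fun f =>
    or (and (Nat.beq d 0) (and (Nat.beq e 0) (Nat.beq f 0))) (start 20 initB d e f))
      [0, 1, 2, 3]) [0, 1, 2, 3]) [0, 1] = true := by decide +kernel

theorem loop3 : loopC 3 rg3 sq3 (okL L3) = true := by decide +kernel
theorem loop6 : loopC 6 rg6 sq6 (okL L6) = true := by decide +kernel
theorem loop7 : loopC 7 rg7 sq7 (okL L7) = true := by decide +kernel
theorem loop11 : loopC 11 rg11 sq11 (okL L11) = true := by decide +kernel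
theorem loop15 : loopC 15 rg15 sq15 (okL L15) = true := by decide +kernel
theorem loop22 : loopC 22 rg22 sq22 (okL L22) = true := by decide +kernel

end Pool.Agent.R451.Sun42
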