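import Pool.Agent.R451.Sun42K5

set_option autoImplicit false

namespace Pool.Agent.R451.Sun42

theorem kill18 : loopK 18 rg18 sq18 (okK 1 2 2) = true := by decide +kernel
theorem kill23 : loopK 23 rg23 sq23 (okK 1 2 5) = true := by decide +kernel
theorem kill9 : loopK 9 rg9 sq9 (okK 4 2 4) = true := by decide +kernel
theorem kill29 : loopK 29 rg29 sq29 (okK 4 2 6) = true := by decide +kernel
theorem kill25 : loopK 25 rg25 sq25 (okK 4 2 7) = true := by decide +kernel
theorem kill26 : loopK 26 rg26 sq26 (okK 4 2 56) = true := by decide +kernel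

end Pool.Agent.R451.Sun42
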