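import Pool.Agent.R451.Sun42K1
import Pool.Agent.R451.Sun42K2
import Pool.Agent.R451.Sun42K3
import Pool.Agent.R451.Sun42K4
import Pool.Agent.R451.Sun42K6
import Pool.Agent.R451.Sun42K7

set_option autoImplicit false

namespace Pool.Agent.R451.Sun42

/-- For every positive integer `n` there are natural numbers with
`n ^ 2 = x ^ 2 + y ^ 2 + z ^ 2 + w ^ 2` and `a x + b y + c z` a power of four. -/
def PropP (a b c : ℕ) : Prop :=
  ∀ n : ℕ, 0 < n → ∃ x y z w : ℕ, n ^ 2 = x ^ 2 + y ^ 2 + z ^ 2 + w ^ 2 ∧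
    ∃ k : ℕ, a * x + b * y + c * z = 4 ^ k

theorem PropP.swap23 {a b c : ℕ} (h : PropP a b c) : PropP a c b := by
  intro n hn
  obtain ⟨x, y, z, w, h1, k, h2⟩ := h n hn
  exact ⟨x, z, y, w, by rw [h1]; ring, k, by rw [← h2]; ring⟩

theorem PropP.swap12 {a b c : ℕ} (h : PropP a b c) : PropP b a c := by
  intro n hn
  obtain ⟨x, y, z, w, h1, k, h2⟩ := h n hn
  exact ⟨y, x, z, w, by rw [h1]; ring, k, by rw [← h2]; ring⟩

theorem clause {n : ℕ} {L : List Q} {rg sq : List ℕ} {a b c : ℕ} (hn : 0 < n)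
    (hr : rg = List.range (n + 1)) (hs : sq = sqs n) (hl : loopC n rg sq (okL L) = true)
    (h : PropP a b c) : ∃ q ∈ L, q.Sat a b c := by
  obtain ⟨x, y, z, w, h1, k, h2⟩ := h n hn
  have h3 := loopC_sound hr hs hl h1
  rw [okL, Bool.or_eq_true] at h3
  rcases h3 with h3 | h3
  · exfalso
    simp only [Bool.and_eq_true, Nat.beq_eq] at h3
    obtain ⟨g1, g2, g3⟩ := h3
    have d1 : 3 ∣ x := Nat.dvd_of_mod_eq_zero g1
    have d2 : 3 ∣ y := Nat.dvd_of_mod_eq_zero g2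
    have d3 : 3 ∣ z := Nat.dvd_of_mod_eq_zero g3
    have d4 : 3 ∣ 4 ^ k := by
      rw [← h2]
      exact dvd_add (dvd_add (d1.mul_left _) (d2.mul_left _)) (d3.mul_left _)
    have := Nat.Prime.dvd_of_dvd_pow Nat.prime_three d4
    omega
  · refine ⟨_, memL_iff h3, Or.inr ⟨0, rfl, k, ?_⟩⟩
    show 0 + (x * a + y * b + z * c) = 4 ^ k
    rw [← h2]; ring

theorem kill {n : ℕ} {rg sq : List ℕ} {a b c : ℕ} (hn : 0 < n)
    (hr : rg = List.range (n + 1)) (hs : sq = sqs n) (hl : loopK n rg sq (okK a b c) = true) :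
    ¬ PropP a b c := by
  intro h
  obtain ⟨x, y, z, w, h1, k, h2⟩ := h n hn
  have h3 := loopK_sound hr hs hl h1
  have h4 : isP4c (a * x + b * y + c * z) = true := isP4c_of ⟨k, h2⟩
  have h5 : okK a b c x y z = not (isP4c (a * x + b * y + c * z)) := rfl
  rw [h5, h4] at h3
  exact absurd h3 (by decide)

theorem startA {d e f : ℕ} (hd : d = 0 ∨ d = 1) (he : e = 0 ∨ e = 2) (hf : f < 4)
    (h0 : ¬ (d = 0 ∧ e = 0 ∧ f = 0)) : start 20 initA d e f = true := by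
  rcases hd with rfl | rfl <;> rcases he with rfl | rfl <;> interval_cases f
  · exact absurd ⟨rfl, rfl, rfl⟩ h0
  · exact startA_001
  · exact startA_002
  · exact startA_003
  · exact startA_020
  · exact startA_021
  · exact startA_022
  · exact startA_023
  · exact startA_100
  · exact startA_101
  · exact startA_102
  · exact startA_103
  · exact startA_120
  · exact startA_121
  · exact startA_122
  · exact startA_123

theorem startB {d e f : ℕ} (hd : d = 0 ∨ d = 1) (he : e < 4) (hf : f < 4)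
    (h0 : ¬ (d = 0 ∧ e = 0 ∧ f = 0)) : start 20 initB d e f = true := by
  have hd' : d ∈ ([0, 1] : List ℕ) := by simp; omega
  have he' : e ∈ ([0, 1, 2, 3] : List ℕ) := by simp; omega
  have hf' : f ∈ ([0, 1, 2, 3] : List ℕ) := by simp; omega
  have h := allL_iff (allL_iff (allL_iff startB_all _ hd') _ he') _ hf'
  rw [Bool.or_eq_true] at h
  rcases h with h | h
  · simp only [Bool.and_eq_true, Nat.beq_eq] at h
    exact absurd h h0
  · exact h

theorem split4 (a : ℕ) : a = a % 4 + 4 * (a / 4) := by omega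

theorem caseA {a b c : ℕ} (hb : 0 < b) (hc : 0 < c)
    (hg : ¬ (4 ∣ a ∧ 4 ∣ b ∧ 4 ∣ c)) (hP : PropP a b c) (h1 : IsP4 a) (h2 : IsP4 (2 * b)) :
    ({a, b, c} : Multiset ℕ) = {1, 2, 3} := by
  by_cases hW : (a, b, c) ∈ ([(1, 2, 2), (1, 2, 3), (1, 2, 5), (4, 2, 4), (4, 2, 6), (4, 2, 7),
      (4, 2, 56)] : List Tr)
  · simp only [List.mem_cons, Prod.mk.injEq, List.not_mem_nil, or_false] at hW
    rcases hW with ⟨rfl, rfl, rfl⟩ | ⟨rfl, rfl, rfl⟩ | ⟨rfl, rfl, rfl⟩ | ⟨rfl, rfl, rfl⟩ |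
      ⟨rfl, rfl, rfl⟩ | ⟨rfl, rfl, rfl⟩ | ⟨rfl, rfl, rfl⟩
    · exact absurd hP (kill (by norm_num) rg18_eq sq18_eq kill18)
    · rfl
    · exact absurd hP (kill (by norm_num) rg23_eq sq23_eq kill23)
    · exact absurd hP (kill (by norm_num) rg9_eq sq9_eq kill9)
    · exact absurd hP (kill (by norm_num) rg29_eq sq29_eq kill29)
    · exact absurd hP (kill (by norm_num) rg25_eq sq25_eq kill25)
    · exact absurd hP (kill (by norm_num) rg26_eq sq26_eq kill26)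
  · exfalso
    have hS : initA.Sat a b c := by
      refine ⟨by simp [initA], fun _ => h1, by simp [initA], fun _ => h2, Or.inr hb, Or.inr hc,
        ?_, hW⟩
      intro cl hcl
      simp only [initA, List.mem_cons, List.not_mem_nil, or_false] at hcl
      rcases hcl with rfl | rfl | rfl | rfl | rfl | rfl
      · exact clause (by norm_num) rg3_eq sq3_eq loop3 hP
      · exact clause (by norm_num) rg6_eq sq6_eq loop6 hP
      · exact clause (by norm_num) rg7_eq sq7_eq loop7 hP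
      · exact clause (by norm_num) rg11_eq sq11_eq loop11 hP
      · exact clause (by norm_num) rg15_eq sq15_eq loop15 hP
      · exact clause (by norm_num) rg22_eq sq22_eq loop22 hP
    have hd : a % 4 = 0 ∨ a % 4 = 1 := by
      rcases isP4_split (Nat.mod_lt a (by norm_num)) (split4 a ▸ h1) with h | h
      · exact Or.inr h.1
      · exact Or.inl h.1
    have he : b % 4 = 0 ∨ b % 4 = 2 := by
      rcases isP4_split2 (Nat.mod_lt b (by norm_num)) (split4 b ▸ h2) with h | h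
      · exact Or.inr h.1
      · exact Or.inl h.1
    have h0 : ¬ (a % 4 = 0 ∧ b % 4 = 0 ∧ c % 4 = 0) := by
      rintro ⟨g1, g2, g3⟩
      exact hg ⟨Nat.dvd_of_mod_eq_zero g1, Nat.dvd_of_mod_eq_zero g2, Nat.dvd_of_mod_eq_zero g3⟩
    have hst := startA hd he (Nat.mod_lt c (by norm_num)) h0
    have := start_sound (Nat.mod_lt a (by norm_num)) (Nat.mod_lt b (by norm_num))
      (Nat.mod_lt c (by norm_num)) hst (a / 4) (b / 4) (c / 4)
    rw [← split4, ← split4, ← split4] at this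
    exact this hS

theorem caseB {a b c : ℕ} (hb : 0 < b) (hc : 0 < c)
    (hg : ¬ (4 ∣ a ∧ 4 ∣ b ∧ 4 ∣ c)) (hP : PropP a b c) (h1 : IsP4 a) (h2 : IsP4 (a + b + c)) :
    False := by
  have hS : initB.Sat a b c := by
    refine ⟨by simp [initB], fun _ => h1, by simp [initB], by simp [initB], Or.inr hb, Or.inr hc,
      ?_, by simp [initB]⟩
    intro cl hcl
    simp only [initB, List.mem_cons, List.not_mem_nil, or_false] at hcl
    rcases hcl with rfl | rfl | rfl | rfl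
    · exact ⟨⟨1, 1, 1, 1⟩, by simp, Or.inr ⟨0, rfl, by simpa using h2⟩⟩
    · exact clause (by norm_num) rg3_eq sq3_eq loop3 hP
    · exact clause (by norm_num) rg6_eq sq6_eq loop6 hP
    · exact clause (by norm_num) rg7_eq sq7_eq loop7 hP
  have hd : a % 4 = 0 ∨ a % 4 = 1 := by
    rcases isP4_split (Nat.mod_lt a (by norm_num)) (split4 a ▸ h1) with h | h
    · exact Or.inr h.1
    · exact Or.inl h.1
  have h0 : ¬ (a % 4 = 0 ∧ b % 4 = 0 ∧ c % 4 = 0) := by
    rintro ⟨g1, g2, g3⟩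
    exact hg ⟨Nat.dvd_of_mod_eq_zero g1, Nat.dvd_of_mod_eq_zero g2, Nat.dvd_of_mod_eq_zero g3⟩
  have hst := startB hd (Nat.mod_lt b (by norm_num)) (Nat.mod_lt c (by norm_num)) h0
  have := start_sound (Nat.mod_lt a (by norm_num)) (Nat.mod_lt b (by norm_num))
    (Nat.mod_lt c (by norm_num)) hst (a / 4) (b / 4) (c / 4)
  rw [← split4, ← split4, ← split4] at this
  exact this hS

theorem core {a b c : ℕ} (hb : 0 < b) (hc : 0 < c)
    (hg : ¬ (4 ∣ a ∧ 4 ∣ b ∧ 4 ∣ c)) (hP : PropP a b c) (h1 : IsP4 a) :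
    ({a, b, c} : Multiset ℕ) = {1, 2, 3} := by
  obtain ⟨x, y, z, w, h2, k, h3⟩ := hP 2 (by norm_num)
  have hx : x ≤ 2 := by nlinarith
  have hy : y ≤ 2 := by nlinarith
  have hz : z ≤ 2 := by nlinarith
  have hw : w ≤ 2 := by nlinarith
  have key : (x = 2 ∧ y = 0 ∧ z = 0) ∨ (x = 0 ∧ y = 2 ∧ z = 0) ∨ (x = 0 ∧ y = 0 ∧ z = 2) ∨
      (x = 0 ∧ y = 0 ∧ z = 0) ∨ (x = 1 ∧ y = 1 ∧ z = 1) := by
    interval_cases x <;> interval_cases y <;> interval_cases z <;> interval_cases w <;> omega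
  rcases key with ⟨rfl, rfl, rfl⟩ | ⟨rfl, rfl, rfl⟩ | ⟨rfl, rfl, rfl⟩ | ⟨rfl, rfl, rfl⟩ |
    ⟨rfl, rfl, rfl⟩
  · exfalso
    obtain ⟨i, rfl⟩ := h1
    have h4 : 2 ^ (2 * i + 1) = 2 ^ (2 * k) := by
      have e1 : (4 : ℕ) ^ i = 2 ^ (2 * i) := by rw [pow_mul]; norm_num
      have e2 : (4 : ℕ) ^ k = 2 ^ (2 * k) := by rw [pow_mul]; norm_num
      rw [pow_succ, ← e1, ← e2, ← h3]; ring
    have h5 := Nat.pow_right_injective (le_refl 2) h4
    omega
  · exact caseA hb hc hg hP h1 ⟨k, by rw [← h3]; ring⟩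
  · have := caseA hc hb (by tauto) hP.swap23 h1 ⟨k, by rw [← h3]; ring⟩
    rw [← this]
    show (a ::ₘ b ::ₘ c ::ₘ 0) = (a ::ₘ c ::ₘ b ::ₘ 0)
    rw [Multiset.cons_swap b c]
  · exfalso
    have : 0 < 4 ^ k := by positivity
    omega
  · exact absurd (caseB hb hc hg hP h1 ⟨k, by rw [← h3]; ring⟩) id

theorem main {a b c : ℕ} (ha : 0 < a) (hb : 0 < b) (hc : 0 < c)
    (hg : Squarefree (Nat.gcd a (Nat.gcd b c))) (hP : PropP a b c) :
    ({a, b, c} : Multiset ℕ) = {1, 2, 3} := by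
  have hg' : ¬ (4 ∣ a ∧ 4 ∣ b ∧ 4 ∣ c) := by
    rintro ⟨g1, g2, g3⟩
    have h4 : 2 * 2 ∣ Nat.gcd a (Nat.gcd b c) := Nat.dvd_gcd g1 (Nat.dvd_gcd g2 g3)
    have := hg 2 h4
    exact absurd this (by decide)
  obtain ⟨x, y, z, w, h2, k, h3⟩ := hP 1 (by norm_num)
  have hx : x ≤ 1 := by nlinarith
  have hy : y ≤ 1 := by nlinarith
  have hz : z ≤ 1 := by nlinarith
  have hw : w ≤ 1 := by nlinarith
  have key : (x = 1 ∧ y = 0 ∧ z = 0) ∨ (x = 0 ∧ y = 1 ∧ z = 0) ∨ (x = 0 ∧ y = 0 ∧ z = 1) ∨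
      (x = 0 ∧ y = 0 ∧ z = 0) := by
    interval_cases x <;> interval_cases y <;> interval_cases z <;> interval_cases w <;> omega
  rcases key with ⟨rfl, rfl, rfl⟩ | ⟨rfl, rfl, rfl⟩ | ⟨rfl, rfl, rfl⟩ | ⟨rfl, rfl, rfl⟩
  · exact core hb hc hg' hP ⟨k, by rw [← h3]; ring⟩
  · have := core ha hc (by tauto) hP.swap12 ⟨k, by rw [← h3]; ring⟩
    rw [← this]
    show (a ::ₘ b ::ₘ c ::ₘ 0) = (b ::ₘ a ::ₘ c ::ₘ 0)
    rw [Multiset.cons_swap a b]
  · have := core ha hb (by tauto) hP.swap23.swap12 ⟨k, by rw [← h3]; ring⟩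
    rw [← this]
    show (a ::ₘ b ::ₘ c ::ₘ 0) = (c ::ₘ a ::ₘ b ::ₘ 0)
    rw [Multiset.cons_swap b c, Multiset.cons_swap a c]
  · exfalso
    have : 0 < 4 ^ k := by positivity
    omega

end Pool.Agent.R451.Sun42
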