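import Pool.Agent.R497.TB.Defs

/-!
# Project TB, piece BWG (helper451): weights which do not depend on `a`
-/

set_option autoImplicit false

namespace Pool.Agent.R451.TB

open MeasureTheory Filter Finset Pool.Agent.R497.TB

universe u

theorem t_BWG : S_BWG.{u} := by
  intro X _ μ _ k d W hW hC
  obtain ⟨C, hC⟩ := hC
  set V : (Fin k → ℕ) → X → ℂ := fun n => (hW n).mk (W n) with hV
  have hVm : ∀ n, Measurable (V n) := fun n => (hW n).stronglyMeasurable_mk.measurable
  set V' : (Fin k → ℕ) → X → ℂ := fun n x => if ‖V n x‖ ≤ C then V n x else 0 with hV'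
  have hV'm : ∀ n, Measurable (V' n) := fun n =>
    Measurable.ite (measurableSet_le (hVm n).norm measurable_const) (hVm n) measurable_const
  have hV'C : ∀ n x, ‖V' n x‖ ≤ max C 0 := by
    intro n x
    simp only [hV']
    split_ifs with h
    · exact h.trans (le_max_left _ _)
    · rw [norm_zero]; exact le_max_right _ _
  have hae : ∀ᵐ x ∂μ, ∀ n, W n x = V' n x := by
    rw [ae_all_iff]
    intro n
    filter_upwards [(hW n).ae_eq_mk, hC n] with x h1 h2
    simp only [hV', hV]
    rw [← h1, if_pos h2]
  refine ⟨⟨C, fun n => Eventually.of_forall fun a => hC n⟩, fun _ n _ x => V' n x, fun k => ?_, ?_⟩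
  · refine ⟨fun n => (hV'm n).comp measurable_snd, max C 0, fun n a x => hV'C n x, ?_⟩
    intro n _ a a' x
    rw [sub_self, norm_zero]
    positivity
  · refine Eventually.of_forall fun a => ?_
    filter_upwards [hae] with x hx ε hε
    refine ⟨0, Eventually.of_forall fun M => ?_⟩
    unfold ravg
    have : ∑ n ∈ Pool.Agent.Y957.MC.box M, ‖W n x - V' n x‖ = 0 :=
      Finset.sum_eq_zero fun n _ => by rw [hx n, sub_self, norm_zero]
    rw [this, mul_zero]
    exact hε.le

end Pool.Agent.R451.TB
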