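import Pool.Agent.R451.Hermite

/-!
A positive definite integral unimodular lattice of rank `1 ≤ m ≤ 6` contains a vector of norm one.
-/

open Matrix Finset

namespace Pool.Agent.R451.Hermite

variable {n : ℕ}

/-- rational version of an integer matrix -/
def toQ (G : Matrix (Fin n) (Fin n) ℤ) : Matrix (Fin n) (Fin n) ℚ := G.map (Int.cast : ℤ → ℚ)

lemma toQ_mul (A B : Matrix (Fin n) (Fin n) ℤ) : toQ (A * B) = toQ A * toQ B := by
  ext i j
  simp [toQ, Matrix.mul_apply]

lemma toQ_det (G : Matrix (Fin n) (Fin n) ℤ) : (toQ G).det = (G.det : ℚ) := det_cast G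

lemma q_toQ (G : Matrix (Fin n) (Fin n) ℤ) (x : Fin n → ℤ) :
    q (toQ G) (cst x) = ((x ⬝ᵥ G *ᵥ x : ℤ) : ℚ) := by
  simp [q, toQ, cst, dotProduct, mulVec]

lemma bc_toQ (U G : Matrix (Fin n) (Fin n) ℤ) : bc U (toQ G) = toQ (Uᵀ * G * U) := by
  rw [toQ_mul, toQ_mul]
  rfl

lemma cst_cons (t : ℤ) (x : Fin n → ℤ) :
    cst (Fin.cons t x : Fin (n + 1) → ℤ) = Fin.cons (t : ℚ) (cst x) := by
  funext i
  refine Fin.cases ?_ (fun i => ?_) i <;> simp [cst]

lemma cst_ne_zero {x : Fin n → ℤ} (h : x ≠ 0) : cst x ≠ 0 := by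
  intro h0
  apply h
  funext i
  have := congrFun h0 i
  simpa [cst] using this

lemma col_ne_zero {U : Matrix (Fin (n + 1)) (Fin (n + 1)) ℤ} (hU : IsUnit U.det) :
    U *ᵥ Pi.single 0 1 ≠ 0 := by
  intro h0
  have := congrFun (Matrix.eq_zero_of_mulVec_eq_zero hU.ne_zero h0) 0
  simp at this

/-- small ranks -/
lemma small {n : ℕ} (hn : n ≤ 4) (G : Matrix (Fin (n + 1)) (Fin (n + 1)) ℤ) (hG : PD (toQ G))
    (hdet : G.det = 1) : ∃ x : Fin (n + 1) → ℤ, q (toQ G) (cst x) = 1 := by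
  obtain ⟨U, hU, h⟩ := hermite n (toQ G) hG
  refine ⟨U *ᵥ Pi.single 0 1, ?_⟩
  have hpos : 0 < q (toQ G) (cst (U *ᵥ Pi.single 0 1)) := hG.2 _ (cst_ne_zero (col_ne_zero hU))
  rw [toQ_det, hdet] at h
  rw [q_toQ] at h hpos ⊢
  generalize (U *ᵥ Pi.single 0 1) ⬝ᵥ G *ᵥ U *ᵥ Pi.single 0 1 = z at *
  have hz : 0 < z := by exact_mod_cast hpos
  have hz2 : z < 2 := by
    by_contra hcon
    rw [not_lt] at hcon
    have h2 : (2 : ℚ) ≤ z := by exact_mod_cast hcon
    have h3 : (2 : ℚ) ^ (n + 1) ≤ (z : ℚ) ^ (n + 1) := pow_le_pow_left₀ (by norm_num) h2 _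
    have h4 := h3.trans h
    interval_cases n <;> norm_num at h4
  have : z = 1 := by omega
  rw [this]
  norm_num

lemma six (G : Matrix (Fin 6) (Fin 6) ℤ) (hG : PD (toQ G))
    (hdet : G.det = 1) : ∃ x : Fin 6 → ℤ, q (toQ G) (cst x) = 1 := by
  by_contra hno
  push Not at hno
  -- first vector
  obtain ⟨U, hU, h⟩ := hermite 5 (toQ G) hG
  set G1 : Matrix (Fin 6) (Fin 6) ℤ := Uᵀ * G * U with hG1
  have hbc : bc U (toQ G) = toQ G1 := bc_toQ U G
  have hPD1 : PD (toQ G1) := by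
    rw [← hbc]; exact PD_bc hU hG
  have hdet1 : (toQ G1).det = 1 := by
    rw [← hbc, det_bc hU, toQ_det, hdet]; norm_num
  have hmin : ∀ x : Fin 6 → ℤ, x ≠ 0 → (2 : ℚ) ≤ q (toQ G1) (cst x) := by
    intro x hx
    have h1 : q (toQ G1) (cst x) = q (toQ G) (cst (U *ᵥ x)) := by
      rw [← hbc, q_bc, cst_mulVec]
    have h2 : 0 < q (toQ G1) (cst x) := hPD1.2 _ (cst_ne_zero hx)
    have h3 := hno (U *ᵥ x)
    rw [h1, q_toQ] at h2 ⊢
    rw [q_toQ] at h3
    generalize (U *ᵥ x) ⬝ᵥ G *ᵥ U *ᵥ x = z at *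
    have h4 : 0 < z := by exact_mod_cast h2
    have h5 : z ≠ 1 := by
      intro h; apply h3; rw [h]; norm_num
    have : 2 ≤ z := by omega
    exact_mod_cast this
  have h00 : (toQ G1) 0 0 = 2 := by
    have e : (toQ G1) 0 0 = q (toQ G) (cst (U *ᵥ Pi.single 0 1)) := by
      rw [← q_single (toQ G1), ← hbc, q_bc, cst_mulVec]
      congr 2
      funext i
      by_cases hi : i = 0
      · subst hi
        simp [cst]
      · simp [cst, hi]
    have hge : (2 : ℚ) ≤ (toQ G1) 0 0 := by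
      have := hmin (Pi.single 0 1) (by
        intro h0
        have := congrFun h0 0
        simp at this)
      have e2 : cst (Pi.single 0 1 : Fin 6 → ℤ) = Pi.single 0 1 := by
        funext i
        by_cases hi : i = 0
        · subst hi
          simp [cst]
        · simp [cst, hi]
      rw [e2, q_single] at this
      exact this
    rw [← e, toQ_det, hdet] at h
    have hle : (toQ G1) 0 0 < 3 := by
      by_contra hcon
      rw [not_lt] at hcon
      have h3 : (3 : ℚ) ^ 6 ≤ ((toQ G1) 0 0) ^ 6 := pow_le_pow_left₀ (by norm_num) hcon _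
      have h4 := h3.trans h
      norm_num at h4
    have e3 : (toQ G1) 0 0 = ((G1 0 0 : ℤ) : ℚ) := rfl
    rw [e3] at hge hle ⊢
    have h5 : (2 : ℤ) ≤ G1 0 0 := by exact_mod_cast hge
    have h6 : G1 0 0 < 3 := by exact_mod_cast hle
    have : G1 0 0 = 2 := by omega
    rw [this]; norm_num
  -- the linear form
  set ell : (Fin 5 → ℤ) → ℤ := fun y => ∑ j, G1 0 j.succ * y j with hell
  have hellQ : ∀ y : Fin 5 → ℤ, ∑ j, (toQ G1) 0 j.succ * cst y j = (ell y : ℚ) := by
    intro y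
    simp [hell, toQ, cst]
  have hcons : ∀ (t : ℤ) (y : Fin 5 → ℤ), q (toQ G1) (cst (Fin.cons t y : Fin 6 → ℤ)) =
      q (schur (toQ G1)) (cst y) + (2 * (t : ℚ) + ell y) ^ 2 / 2 := by
    intro t y
    rw [cst_cons, q_cons hPD1.1 hPD1.pos.ne', h00, hellQ]
  have hcons2 : ∀ (t : ℤ) (y : Fin 5 → ℤ), y ≠ 0 →
      (2 : ℚ) ≤ q (schur (toQ G1)) (cst y) + (2 * (t : ℚ) + ell y) ^ 2 / 2 := by
    intro t y hy
    rw [← hcons]
    apply hmin
    intro h0
    apply hy
    funext j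
    have := congrFun h0 j.succ
    simpa using this
  have hdetS1 : (schur (toQ G1)).det = 1 / 2 := by
    have := schur_det hPD1
    rw [hdet1, h00] at this
    linarith
  have hPDS1 := schur_PD hPD1
  obtain ⟨V, hV, hs⟩ := hermite 4 (schur (toQ G1)) hPDS1
  set v := V *ᵥ (Pi.single 0 1 : Fin 5 → ℤ) with hv
  have hv0 : v ≠ 0 := col_ne_zero hV
  rw [hdetS1] at hs
  set s := q (schur (toQ G1)) (cst v) with hsdef
  have hspos : 0 < s := hPDS1.2 _ (cst_ne_zero hv0)
  have hslt : s < 2 := by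
    by_contra hcon
    rw [not_lt] at hcon
    have h3 : (2 : ℚ) ^ 5 ≤ s ^ 5 := pow_le_pow_left₀ (by norm_num) hcon _
    have h4 := h3.trans hs
    norm_num at h4
  have hodd : ell v % 2 = 1 := by
    by_contra hcon
    have h2 : ell v % 2 = 0 := by omega
    have h3 := hcons2 (-(ell v / 2)) v hv0
    have h4 : 2 * (-(ell v / 2)) + ell v = 0 := by omega
    have h5 : 2 * ((-(ell v / 2) : ℤ) : ℚ) + ell v = 0 := by exact_mod_cast h4
    rw [h5] at h3
    rw [← hsdef] at h3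
    norm_num at h3
    linarith
  have hs32 : s = 3 / 2 := by
    have h3 := hcons (-(ell v / 2)) v
    have h3' := hcons2 (-(ell v / 2)) v hv0
    have h4 : 2 * (-(ell v / 2)) + ell v = 1 := by omega
    have h5 : 2 * ((-(ell v / 2) : ℤ) : ℚ) + ell v = 1 := by exact_mod_cast h4
    rw [h5, ← hsdef] at h3 h3'
    rw [q_toQ] at h3
    generalize (Fin.cons (-(ell v / 2)) v : Fin 6 → ℤ) ⬝ᵥ
      G1 *ᵥ (Fin.cons (-(ell v / 2)) v : Fin 6 → ℤ) = z at *
    have h6 : (z : ℚ) < 3 := by rw [h3]; linarith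
    have h7 : (2 : ℚ) ≤ z := by rw [h3]; exact h3'
    have h8 : z < 3 := by exact_mod_cast h6
    have h9 : 2 ≤ z := by exact_mod_cast h7
    have h10 : z = 2 := by omega
    rw [h10] at h3
    push_cast at h3
    linarith
  -- second Schur complement
  set S1' := bc V (schur (toQ G1)) with hS1'
  have hPDS1' : PD S1' := PD_bc hV hPDS1
  have hS00 : S1' 0 0 = 3 / 2 := by
    rw [← q_single S1', hS1', q_bc, ← hs32, hsdef, hv, cst_mulVec]
    congr 2
    funext i
    by_cases hi : i = 0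
    · subst hi
      simp [cst]
    · simp [cst, hi]
  have hdetS2 : (schur S1').det = 1 / 3 := by
    have := schur_det hPDS1'
    rw [hS1', det_bc hV, hdetS1, ← hS1', hS00] at this
    linarith
  obtain ⟨V2, hV2, hτ⟩ := hermite 3 (schur S1') (schur_PD hPDS1')
  set z := V2 *ᵥ (Pi.single 0 1 : Fin 4 → ℤ) with hz
  have hz0 : z ≠ 0 := col_ne_zero hV2
  rw [hdetS2] at hτ
  set τ := q (schur S1') (cst z) with hτdef
  have hτpos : 0 < τ := (schur_PD hPDS1').2 _ (cst_ne_zero hz0)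
  have hτlt : τ < 4 / 3 := by
    by_contra hcon
    rw [not_lt] at hcon
    have h3 : (4 / 3 : ℚ) ^ 4 ≤ τ ^ 4 := pow_le_pow_left₀ (by norm_num) hcon _
    have h4 := h3.trans hτ
    norm_num at h4
  set L' := ∑ j, S1' 0 j.succ * cst z j with hL'
  set t' : ℤ := round (-L' / (3 / 2)) with ht'
  set g : ℚ := 3 / 2 * t' + L' with hg
  have hgabs : |g| ≤ 3 / 4 := by
    have h10 := abs_sub_round (-L' / (3 / 2))
    rw [← ht'] at h10
    have e : g = -(3 / 2 * (-L' / (3 / 2) - t')) := by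
      rw [hg]; ring
    rw [e, abs_neg, abs_mul, abs_of_pos (by norm_num : (0 : ℚ) < 3 / 2)]
    linarith
  set y := V *ᵥ (Fin.cons t' z : Fin 5 → ℤ) with hy
  have hy0 : y ≠ 0 := by
    intro h0
    have h1 := Matrix.eq_zero_of_mulVec_eq_zero hV.ne_zero h0
    apply hz0
    funext j
    have := congrFun h1 j.succ
    simpa using this
  have hqy : q (schur (toQ G1)) (cst y) = τ + g ^ 2 / (3 / 2) := by
    rw [hy, cst_mulVec, ← q_bc, ← hS1', cst_cons, q_cons hPDS1'.1 hPDS1'.pos.ne', hS00]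
  -- g in terms of integers
  have hgint : ∃ w : ℤ, 2 * g = 2 * (w : ℚ) - ell v * ell y := by
    have h1 : g = ∑ j, S1' 0 j * cst (Fin.cons t' z : Fin 5 → ℤ) j := by
      rw [Fin.sum_univ_succ, hS00, cst_cons]
      simp [hg, hL']
    have h2 : g = cst v ⬝ᵥ schur (toQ G1) *ᵥ cst y := by
      rw [h1]
      have h3 : ∑ j, S1' 0 j * cst (Fin.cons t' z : Fin 5 → ℤ) j =
          Pi.single 0 1 ⬝ᵥ S1' *ᵥ cst (Fin.cons t' z : Fin 5 → ℤ) := by
        rw [single_one_dotProduct]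
        rfl
      rw [h3, hS1', hy, hv, cst_mulVec, cst_mulVec]
      unfold bc
      rw [← Matrix.mulVec_mulVec, ← Matrix.mulVec_mulVec, Matrix.dotProduct_mulVec,
        Matrix.vecMul_transpose]
      congr 2
      funext i
      by_cases hi : i = 0
      · subst hi
        simp [cst]
      · simp [cst, hi]
    refine ⟨∑ i, ∑ j, v i * G1 i.succ j.succ * y j, ?_⟩
    rw [h2, ← hellQ v, ← hellQ y]
    have e1 : cst v ⬝ᵥ schur (toQ G1) *ᵥ cst y =
        ∑ i, ∑ j, cst v i * (schur (toQ G1)) i j * cst y j := by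
      unfold dotProduct mulVec dotProduct
      refine sum_congr rfl fun i _ => ?_
      rw [mul_sum]
      exact sum_congr rfl fun j _ => by ring
    rw [e1, sum_mul_sum, mul_sum]
    push_cast
    rw [mul_sum, ← sum_sub_distrib]
    refine sum_congr rfl fun i _ => ?_
    rw [mul_sum, mul_sum, ← sum_sub_distrib]
    refine sum_congr rfl fun j _ => ?_
    simp only [schur, Matrix.of_apply, h00]
    simp only [toQ, Matrix.map_apply, cst]
    ring
  obtain ⟨w, hw⟩ := hgint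
  have hgz : 2 * g = ((2 * w - ell v * ell y : ℤ) : ℚ) := by rw [hw]; push_cast; ring
  have hb := abs_le.mp hgabs
  have hb1 : (-2 : ℚ) < ((2 * w - ell v * ell y : ℤ) : ℚ) := by rw [← hgz]; linarith [hb.1]
  have hb2 : ((2 * w - ell v * ell y : ℤ) : ℚ) < 2 := by rw [← hgz]; linarith [hb.2]
  have hb3 : -2 < 2 * w - ell v * ell y := by exact_mod_cast hb1
  have hb4 : 2 * w - ell v * ell y < 2 := by exact_mod_cast hb2
  by_cases hey : ell y % 2 = 0
  · have h3 := hcons2 (-(ell y / 2)) y hy0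
    have h4 : 2 * (-(ell y / 2)) + ell y = 0 := by omega
    have h5 : 2 * ((-(ell y / 2) : ℤ) : ℚ) + ell y = 0 := by exact_mod_cast h4
    rw [h5, hqy] at h3
    have h6 : (2 * w - ell v * ell y) % 2 = 0 := by
      obtain ⟨k, hk⟩ : ∃ k, ell y = 2 * k := ⟨ell y / 2, by omega⟩
      rw [hk]
      have : 2 * w - ell v * (2 * k) = 2 * (w - ell v * k) := by ring
      rw [this]
      omega
    have h7 : 2 * w - ell v * ell y = 0 := by omega
    rw [h7] at hgz
    have h8 : g = 0 := by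
      push_cast at hgz
      linarith
    rw [h8] at h3
    norm_num at h3
    linarith
  · have hey' : ell y % 2 = 1 := by omega
    have h3 := hcons2 (-(ell y / 2)) y hy0
    have h4 : 2 * (-(ell y / 2)) + ell y = 1 := by omega
    have h5 : 2 * ((-(ell y / 2) : ℤ) : ℚ) + ell y = 1 := by exact_mod_cast h4
    rw [h5, hqy] at h3
    have h6 : g ^ 2 ≤ 1 / 4 := by
      have h7 : (2 * g) ^ 2 ≤ 1 := by
        rw [hgz]
        have h8 : (2 * w - ell v * ell y) ^ 2 ≤ 1 := by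
          have : -1 ≤ 2 * w - ell v * ell y := by omega
          have : 2 * w - ell v * ell y ≤ 1 := by omega
          nlinarith
        exact_mod_cast h8
      linarith
    have h9 : g ^ 2 / (3 / 2) ≤ 1 / 6 := by
      rw [div_le_iff₀ (by norm_num)]
      linarith
    linarith

theorem exists_norm_one {m : ℕ} (hm : 1 ≤ m) (hm6 : m ≤ 6) (G : Matrix (Fin m) (Fin m) ℤ)
    (hG : PD (toQ G)) (hdet : G.det = 1) : ∃ x : Fin m → ℤ, q (toQ G) (cst x) = 1 := by
  rcases Nat.lt_or_ge m 6 with h | h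
  · obtain ⟨n, rfl⟩ : ∃ n, m = n + 1 := ⟨m - 1, by omega⟩
    exact small (by omega) G hG hdet
  · have : m = 6 := by omega
    subst this
    exact six G hG hdet

end Pool.Agent.R451.Hermite
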